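import Mathlib
import Pool.Agent.Lib.MP_562b47_mp.Commutant

/-!
Covariant operators which commute with the Anderson Hamiltonian: definitions.
(Anderson model, MP_562b47_mp.)
-/

open MeasureTheory Set Filter Topology Complex
open scoped Real ENNReal NNReal InnerProductSpace

set_option linter.unusedSectionVars false

namespace Pool.Agent.Lib.MP_562b47_mp

variable {Λ : Type*} [DecidableEq Λ] [AddCommGroup Λ] [Countable Λ] {E : Type*}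
  [NormedAddCommGroup E] [InnerProductSpace ℂ E] [CompleteSpace E] {c : ℝ} {e : Λ → E}
  {H : (Λ → ℝ) → (E →L[ℂ] E)} {B : (Λ → ℝ) → (E →L[ℂ] E)}

/-- bounded measurable covariant families commuting with `H` -/
structure CovComm (c : ℝ) (e : Λ → E) (H B : (Λ → ℝ) → (E →L[ℂ] E)) (K : ℝ) : Prop where
  bdd : ∀ ω, ‖B ω‖ ≤ K
  meas : ∀ x y, Measurable fun ω => ⟪e x, B ω (e y)⟫_ℂ
  cov : ∀ a x y, ∀ᵐ ω ∂(PP Λ c), ⟪e x, B (fun j => ω (j + a)) (e y)⟫_ℂ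
    = ⟪e (x + a), B ω (e (y + a))⟫_ℂ
  comm : ∀ᵐ ω ∂(PP Λ c), Commute (B ω) (H ω)

/-- `Im z ‖R(z) e_x‖²` along the reference sequence of energies -/
noncomputable def n11 (e : Λ → E) (H : (Λ → ℝ) → (E →L[ℂ] E)) (k : ℕ) (x : Λ)
    (p : (Λ → ℝ) × ℝ) : ℝ :=
  (Zt (tk k) p.2).im * ‖Rv (H p.1) (Zt (tk k) p.2) (e x)‖ ^ 2

/-- `Im z ‖R(z) B e_x‖²` -/
noncomputable def n22 (e : Λ → E) (H B : (Λ → ℝ) → (E →L[ℂ] E)) (k : ℕ) (x : Λ)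
    (p : (Λ → ℝ) × ℝ) : ℝ :=
  (Zt (tk k) p.2).im * ‖Rv (H p.1) (Zt (tk k) p.2) (B p.1 (e x))‖ ^ 2

/-- `Im z ⟨R(z) e_x, R(z) B e_x⟩` -/
noncomputable def n12 (e : Λ → E) (H B : (Λ → ℝ) → (E →L[ℂ] E)) (k : ℕ) (x : Λ)
    (p : (Λ → ℝ) × ℝ) : ℂ :=
  ((Zt (tk k) p.2).im : ℂ)
    * ⟪Rv (H p.1) (Zt (tk k) p.2) (e x), Rv (H p.1) (Zt (tk k) p.2) (B p.1 (e x))⟫_ℂ

end Pool.Agent.Lib.MP_562b47_mp
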