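import Mathlib
import Pool.Agent.Lib.MP_562b47_mp.Cc.Defs
import Pool.Agent.Lib.MP_562b47_mp.Rank

/-!
Complex conjugation of the matrix of an operator family.
(Anderson model, MP_562b47_mp.)
-/

open MeasureTheory Set Filter Topology Complex
open scoped Real ENNReal NNReal InnerProductSpace

set_option linter.unusedSectionVars false

namespace Pool.Agent.Lib.MP_562b47_mp

variable {Λ : Type*} [DecidableEq Λ] [AddCommGroup Λ] [Countable Λ] {E : Type*}
  [NormedAddCommGroup E] [InnerProductSpace ℂ E] [CompleteSpace E] {c : ℝ} {e : Λ → E}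
  {H : (Λ → ℝ) → (E →L[ℂ] E)} {B : (Λ → ℝ) → (E →L[ℂ] E)}

/-- complex conjugation with respect to the basis `e` -/
noncomputable def cc_conj_cj (M : Model c e H) (u : E) : E :=
  M.hb.repr.symm (star (M.hb.repr u))

theorem cc_conj_inner (M : Model c e H) (u : E) (x : Λ) :
    ⟪e x, cc_conj_cj M u⟫_ℂ = (starRingEnd ℂ) ⟪e x, u⟫_ℂ := by
  rw [← M.hb_repr, ← M.hb_repr, cc_conj_cj, LinearIsometryEquiv.apply_symm_apply, lp.star_apply]
  rfl

theorem cc_conj_norm (M : Model c e H) (u : E) : ‖cc_conj_cj M u‖ = ‖u‖ := by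
  rw [cc_conj_cj, LinearIsometryEquiv.norm_map, norm_star, LinearIsometryEquiv.norm_map]

theorem cc_conj_ext (M : Model c e H) {u v : E} (h : ∀ x, ⟪e x, u⟫_ℂ = ⟪e x, v⟫_ℂ) : u = v := by
  rw [← sub_eq_zero]
  refine M.tot _ fun x => ?_
  rw [inner_sub_right, h x, sub_self]

theorem cc_conj_add (M : Model c e H) (u v : E) :
    cc_conj_cj M (u + v) = cc_conj_cj M u + cc_conj_cj M v := by
  refine cc_conj_ext M fun x => ?_
  rw [inner_add_right, cc_conj_inner, cc_conj_inner, cc_conj_inner, inner_add_right, map_add]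

theorem cc_conj_sub (M : Model c e H) (u v : E) :
    cc_conj_cj M (u - v) = cc_conj_cj M u - cc_conj_cj M v := by
  refine cc_conj_ext M fun x => ?_
  rw [inner_sub_right, cc_conj_inner, cc_conj_inner, cc_conj_inner, inner_sub_right, map_sub]

theorem cc_conj_smul (M : Model c e H) (a : ℂ) (u : E) :
    cc_conj_cj M (a • u) = (starRingEnd ℂ) a • cc_conj_cj M u := by
  refine cc_conj_ext M fun x => ?_
  rw [inner_smul_right, cc_conj_inner, cc_conj_inner, inner_smul_right, map_mul]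

theorem cc_conj_basis (M : Model c e H) (y : Λ) : cc_conj_cj M (e y) = e y := by
  refine cc_conj_ext M fun x => ?_
  rw [cc_conj_inner]
  by_cases h : x = y
  · subst h
    rw [inner_self_eq_norm_sq_to_K, M.ortho.1 x]
    simp
  · rw [M.ortho.2 h]
    simp

theorem cc_conj_Rv (M : Model c e H) (ω : Λ → ℝ) {z : ℂ} (hz : z.im ≠ 0) (y : Λ) :
    cc_conj_cj M (Rv (H ω) z (e y)) = Rv (H ω) ((starRingEnd ℂ) z) (e y) := by
  refine cc_conj_ext M fun x => ?_
  rw [cc_conj_inner, M.inner_Rv_conj ω hz]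

/-- the conjugated operator -/
noncomputable def cc_conj_op (M : Model c e H) (T : E →L[ℂ] E) : E →L[ℂ] E :=
  LinearMap.mkContinuous
    { toFun := fun u => cc_conj_cj M (T (cc_conj_cj M u))
      map_add' := fun u v => by rw [cc_conj_add, map_add, cc_conj_add]
      map_smul' := fun a u => by
        rw [cc_conj_smul, map_smul, cc_conj_smul, Complex.conj_conj, RingHom.id_apply] }
    ‖T‖ (fun u => by
      show ‖cc_conj_cj M (T (cc_conj_cj M u))‖ ≤ ‖T‖ * ‖u‖
      rw [cc_conj_norm]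
      refine (T.le_opNorm _).trans ?_
      rw [cc_conj_norm])

theorem cc_conj_op_apply (M : Model c e H) (T : E →L[ℂ] E) (u : E) :
    cc_conj_op M T u = cc_conj_cj M (T (cc_conj_cj M u)) := rfl

/-- complex conjugation of the matrix -/
theorem Model.exists_conj (M : Model c e H) (B : (Λ → ℝ) → (E →L[ℂ] E)) :
    ∃ B' : (Λ → ℝ) → (E →L[ℂ] E),
      (∀ ω x y, ⟪e x, B' ω (e y)⟫_ℂ = (starRingEnd ℂ) ⟪e x, B ω (e y)⟫_ℂ) ∧
      (∀ ω, ‖B' ω‖ ≤ ‖B ω‖) ∧
      ∀ ω ω' x (z : ℂ), 0 < z.im → ‖(B' ω' - B' ω) (Rv (H ω') z (e x))‖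
        = ‖(B ω' - B ω) (Rv (H ω') ((starRingEnd ℂ) z) (e x))‖ := by
  refine ⟨fun ω => cc_conj_op M (B ω), ?_, ?_, ?_⟩
  · intro ω x y
    rw [cc_conj_op_apply, cc_conj_basis, cc_conj_inner]
  · intro ω
    exact LinearMap.mkContinuous_norm_le _ (norm_nonneg _) _
  · intro ω ω' x z hz
    show ‖cc_conj_op M (B ω') (Rv (H ω') z (e x)) - cc_conj_op M (B ω) (Rv (H ω') z (e x))‖
      = ‖B ω' (Rv (H ω') ((starRingEnd ℂ) z) (e x)) - B ω (Rv (H ω') ((starRingEnd ℂ) z) (e x))‖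
    rw [cc_conj_op_apply, cc_conj_op_apply, cc_conj_Rv M ω' hz.ne', ← cc_conj_sub, cc_conj_norm]

end Pool.Agent.Lib.MP_562b47_mp
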