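import Mathlib
import Pool.Agent.Lib.MP_562b47_mp.Cc.Defs

/-!
The vector `e_0` becomes an eigenvector of every covariant operator which commutes with `H`,
in the limit of real energies.  (Anderson model, MP_562b47_mp.)
-/

open MeasureTheory Set Filter Topology Complex
open scoped Real ENNReal NNReal InnerProductSpace

set_option linter.unusedSectionVars false

namespace Pool.Agent.Lib.MP_562b47_mp

variable {Λ : Type*} [DecidableEq Λ] [AddCommGroup Λ] [Countable Λ] {E : Type*}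
  [NormedAddCommGroup E] [InnerProductSpace ℂ E] [CompleteSpace E] {c : ℝ} {e : Λ → E}
  {H : (Λ → ℝ) → (E →L[ℂ] E)} {B : (Λ → ℝ) → (E →L[ℂ] E)}

/-- rank one perturbation of the resolvent, general vector -/
theorem Model.Rv_upd_gen (M : Model c e H) (ω : Λ → ℝ) {z : ℂ} (hz : z.im ≠ 0) (y : Λ) (v : ℝ)
    (u : E) :
    Rv (H (Function.update ω y v)) z u = Rv (H ω) z u
      - (((clp c v - clp c (ω y) : ℝ) : ℂ) * ⟪e y, Rv (H (Function.update ω y v)) z u⟫_ℂ)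
        • Rv (H ω) z (e y) := by
  set ω' := Function.update ω y v with hω'
  set s : ℂ := ((clp c v - clp c (ω y) : ℝ) : ℂ) with hs
  have h1 := Rv_sub_Rv (M.sa ω') (M.sa ω) hz hz u
  have h2 : (H ω - H ω') (Rv (H ω') z u) = -(s • ⟪e y, Rv (H ω') z u⟫_ℂ • e y) := by
    have := M.upd ω y v (Rv (H ω') z u)
    rw [← hω', ← hs] at this
    show H ω (Rv (H ω') z u) - H ω' (Rv (H ω') z u) = _
    rw [this]; abel
  rw [h2, sub_self, zero_smul, sub_zero, map_neg, map_smul, map_smul, smul_smul, neg_neg] at h1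
  rw [← h1]
  abel

theorem cc_gram {F : Type*} [NormedAddCommGroup F] [InnerProductSpace ℂ F] (r q : F) (δ κ : ℂ) :
    ‖κ‖ ^ 2 * (‖r‖ ^ 2 * ‖q‖ ^ 2 - ‖⟪r, q⟫_ℂ‖ ^ 2) ≤ ‖r‖ ^ 2 * ‖δ • r + κ • q‖ ^ 2 := by
  have h1 : ‖δ • r + κ • q‖ ^ 2 = ‖δ‖ ^ 2 * ‖r‖ ^ 2
      + 2 * ((starRingEnd ℂ) δ * κ * ⟪r, q⟫_ℂ).re + ‖κ‖ ^ 2 * ‖q‖ ^ 2 := by
    have h := norm_add_sq (𝕜 := ℂ) (δ • r) (κ • q)
    rw [h, norm_smul, norm_smul, inner_smul_left, inner_smul_right]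
    simp only [RCLike.re_to_complex]
    ring_nf
  have h2 : ‖⟪r, δ • r + κ • q⟫_ℂ‖ ^ 2 = ‖δ‖ ^ 2 * (‖r‖ ^ 2) ^ 2
      + 2 * ‖r‖ ^ 2 * ((starRingEnd ℂ) δ * κ * ⟪r, q⟫_ℂ).re + ‖κ‖ ^ 2 * ‖⟪r, q⟫_ℂ‖ ^ 2 := by
    rw [inner_add_right, inner_smul_right, inner_smul_right, inner_self_eq_norm_sq_to_K]
    set P := ⟪r, q⟫_ℂ
    rw [← Complex.normSq_eq_norm_sq, Complex.normSq_add, Complex.normSq_mul, Complex.normSq_mul]
    have e1 : Complex.normSq (((‖r‖ : ℝ) : ℂ) ^ 2) = (‖r‖ ^ 2) ^ 2 := by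
      rw [map_pow, Complex.normSq_ofReal]; ring
    have e2 : (δ * ((‖r‖ : ℝ) : ℂ) ^ 2 * (starRingEnd ℂ) (κ * P)).re
        = ‖r‖ ^ 2 * ((starRingEnd ℂ) δ * κ * P).re := by
      have e3 : δ * ((‖r‖ : ℝ) : ℂ) ^ 2 * (starRingEnd ℂ) (κ * P)
          = ((‖r‖ ^ 2 : ℝ) : ℂ) * (starRingEnd ℂ) ((starRingEnd ℂ) δ * κ * P) := by
        rw [map_mul, map_mul, map_mul, Complex.conj_conj]; push_cast; ring
      rw [e3, Complex.re_ofReal_mul, Complex.conj_re]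
    change Complex.normSq δ * Complex.normSq (((‖r‖ : ℝ) : ℂ) ^ 2) + _ + _ = _
    rw [e1, Complex.normSq_eq_norm_sq, Complex.normSq_eq_norm_sq, Complex.normSq_eq_norm_sq]
    change _ + _ + 2 * (δ * ((‖r‖ : ℝ) : ℂ) ^ 2 * (starRingEnd ℂ) (κ * P)).re = _
    rw [e2]
    ring
  have h3 : ‖⟪r, δ • r + κ • q⟫_ℂ‖ ^ 2 ≤ ‖r‖ ^ 2 * ‖δ • r + κ • q‖ ^ 2 := by
    rw [← mul_pow]
    exact pow_le_pow_left₀ (norm_nonneg _) (norm_inner_le_norm _ _) 2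
  rw [h1] at h3 ⊢
  rw [h2] at h3
  nlinarith [h3]

/-- the deterministic inequality -/
theorem Model.claim_ineq (M : Model c e H) (ω : Λ → ℝ) {z : ℂ} (hz : 0 < z.im) (y : Λ) (v : ℝ)
    {B B' : E →L[ℂ] E} (hB : Commute B (H ω)) (hB' : Commute B' (H (Function.update ω y v))) :
    4 * (clp c v - clp c (ω y)) ^ 2 * ((z.im * ‖Rv (H ω) z (e y)‖ ^ 2)
        * ((z.im * ‖Rv (H ω) z (e y)‖ ^ 2) * (z.im * ‖Rv (H ω) z (B (e y))‖ ^ 2)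
          - ‖(z.im : ℂ) * ⟪Rv (H ω) z (e y), Rv (H ω) z (B (e y))⟫_ℂ‖ ^ 2))
      ≤ 2 * ‖1 + ((clp c v - clp c (ω y) : ℝ) : ℂ) * ⟪e y, Rv (H ω) z (e y)⟫_ℂ‖ ^ 4
        * (z.im * ‖(B' - B) (Rv (H (Function.update ω y v)) z (e y))‖ ^ 2
          + z.im * ‖(B' - B) (Rv (H (Function.update ω y v)) ((starRingEnd ℂ) z) (e y))‖ ^ 2) := by
  set ω' := Function.update ω y v with hω'
  set s : ℝ := clp c v - clp c (ω y) with hs
  set F := ⟪e y, Rv (H ω) z (e y)⟫_ℂ with hF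
  set a : ℂ := 1 + (s : ℂ) * F with haa
  have hFim : F.im = z.im * ‖Rv (H ω) z (e y)‖ ^ 2 := im_inner_Rv (M.sa ω) hz.ne' (e y)
  have hz' : ((starRingEnd ℂ) z).im ≠ 0 := by simpa using hz.ne'
  have hane : a ≠ 0 := one_add_ne' (M.im_inner_ne ω hz.ne' y) _
  have hcne : (starRingEnd ℂ) a ≠ 0 := (map_ne_zero _).mpr hane
  have hFc : ⟪e y, Rv (H ω) ((starRingEnd ℂ) z) (e y)⟫_ℂ = (starRingEnd ℂ) F :=
    M.inner_Rv_conj ω hz.ne' y y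
  have hac : 1 + (s : ℂ) * (starRingEnd ℂ) F = (starRingEnd ℂ) a := by
    rw [haa]; simp
  set r := Rv (H ω) z (e y) with hr
  set q := Rv (H ω) z (B (e y)) with hq
  -- the formula at a general point
  have key : ∀ w : ℂ, w.im ≠ 0 → ∀ b : ℂ, b ≠ 0 →
      b • Rv (H ω') w (e y) = Rv (H ω) w (e y) →
      (B' - B) (Rv (H ω') w (e y)) = Rv (H ω) w (B' (e y)
        - ((s : ℂ) * ⟪e y, Rv (H ω') w (B' (e y))⟫_ℂ) • e y - b⁻¹ • B (e y)) := by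
    intro w hw b hb hbR
    have h1 : Rv (H ω') w (e y) = b⁻¹ • Rv (H ω) w (e y) := by
      rw [← hbR, smul_smul, inv_mul_cancel₀ hb, one_smul]
    have h2 := M.Rv_upd_gen ω hw y v (B' (e y))
    rw [← hω', ← hs] at h2
    show B' (Rv (H ω') w (e y)) - B (Rv (H ω') w (e y)) = _
    rw [commute_apply (commute_Rv hB' w), h1, map_smul, commute_apply (commute_Rv hB w),
      map_sub, map_sub, map_smul, map_smul, ← h2]
  have hb1 : a • Rv (H ω') z (e y) = Rv (H ω) z (e y) := M.Rv_upd ω hz.ne' y v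
  have hb2 : (starRingEnd ℂ) a • Rv (H ω') ((starRingEnd ℂ) z) (e y)
      = Rv (H ω) ((starRingEnd ℂ) z) (e y) := by
    have h := M.Rv_upd ω hz' y v
    rw [hFc, ← hω', ← hs, hac] at h
    exact h
  have h1 := key z hz.ne' a hane hb1
  have h2 := key _ hz' _ hcne hb2
  set g1 := (s : ℂ) * ⟪e y, Rv (H ω') z (B' (e y))⟫_ℂ with hg1
  set g2 := (s : ℂ) * ⟪e y, Rv (H ω') ((starRingEnd ℂ) z) (B' (e y))⟫_ℂ with hg2
  have h2' : ‖(B' - B) (Rv (H ω') ((starRingEnd ℂ) z) (e y))‖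
      = ‖Rv (H ω) z (B' (e y) - g2 • e y - ((starRingEnd ℂ) a)⁻¹ • B (e y))‖ := by
    rw [h2, norm_Rv_conj (M.sa ω) hz.ne']
  rw [h2', h1]
  set w1 := Rv (H ω) z (B' (e y) - g1 • e y - a⁻¹ • B (e y)) with hw1
  set w2 := Rv (H ω) z (B' (e y) - g2 • e y - ((starRingEnd ℂ) a)⁻¹ • B (e y)) with hw2
  have h4 : w1 - w2 = (g2 - g1) • r + (((starRingEnd ℂ) a)⁻¹ - a⁻¹) • q := by
    rw [hw1, hw2, hq, hr, map_sub, map_sub, map_sub, map_sub, map_smul, map_smul, map_smul,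
      map_smul, sub_smul, sub_smul]
    abel
  have h5 : ‖((starRingEnd ℂ) a)⁻¹ - a⁻¹‖ ^ 2 * ‖a‖ ^ 4 = 4 * s ^ 2 * F.im ^ 2 := by
    have e1 : ((starRingEnd ℂ) a)⁻¹ - a⁻¹ = (a - (starRingEnd ℂ) a) / (a * (starRingEnd ℂ) a) := by
      field_simp
    have e2 : a - (starRingEnd ℂ) a = ((2 * (s * F.im) : ℝ) : ℂ) * I := by
      rw [Complex.sub_conj]
      congr 2
      rw [haa]; simp
    rw [e1, e2, norm_div, norm_mul, norm_mul, Complex.norm_I, Complex.norm_conj,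
      Complex.norm_real, mul_one, div_pow, Real.norm_eq_abs, sq_abs]
    have hn : ‖a‖ ≠ 0 := norm_ne_zero_iff.mpr hane
    field_simp
    ring
  have h6 := cc_gram r q (g2 - g1) (((starRingEnd ℂ) a)⁻¹ - a⁻¹)
  rw [← h4] at h6
  have h7 : ‖w1 - w2‖ ^ 2 ≤ 2 * (‖w1‖ ^ 2 + ‖w2‖ ^ 2) := by
    have h8 : ‖w1 - w2‖ ≤ ‖w1‖ + ‖w2‖ := norm_sub_le _ _
    have h9 : ‖w1 - w2‖ ^ 2 ≤ (‖w1‖ + ‖w2‖) ^ 2 := pow_le_pow_left₀ (norm_nonneg _) h8 2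
    nlinarith [sq_nonneg (‖w1‖ - ‖w2‖)]
  have hrpos : 0 < ‖r‖ ^ 2 := by
    have := Rv_ne_zero (M.sa ω) hz.ne' (M.ortho.ne_zero y)
    have := norm_pos_iff.mpr this
    positivity
  set D := ‖r‖ ^ 2 * ‖q‖ ^ 2 - ‖⟪r, q⟫_ℂ‖ ^ 2 with hD
  have h8 : ‖((starRingEnd ℂ) a)⁻¹ - a⁻¹‖ ^ 2 * D ≤ ‖r‖ ^ 2 * (2 * (‖w1‖ ^ 2 + ‖w2‖ ^ 2)) :=
    h6.trans (mul_le_mul_of_nonneg_left h7 hrpos.le)
  have h9 : 4 * s ^ 2 * F.im ^ 2 * D ≤ ‖a‖ ^ 4 * (‖r‖ ^ 2 * (2 * (‖w1‖ ^ 2 + ‖w2‖ ^ 2))) := by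
    rw [← h5]
    calc ‖((starRingEnd ℂ) a)⁻¹ - a⁻¹‖ ^ 2 * ‖a‖ ^ 4 * D
        = ‖a‖ ^ 4 * (‖((starRingEnd ℂ) a)⁻¹ - a⁻¹‖ ^ 2 * D) := by ring
      _ ≤ _ := mul_le_mul_of_nonneg_left h8 (by positivity)
  rw [hFim] at h9
  have h10 : 4 * s ^ 2 * (z.im ^ 2 * ‖r‖ ^ 2) * D ≤ ‖a‖ ^ 4 * (2 * (‖w1‖ ^ 2 + ‖w2‖ ^ 2)) := by
    have e1 : 4 * s ^ 2 * (z.im * ‖r‖ ^ 2) ^ 2 * D
        = ‖r‖ ^ 2 * (4 * s ^ 2 * (z.im ^ 2 * ‖r‖ ^ 2) * D) := by ring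
    have e2 : ‖a‖ ^ 4 * (‖r‖ ^ 2 * (2 * (‖w1‖ ^ 2 + ‖w2‖ ^ 2)))
        = ‖r‖ ^ 2 * (‖a‖ ^ 4 * (2 * (‖w1‖ ^ 2 + ‖w2‖ ^ 2))) := by ring
    rw [e1, e2] at h9
    exact le_of_mul_le_mul_left h9 hrpos
  have e3 : ‖(z.im : ℂ) * ⟪r, q⟫_ℂ‖ ^ 2 = z.im ^ 2 * ‖⟪r, q⟫_ℂ‖ ^ 2 := by
    rw [norm_mul, mul_pow, Complex.norm_real, Real.norm_eq_abs, sq_abs]
  rw [e3]
  calc 4 * s ^ 2 * (z.im * ‖r‖ ^ 2 * (z.im * ‖r‖ ^ 2 * (z.im * ‖q‖ ^ 2)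
        - z.im ^ 2 * ‖⟪r, q⟫_ℂ‖ ^ 2))
      = z.im * (4 * s ^ 2 * (z.im ^ 2 * ‖r‖ ^ 2) * D) := by rw [hD]; ring
    _ ≤ z.im * (‖a‖ ^ 4 * (2 * (‖w1‖ ^ 2 + ‖w2‖ ^ 2))) := mul_le_mul_of_nonneg_left h10 hz.le
    _ = _ := by ring

/-- the right hand side of the inequality -/
noncomputable def XXs (e : Λ → E) (H B : (Λ → ℝ) → (E →L[ℂ] E)) (k : ℕ)
    (q : ((Λ → ℝ) × ℝ) × ℝ) : ℝ≥0∞ :=
  ENNReal.ofReal (Zt (tk k) q.2).im
      * ‖(B (up q) - B q.1.1) (Rv (H (up q)) (Zt (tk k) q.2) (e 0))‖ₑ ^ 2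
    + ENNReal.ofReal (Zt (tk k) q.2).im
      * ‖(B (up q) - B q.1.1) (Rv (H (up q)) ((starRingEnd ℂ) (Zt (tk k) q.2)) (e 0))‖ₑ ^ 2

theorem Model.claim_le (M : Model c e H) (k : ℕ)
    {q : ((Λ → ℝ) × ℝ) × ℝ} (hs : 0 < s0sq c q) (h1 : Commute (B q.1.1) (H q.1.1))
    (h2 : Commute (B (up q)) (H (up q))) :
    ENNReal.ofReal (n11 e H k 0 (q.1.1, q.2) * (n11 e H k 0 (q.1.1, q.2)
        * n22 e H B k 0 (q.1.1, q.2) - ‖n12 e H B k 0 (q.1.1, q.2)‖ ^ 2))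
      ≤ XXs e H B k q * TF c 1 e H k q := by
  set z := Zt (tk k) q.2 with hzdef
  have hz : 0 < z.im := Zt_im_pos (tk_pos k) q.2
  have h := M.claim_ineq q.1.1 hz 0 q.1.2 (B := B q.1.1) (B' := B (up q)) h1 h2
  rw [show Function.update q.1.1 0 q.1.2 = up q from rfl] at h
  rw [show (⟪e 0, Rv (H q.1.1) z (e 0)⟫_ℂ) = Gr e H q.1.1 z 0 0 from rfl] at h
  have e2 : ∀ u : E, ENNReal.ofReal z.im * ‖u‖ₑ ^ 2 = ENNReal.ofReal (z.im * ‖u‖ ^ 2) := by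
    intro u
    rw [ENNReal.ofReal_mul hz.le, ENNReal.ofReal_pow (norm_nonneg _), ofReal_norm]
  have e3 : TF c 1 e H k q = ENNReal.ofReal (1 ^ 4 / 2 * (s0sq c q)⁻¹
      * ‖1 + ((clp c q.1.2 - clp c (q.1.1 0) : ℝ) : ℂ) * Gr e H q.1.1 z 0 0‖ ^ 4) := by
    unfold TF
    rw [ENNReal.ofReal_mul (by positivity), ENNReal.ofReal_mul (by positivity),
      ENNReal.ofReal_pow (norm_nonneg _), ofReal_norm, ENNReal.ofReal_inv_of_pos hs]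
  unfold XXs
  rw [← hzdef, e2, e2, e3, ← ENNReal.ofReal_add (by positivity)
    (by positivity), ← ENNReal.ofReal_mul (by positivity)]
  refine ENNReal.ofReal_le_ofReal ?_
  change 4 * s0sq c q * _ ≤ _ at h
  rw [← mul_le_mul_iff_right₀ (show 0 < 4 * s0sq c q by positivity)]
  refine le_trans (le_of_eq ?_) (h.trans (le_of_eq ?_))
  · rfl
  · field_simp
    ring

theorem Model.measurable_XXs (M : Model c e H)
    (hBm : ∀ x y, Measurable fun ω => ⟪e x, B ω (e y)⟫_ℂ) {B' : (Λ → ℝ) → (E →L[ℂ] E)}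
    (hB' : ∀ ω x y, ⟪e x, B' ω (e y)⟫_ℂ = (starRingEnd ℂ) ⟪e x, B ω (e y)⟫_ℂ)
    (k : ℕ) : Measurable fun q : ((Λ → ℝ) × ℝ) × ℝ => ENNReal.ofReal (Zt (tk k) q.2).im
        * ‖(B' (up q) - B' q.1.1) (Rv (H (up q)) (Zt (tk k) q.2) (e 0))‖ₑ ^ 2 := by
  have hBm' : ∀ x y, Measurable fun ω => ⟪e x, B' ω (e y)⟫_ℂ := by
    intro x y
    simp_rw [hB']
    exact Complex.continuous_conj.measurable.comp (hBm x y)
  refine (measurable_Zt_im measurable_snd).mul ?_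
  simp_rw [M.parseval_enorm]
  refine Measurable.tsum fun x => (Measurable.enorm ?_).pow_const 2
  simp_rw [sub_apply, inner_sub_right]
  exact (M.measurable_BR (B := B') hBm' measurable_up measurable_up
    (tk_pos k) measurable_snd x 0).sub
    (M.measurable_BR (B := B') hBm' (measurable_fst.comp measurable_fst) measurable_up
    (tk_pos k) measurable_snd x 0)

theorem qmp_up (hc : 0 < c) :
    Measure.QuasiMeasurePreserving (up : ((Λ → ℝ) × ℝ) × ℝ → Λ → ℝ) (M3 Λ c) (PP Λ c) := by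
  have := M3_prob Λ hc
  have := PP_prob Λ hc
  have h1 := (mp_new (Λ := Λ) hc).quasiMeasurePreserving
  have h2 := (measurePreserving_fst (μ := PP Λ c) (ν := kap)).quasiMeasurePreserving
  exact h2.comp h1

theorem qmp_old (hc : 0 < c) :
    Measure.QuasiMeasurePreserving (fun q : ((Λ → ℝ) × ℝ) × ℝ => q.1.1) (M3 Λ c) (PP Λ c) := by
  have := PP_prob Λ hc
  have := unif_prob hc
  have h1 := (measurePreserving_fst (μ := (PP Λ c).prod (unif c))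
    (ν := kap)).quasiMeasurePreserving
  have h2 := (measurePreserving_fst (μ := PP Λ c) (ν := unif c)).quasiMeasurePreserving
  exact h2.comp h1

/-- **`e_0` becomes an eigenvector of `B` in the limit.** -/
theorem Model.null_claim (M : Model c e H) {K : ℝ} (hC : CovComm c e H B K)
    {B' : (Λ → ℝ) → (E →L[ℂ] E)}
    (hB' : ∀ ω x y, ⟪e x, B' ω (e y)⟫_ℂ = (starRingEnd ℂ) ⟪e x, B ω (e y)⟫_ℂ)
    (hBB' : ∀ ω ω' x (z : ℂ), 0 < z.im → ‖(B' ω' - B' ω) (Rv (H ω') z (e x))‖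
        = ‖(B ω' - B ω) (Rv (H ω') ((starRingEnd ℂ) z) (e x))‖)
    (hX : Null (M3 Λ c) (fun k q => ENNReal.ofReal (Zt (tk k) q.2).im
        * ‖(B (up q) - B q.1.1) (Rv (H (up q)) (Zt (tk k) q.2) (e 0))‖ₑ ^ 2))
    (hY : Null (M3 Λ c) (fun k q => ENNReal.ofReal (Zt (tk k) q.2).im
        * ‖(B' (up q) - B' q.1.1) (Rv (H (up q)) (Zt (tk k) q.2) (e 0))‖ₑ ^ 2)) :
    Null (M3 Λ c) (fun k q => ENNReal.ofReal (n11 e H k 0 (q.1.1, q.2)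
      * (n11 e H k 0 (q.1.1, q.2) * n22 e H B k 0 (q.1.1, q.2)
        - ‖n12 e H B k 0 (q.1.1, q.2)‖ ^ 2))) := by
  have := M3_prob Λ M.hc
  have := PP_prob Λ M.hc
  have := unif_prob M.hc
  have hYm := M.measurable_XXs hC.meas hB'
  have hsum := (hX.add hY hYm).mul_tght (M.tght_TF 1) (M.measurable_TF 1)
  refine hsum.mono fun k => ?_
  filter_upwards [ae_s0sq (Λ := Λ) M.hc, (qmp_up M.hc).ae hC.comm, (qmp_old M.hc).ae hC.comm]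
    with q h1 h2 h3
  refine (M.claim_le k h1 h3 h2).trans (le_of_eq ?_)
  congr 1
  unfold XXs
  congr 3
  have h4 := hBB' q.1.1 (up q) 0 (Zt (tk k) q.2) (Zt_im_pos (tk_pos k) q.2)
  rw [← ofReal_norm, ← ofReal_norm, h4]

end Pool.Agent.Lib.MP_562b47_mp
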