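import Mathlib
import Pool.Agent.Lib.MP_562b47_mp.Cc.Claim

/-!
The limit eigenvalue does not change when the potential is changed at one site.
(Anderson model, MP_562b47_mp.)
-/

open MeasureTheory Set Filter Topology Complex
open scoped Real ENNReal NNReal InnerProductSpace

set_option linter.unusedSectionVars false

namespace Pool.Agent.Lib.MP_562b47_mp

section abstract

variable {F : Type*} [NormedAddCommGroup F] [InnerProductSpace ℂ F]

theorem bdd_smul_tendsto {l : Filter ℕ} {τ : ℕ → ℂ} {u : ℕ → F} {C : ℝ}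
    (hτ : ∀ᶠ k in l, ‖τ k‖ ≤ C) (hu : Tendsto u l (𝓝 0)) :
    Tendsto (fun k => τ k • u k) l (𝓝 0) := by
  rw [tendsto_zero_iff_norm_tendsto_zero] at hu ⊢
  have h1 : Tendsto (fun k => C * ‖u k‖) l (𝓝 0) := by simpa using hu.const_mul C
  refine tendsto_of_tendsto_of_tendsto_of_le_of_le' tendsto_const_nhds h1
    (Eventually.of_forall fun k => norm_nonneg _) ?_
  filter_upwards [hτ] with k hk
  rw [norm_smul]
  exact mul_le_mul_of_nonneg_right hk (norm_nonneg _)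

theorem coef_eq_zero {l : Filter ℕ} [l.NeBot] {x : ℕ → F} {a : ℂ} {n : ℝ} (hn : 0 < n)
    (hx : Tendsto (fun k => ‖x k‖) l (𝓝 n)) (h : Tendsto (fun k => a • x k) l (𝓝 0)) : a = 0 := by
  rw [tendsto_zero_iff_norm_tendsto_zero] at h
  simp_rw [norm_smul] at h
  have h1 := hx.const_mul ‖a‖
  have h2 := tendsto_nhds_unique h1 h
  rcases mul_eq_zero.mp h2 with h3 | h3
  · exact norm_eq_zero.mp h3
  · exact absurd h3 hn.ne'

/-- equality of the limit eigenvalues -/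
theorem eig_eq {l : Filter ℕ} [l.NeBot] {T : F →L[ℂ] F} {x y : ℕ → F} {τ : ℕ → ℂ}
    {β β0 β' : ℂ} {n n' C : ℝ} (hτ : ∀ᶠ k in l, ‖τ k‖ ≤ C)
    (hx : Tendsto (fun k => T (x k) - β • x k) l (𝓝 0))
    (hy : Tendsto (fun k => T (y k) - β0 • y k) l (𝓝 0))
    (hxy : Tendsto (fun k => T (x k - τ k • y k) - β' • (x k - τ k • y k)) l (𝓝 0))
    (hn : 0 < n) (hxn : Tendsto (fun k => ‖x k‖) l (𝓝 n))
    (hn' : 0 < n') (hxn' : Tendsto (fun k => ‖x k - τ k • y k‖) l (𝓝 n')) : β' = β := by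
  have hτy := bdd_smul_tendsto hτ hy
  have h1 : Tendsto (fun k => (β' - β) • x k + (β0 - β') • (τ k • y k)) l (𝓝 0) := by
    have h := (hx.sub hτy).sub hxy
    simp only [sub_zero] at h
    refine h.congr fun k => ?_
    simp only [map_sub, map_smul]
    module
  have h2 : Tendsto (fun k => (β' - β) • T (x k) + (β0 - β') • (τ k • T (y k))) l (𝓝 0) := by
    have h := (T.continuous.tendsto 0).comp h1
    rw [map_zero] at h
    refine h.congr fun k => ?_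
    simp only [Function.comp, map_add, map_smul]
  have h3 : Tendsto (fun k => ((β' - β) * (β0 - β)) • x k) l (𝓝 0) := by
    have h4 := ((h1.const_smul β0).sub h2).add
      ((hx.const_smul (β' - β)).add (hτy.const_smul (β0 - β')))
    simp only [smul_zero, sub_zero, add_zero] at h4
    refine h4.congr fun k => ?_
    module
  have h5 := coef_eq_zero hn hxn h3
  rcases mul_eq_zero.mp h5 with h6 | h6
  · exact sub_eq_zero.mp h6
  · rw [sub_eq_zero] at h6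
    have h7 : Tendsto (fun k => (β' - β) • (x k - τ k • y k)) l (𝓝 0) := by
      refine h1.congr fun k => ?_
      rw [h6]
      module
    exact sub_eq_zero.mp (coef_eq_zero hn' hxn' h7)

/-- at most one value of the potential kills the density -/
theorem two_sigma {l : Filter ℕ} {x y : ℕ → F} {g0 g1 : ℕ → ℂ} {σ₁ σ₂ : ℂ} (hσ : σ₁ ≠ σ₂)
    (h1 : Tendsto (fun k => (1 + σ₁ * g0 k) • x k - (σ₁ * g1 k) • y k) l (𝓝 0))
    (h2 : Tendsto (fun k => (1 + σ₂ * g0 k) • x k - (σ₂ * g1 k) • y k) l (𝓝 0)) :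
    Tendsto x l (𝓝 0) := by
  have h3 := ((h1.const_smul σ₂).sub (h2.const_smul σ₁)).const_smul (σ₂ - σ₁)⁻¹
  simp only [smul_zero, sub_zero] at h3
  refine h3.congr fun k => ?_
  have hne : σ₂ - σ₁ ≠ 0 := sub_ne_zero.mpr (Ne.symm hσ)
  have e1 : σ₂ • ((1 + σ₁ * g0 k) • x k - (σ₁ * g1 k) • y k)
      - σ₁ • ((1 + σ₂ * g0 k) • x k - (σ₂ * g1 k) • y k) = (σ₂ - σ₁) • x k := by
    module
  rw [e1, smul_smul, inv_mul_cancel₀ hne, one_smul]

end abstract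

variable {Λ : Type*} [DecidableEq Λ] [AddCommGroup Λ] [Countable Λ] {E : Type*}
  [NormedAddCommGroup E] [InnerProductSpace ℂ E] [CompleteSpace E] {c : ℝ} {e : Λ → E}
  {H : (Λ → ℝ) → (E →L[ℂ] E)} {B : (Λ → ℝ) → (E →L[ℂ] E)}

/-- the rescaled resolvent vector -/
noncomputable def xs (H : E →L[ℂ] E) (φ : ℕ → ℕ) (s : ℝ) (u : E) (k : ℕ) : E :=
  ((√(Zt (tk (φ k)) s).im : ℝ) : ℂ) • Rv H (Zt (tk (φ k)) s) u

theorem norm_xs_sq (H : E →L[ℂ] E) (φ : ℕ → ℕ) (s : ℝ) (u : E) (k : ℕ) :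
    ‖xs H φ s u k‖ ^ 2 = (Zt (tk (φ k)) s).im * ‖Rv H (Zt (tk (φ k)) s) u‖ ^ 2 := by
  unfold xs
  rw [norm_smul, mul_pow, Complex.norm_real, Real.norm_eq_abs, sq_abs,
    Real.sq_sqrt (Zt_im_pos (tk_pos _) s).le]

theorem xs_sub (H : E →L[ℂ] E) (φ : ℕ → ℕ) (s : ℝ) (u w : E) (k : ℕ) :
    xs H φ s (u - w) k = xs H φ s u k - xs H φ s w k := by
  unfold xs; rw [map_sub, smul_sub]

theorem xs_smul (H : E →L[ℂ] E) (φ : ℕ → ℕ) (s : ℝ) (a : ℂ) (u : E) (k : ℕ) :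
    xs H φ s (a • u) k = a • xs H φ s u k := by
  unfold xs; rw [map_smul, smul_comm]

theorem xs_comm {H B : E →L[ℂ] E} (h : Commute B H) (φ : ℕ → ℕ) (s : ℝ) (u : E) (k : ℕ) :
    xs H φ s (B u) k = B (xs H φ s u k) := by
  unfold xs; rw [map_smul, commute_apply (commute_Rv h _)]

theorem xs_tendsto_zero_iff (H : E →L[ℂ] E) (φ : ℕ → ℕ) (s : ℝ) (u : E) (l : Filter ℕ) :
    Tendsto (xs H φ s u) l (𝓝 0) ↔
      Tendsto (fun k => (Zt (tk (φ k)) s).im * ‖Rv H (Zt (tk (φ k)) s) u‖ ^ 2) l (𝓝 0) := by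
  simp_rw [← norm_xs_sq]
  rw [tendsto_zero_iff_norm_tendsto_zero]
  constructor
  · intro h
    simpa using h.pow 2
  · intro h
    have h2 := h.sqrt
    simp only [Real.sqrt_zero, Real.sqrt_sq (norm_nonneg _)] at h2
    exact h2

/-- the eigenvector property in the limit -/
def EigAt (e : Λ → E) (H B : (Λ → ℝ) → (E →L[ℂ] E)) (φ : ℕ → ℕ) (ω : Λ → ℝ) (s : ℝ) (x : Λ)
    (β : ℂ) : Prop :=
  Tendsto (fun k => (Zt (tk (φ k)) s).im
    * ‖Rv (H ω) (Zt (tk (φ k)) s) (B ω (e x) - β • e x)‖ ^ 2) atTop (𝓝 0)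

theorem eigAt_iff {ω : Λ → ℝ} (h : Commute (B ω) (H ω)) (φ : ℕ → ℕ) (s : ℝ) (x : Λ) (β : ℂ) :
    EigAt e H B φ ω s x β ↔
      Tendsto (fun k => B ω (xs (H ω) φ s (e x) k) - β • xs (H ω) φ s (e x) k) atTop (𝓝 0) := by
  unfold EigAt
  rw [← xs_tendsto_zero_iff]
  refine tendsto_congr fun k => ?_
  rw [xs_sub, xs_comm h, xs_smul]

theorem n11_eq (e : Λ → E) (H : (Λ → ℝ) → (E →L[ℂ] E)) (φ : ℕ → ℕ) (k : ℕ) (x : Λ) (ω : Λ → ℝ)
    (s : ℝ) : n11 e H (φ k) x (ω, s) = ‖xs (H ω) φ s (e x) k‖ ^ 2 := by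
  rw [norm_xs_sq]; rfl

theorem eigAt_of_zero {ω : Λ → ℝ} (h : Commute (B ω) (H ω)) {φ : ℕ → ℕ} {s : ℝ} {x : Λ}
    (h0 : Tendsto (fun k => n11 e H (φ k) x (ω, s)) atTop (𝓝 0)) (β : ℂ) :
    EigAt e H B φ ω s x β := by
  have h1 : Tendsto (xs (H ω) φ s (e x)) atTop (𝓝 0) := by
    rw [xs_tendsto_zero_iff]; exact h0
  rw [eigAt_iff h]
  have h2 := ((B ω).continuous.tendsto 0).comp h1
  rw [map_zero] at h2
  have h3 := h2.sub (h1.const_smul β)
  simpa using h3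

/-- the eigenvalue does not change under the change of the potential at one site -/
theorem Model.eig_upd (M : Model c e H) {ω : Λ → ℝ} {v s : ℝ} {φ : ℕ → ℕ}
    (h1 : Commute (B ω) (H ω)) (h2 : Commute (B (Function.update ω 0 v)) (H (Function.update ω 0 v)))
    {x : Λ} {β β0 β' : ℂ} {n n' C : ℝ}
    (hb : ∃ᶠ k in atTop, ‖Gr e H (Function.update ω 0 v) (Zt (tk (φ k)) s) 0 x‖ ≤ C)
    (hE : EigAt e H B φ ω s x β) (hE0 : EigAt e H B φ ω s 0 β0)
    (hE' : EigAt e H B φ (Function.update ω 0 v) s x β')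
    (hX : Tendsto (fun k => (Zt (tk (φ k)) s).im
      * ‖(B (Function.update ω 0 v) - B ω)
          (Rv (H (Function.update ω 0 v)) (Zt (tk (φ k)) s) (e x))‖ ^ 2) atTop (𝓝 0))
    (hn : 0 < n) (hxn : Tendsto (fun k => n11 e H (φ k) x (ω, s)) atTop (𝓝 n))
    (hn' : 0 < n')
    (hxn' : Tendsto (fun k => n11 e H (φ k) x (Function.update ω 0 v, s)) atTop (𝓝 n')) :
    β' = β := by
  set ω' := Function.update ω 0 v with hω'
  set l := atTop ⊓ 𝓟 {k : ℕ | ‖Gr e H ω' (Zt (tk (φ k)) s) 0 x‖ ≤ C} with hl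
  have hne : l.NeBot := frequently_mem_iff_neBot.mp hb
  have hlt : l ≤ atTop := inf_le_left
  set σ : ℂ := ((clp c v - clp c (ω 0) : ℝ) : ℂ) with hσ
  set τ : ℕ → ℂ := fun k => σ * Gr e H ω' (Zt (tk (φ k)) s) 0 x with hτ
  have hτb : ∀ᶠ k in l, ‖τ k‖ ≤ ‖σ‖ * C := by
    have h3 : ∀ᶠ k in l, ‖Gr e H ω' (Zt (tk (φ k)) s) 0 x‖ ≤ C := by
      rw [hl]; exact mem_inf_of_right (mem_principal_self _)
    filter_upwards [h3] with k hk
    rw [hτ, norm_mul]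
    exact mul_le_mul_of_nonneg_left hk (norm_nonneg _)
  have hrel : ∀ k, xs (H ω') φ s (e x) k = xs (H ω) φ s (e x) k - τ k • xs (H ω) φ s (e 0) k := by
    intro k
    have h := M.Rv_upd_gen ω (Zt_im_pos (tk_pos (φ k)) s).ne' 0 v (e x)
    rw [← hω', ← hσ] at h
    unfold xs
    rw [h, smul_sub, smul_smul, smul_smul]
    congr 2
    show _ = σ * Gr e H ω' (Zt (tk (φ k)) s) 0 x * _
    unfold Gr
    ring
  have hE1 := ((eigAt_iff h1 φ s x β).mp hE).mono_left hlt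
  have hE01 := ((eigAt_iff h1 φ s 0 β0).mp hE0).mono_left hlt
  have hE'1 := ((eigAt_iff h2 φ s x β').mp hE').mono_left hlt
  have hX1 : Tendsto (fun k => (B ω' - B ω) (xs (H ω') φ s (e x) k)) atTop (𝓝 0) := by
    rw [tendsto_zero_iff_norm_tendsto_zero]
    have h3 := hX.sqrt
    rw [Real.sqrt_zero] at h3
    refine h3.congr fun k => ?_
    have h4 : (Zt (tk (φ k)) s).im * ‖(B ω' - B ω) (Rv (H ω') (Zt (tk (φ k)) s) (e x))‖ ^ 2
        = ‖(B ω' - B ω) (xs (H ω') φ s (e x) k)‖ ^ 2 := by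
      unfold xs
      rw [map_smul, norm_smul, mul_pow, Complex.norm_real, Real.norm_eq_abs, sq_abs,
        Real.sq_sqrt (Zt_im_pos (tk_pos _) s).le]
    rw [h4, Real.sqrt_sq (norm_nonneg _)]
  have hxy : Tendsto (fun k => B ω (xs (H ω) φ s (e x) k - τ k • xs (H ω) φ s (e 0) k)
      - β' • (xs (H ω) φ s (e x) k - τ k • xs (H ω) φ s (e 0) k)) l (𝓝 0) := by
    have h3 := hE'1.sub (hX1.mono_left hlt)
    rw [sub_zero] at h3
    refine h3.congr fun k => ?_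
    rw [← hrel k]
    show _ - _ - (B ω' _ - B ω _) = _
    abel
  have e1 : ∀ n : ℝ, 0 < n → ∀ ω, Tendsto (fun k => n11 e H (φ k) x (ω, s)) atTop (𝓝 n) →
      Tendsto (fun k => ‖xs (H ω) φ s (e x) k‖) l (𝓝 (√n)) := by
    intro n _ ω h
    have h3 := (h.mono_left hlt).sqrt
    refine h3.congr fun k => ?_
    rw [n11_eq, Real.sqrt_sq (norm_nonneg _)]
  refine eig_eq (T := B ω) (l := l) (x := xs (H ω) φ s (e x)) (y := xs (H ω) φ s (e 0)) (τ := τ)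
    hτb hE1 hE01 hxy (Real.sqrt_pos.mpr hn) (e1 n hn ω hxn) (Real.sqrt_pos.mpr hn') ?_
  refine (e1 n' hn' ω' hxn').congr fun k => ?_
  rw [hrel k]

/-- positivity of the density survives the change, but for one value -/
theorem Model.pos_upd (M : Model c e H) {ω : Λ → ℝ} {v₁ v₂ s : ℝ} {φ : ℕ → ℕ} {x : Λ}
    {n C : ℝ}
    (hb : ∃ᶠ k in atTop, ‖Gr e H ω (Zt (tk (φ k)) s) 0 0‖ ≤ C)
    (hv : clp c v₁ ≠ clp c v₂)
    (hn : 0 < n) (hxn : Tendsto (fun k => n11 e H (φ k) x (ω, s)) atTop (𝓝 n))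
    (h1 : Tendsto (fun k => n11 e H (φ k) x (Function.update ω 0 v₁, s)) atTop (𝓝 0))
    (h2 : Tendsto (fun k => n11 e H (φ k) x (Function.update ω 0 v₂, s)) atTop (𝓝 0)) :
    False := by
  set l := atTop ⊓ 𝓟 {k : ℕ | ‖Gr e H ω (Zt (tk (φ k)) s) 0 0‖ ≤ C} with hl
  have hne : l.NeBot := frequently_mem_iff_neBot.mp hb
  have hlt : l ≤ atTop := inf_le_left
  have hbd : ∀ᶠ k in l, ‖Gr e H ω (Zt (tk (φ k)) s) 0 0‖ ≤ C := by
    rw [hl]; exact mem_inf_of_right (mem_principal_self _)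
  have key : ∀ v, Tendsto (fun k => n11 e H (φ k) x (Function.update ω 0 v, s)) atTop (𝓝 0) →
      Tendsto (fun k => (1 + ((clp c v - clp c (ω 0) : ℝ) : ℂ)
        * Gr e H ω (Zt (tk (φ k)) s) 0 0) • xs (H ω) φ s (e x) k
        - (((clp c v - clp c (ω 0) : ℝ) : ℂ) * Gr e H ω (Zt (tk (φ k)) s) 0 x)
          • xs (H ω) φ s (e 0) k) l (𝓝 0) := by
    intro v hv0
    set ω' := Function.update ω 0 v with hω'
    set σ : ℂ := ((clp c v - clp c (ω 0) : ℝ) : ℂ) with hσ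
    have h3 : Tendsto (xs (H ω') φ s (e x)) l (𝓝 0) := by
      have h4 : Tendsto (xs (H ω') φ s (e x)) atTop (𝓝 0) := by
        rw [xs_tendsto_zero_iff]; exact hv0
      exact h4.mono_left hlt
    have h4 : ∀ᶠ k in l, ‖1 + σ * Gr e H ω (Zt (tk (φ k)) s) 0 0‖ ≤ 1 + ‖σ‖ * C := by
      filter_upwards [hbd] with k hk
      calc ‖1 + σ * Gr e H ω (Zt (tk (φ k)) s) 0 0‖
          ≤ ‖(1:ℂ)‖ + ‖σ * Gr e H ω (Zt (tk (φ k)) s) 0 0‖ := norm_add_le _ _
        _ ≤ 1 + ‖σ‖ * C := by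
            rw [norm_one, norm_mul]
            gcongr
    refine (bdd_smul_tendsto h4 h3).congr fun k => ?_
    have hz := Zt_im_pos (tk_pos (φ k)) s
    have h5 := M.Rv_upd_gen ω hz.ne' 0 v (e x)
    have h6 := M.Gr_upd_mul ω hz 0 v x
    rw [← hω', ← hσ] at h5 h6
    have h7 : Gr e H ω' (Zt (tk (φ k)) s) 0 x * (1 + σ * Gr e H ω (Zt (tk (φ k)) s) 0 0)
        = Gr e H ω (Zt (tk (φ k)) s) 0 x := by
      rw [M.Gr_symm ω' hz 0 x, M.Gr_symm ω hz 0 x]; exact h6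
    unfold xs
    rw [h5]
    have h8 : ⟪e 0, Rv (H ω') (Zt (tk (φ k)) s) (e x)⟫_ℂ
        = Gr e H ω' (Zt (tk (φ k)) s) 0 x := rfl
    rw [h8, smul_sub, smul_sub]
    congr 1
    rw [smul_smul, smul_smul, smul_smul, ← h7]
    congr 1
    ring
  have h3 := two_sigma (σ₁ := ((clp c v₁ - clp c (ω 0) : ℝ) : ℂ))
    (σ₂ := ((clp c v₂ - clp c (ω 0) : ℝ) : ℂ)) (by
      intro h
      apply hv
      have := Complex.ofReal_injective h
      linarith) (key v₁ h1) (key v₂ h2)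
  have h4 : Tendsto (fun k => n11 e H (φ k) x (ω, s)) l (𝓝 0) := by
    have h5 := h3.norm.pow 2
    simp only [norm_zero, ne_eq, OfNat.ofNat_ne_zero, not_false_eq_true, zero_pow] at h5
    exact h5.congr fun k => (n11_eq e H φ k x ω s).symm
  exact hn.ne' (tendsto_nhds_unique (hxn.mono_left hlt) h4)

end Pool.Agent.Lib.MP_562b47_mp
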