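import Mathlib
import Pool.Agent.Lib.MP_562b47_mp.Cc.Defs

/-!
Approximation in mean square of bounded functions on a product space by functions of finitely many
coordinates.  (Anderson model, MP_562b47_mp.)
-/

open MeasureTheory Set Filter Topology Complex
open scoped Real ENNReal NNReal InnerProductSpace symmDiff

namespace Pool.Agent.Lib.MP_562b47_mp

/-- approximation by functions of finitely many coordinates -/
theorem cc_approx {Λ : Type*} (μ : Measure (Λ → ℝ)) [IsProbabilityMeasure μ]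
    {f : (Λ → ℝ) → ℂ} (hf : Measurable f) {C : ℝ} (hC : ∀ ω, ‖f ω‖ ≤ C) {ε : ℝ≥0∞}
    (hε : ε ≠ 0) :
    ∃ g : (Λ → ℝ) → ℂ, Measurable g ∧ (∃ K, ∀ ω, ‖g ω‖ ≤ K) ∧
      (∃ J : Finset Λ, ∀ ω ω', (∀ j ∈ J, ω j = ω' j) → g ω = g ω') ∧
      ∫⁻ ω, ‖f ω - g ω‖ₑ ^ 2 ∂μ ≤ ε := by
  classical
  have hfm : MemLp f 2 μ := MemLp.of_bound hf.aestronglyMeasurable C (ae_of_all _ hC)
  have hε' : ε ^ (1 / 2 : ℝ) ≠ 0 := by
    intro h
    rw [ENNReal.rpow_eq_zero_iff] at h
    rcases h with h | h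
    · exact hε h.1
    · norm_num at h
  have key : ∃ g : (Λ → ℝ) → ℂ, eLpNorm (f - g) 2 μ ≤ ε ^ (1 / 2 : ℝ) ∧
      (Measurable g ∧ (∃ K, ∀ ω, ‖g ω‖ ≤ K) ∧
      (∃ J : Finset Λ, ∀ ω ω', (∀ j ∈ J, ω j = ω' j) → g ω = g ω')) := by
    refine hfm.induction_dense (by simp)
      (fun g : (Λ → ℝ) → ℂ => Measurable g ∧ (∃ K, ∀ ω, ‖g ω‖ ≤ K) ∧
      (∃ J : Finset Λ, ∀ ω ω', (∀ j ∈ J, ω j = ω' j) → g ω = g ω')) ?_ ?_ ?_ hε'
    · intro c s hs _ δ hδ
      obtain ⟨η, hη0, hη⟩ := exists_eLpNorm_indicator_le (μ := μ) (p := 2) (by simp) c hδ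
      obtain ⟨t, ht, hts⟩ := exists_measure_symmDiff_lt_of_generateFrom_isSetRing (μ := μ)
        (C := measurableCylinders fun _ : Λ => ℝ) isSetRing_measurableCylinders
        ⟨{univ}, countable_singleton _, by
          rw [singleton_subset_iff]; exact univ_mem_measurableCylinders _, by simp⟩
        generateFrom_measurableCylinders.symm hs (ε := (η : ℝ≥0∞)) (by exact_mod_cast hη0)
      refine ⟨t.indicator fun _ => c, ?_, ?_, ⟨‖c‖, ?_⟩, ?_⟩
      · have e1 : eLpNorm ((t.indicator fun _ => c) - s.indicator fun _ => c) 2 μ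
            = eLpNorm ((t ∆ s).indicator fun _ => c) 2 μ := by
          have := eLpNorm_indicator_sub_indicator (μ := μ) (p := 2) t s (fun _ => c)
          exact this
        rw [e1]
        exact hη _ hts.le
      · exact measurable_const.indicator (MeasurableSet.of_mem_measurableCylinders ht)
      · intro ω
        by_cases h : ω ∈ t
        · rw [indicator_of_mem h]
        · rw [indicator_of_notMem h, norm_zero]; exact norm_nonneg _
      · obtain ⟨J, S, hS, rfl⟩ := (mem_measurableCylinders t).1 ht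
        refine ⟨J, fun ω ω' h => ?_⟩
        have h1 : ω ∈ cylinder J S ↔ ω' ∈ cylinder J S := by
          rw [mem_cylinder, mem_cylinder]
          have : J.restrict ω = J.restrict ω' := by
            ext j
            exact h j.1 j.2
          rw [this]
        by_cases h2 : ω ∈ cylinder J S
        · rw [indicator_of_mem h2, indicator_of_mem (h1.1 h2)]
        · rw [indicator_of_notMem h2, indicator_of_notMem (fun h3 => h2 (h1.2 h3))]
    · rintro f g ⟨hf1, ⟨K1, hf2⟩, ⟨J1, hf3⟩⟩ ⟨hg1, ⟨K2, hg2⟩, ⟨J2, hg3⟩⟩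
      refine ⟨hf1.add hg1, ⟨K1 + K2, fun ω => (norm_add_le _ _).trans (add_le_add (hf2 ω) (hg2 ω))⟩,
        ⟨J1 ∪ J2, fun ω ω' h => ?_⟩⟩
      simp only [Pi.add_apply]
      rw [hf3 ω ω' fun j hj => h j (Finset.mem_union_left _ hj),
        hg3 ω ω' fun j hj => h j (Finset.mem_union_right _ hj)]
    · rintro f ⟨hf1, _⟩
      exact hf1.aestronglyMeasurable
  obtain ⟨g, hg1, hg2, hg3, hg4⟩ := key
  refine ⟨g, hg2, hg3, hg4, ?_⟩
  rw [eLpNorm_eq_lintegral_rpow_enorm_toReal (by simp) (by simp)] at hg1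
  have h2 := ENNReal.rpow_le_rpow hg1 (show (0:ℝ) ≤ 2 by norm_num)
  rw [← ENNReal.rpow_mul, ← ENNReal.rpow_mul] at h2
  simpa using h2

/-- Cauchy-Schwarz for a probability measure -/
theorem cc_enorm_integral_sq_le {α : Type*} [MeasurableSpace α] (μ : Measure α)
    [IsProbabilityMeasure μ] {h : α → ℂ} (hh : AEStronglyMeasurable h μ) :
    ‖∫ a, h a ∂μ‖ₑ ^ 2 ≤ ∫⁻ a, ‖h a‖ₑ ^ 2 ∂μ := by
  have h1 : ‖∫ a, h a ∂μ‖ₑ ≤ ∫⁻ a, ‖h a‖ₑ ∂μ := enorm_integral_le_lintegral_enorm _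
  have h2 : eLpNorm h 1 μ ≤ eLpNorm h 2 μ :=
    eLpNorm_le_eLpNorm_of_exponent_le (by norm_num) hh
  rw [eLpNorm_one_eq_lintegral_enorm] at h2
  rw [eLpNorm_eq_lintegral_rpow_enorm_toReal (by simp) (by simp)] at h2
  have h3 := ENNReal.rpow_le_rpow (h1.trans h2) (show (0:ℝ) ≤ 2 by norm_num)
  rw [← ENNReal.rpow_mul] at h3
  simpa using h3

end Pool.Agent.Lib.MP_562b47_mp
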