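import Mathlib
import Pool.Agent.Lib.MP_562b47_mp.Cc.Approx

/-!
Bounded measurable families of operators are locally approximable.
(Anderson model, MP_562b47_mp.)
-/

open MeasureTheory Set Filter Topology Complex
open scoped Real ENNReal NNReal InnerProductSpace

set_option linter.unusedSectionVars false

namespace Pool.Agent.Lib.MP_562b47_mp

variable {Λ : Type*} [DecidableEq Λ] [AddCommGroup Λ] [Countable Λ] {E : Type*}
  [NormedAddCommGroup E] [InnerProductSpace ℂ E] [CompleteSpace E] {c : ℝ} {e : Λ → E}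
  {H : (Λ → ℝ) → (E →L[ℂ] E)} {B : (Λ → ℝ) → (E →L[ℂ] E)}

/-- a convergent sum has small tails -/
theorem cc_loc_tail {ι : Type*} {f : ι → ℝ≥0∞} (hf : ∑' k, f k ≠ ∞) {ε : ℝ≥0∞} (hε : ε ≠ 0) :
    ∃ F : Finset ι, ∑' k : {k // k ∉ F}, f k ≤ ε := by
  have h1 := ENNReal.tendsto_tsum_compl_atTop_zero hf
  have h2 := h1.eventually (ge_mem_nhds (pos_iff_ne_zero.2 hε))
  obtain ⟨F, hF⟩ := h2.exists
  exact ⟨F, hF⟩

/-- splitting a sum -/
theorem cc_loc_split {ι : Type*} (f : ι → ℝ≥0∞) (F : Finset ι) :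
    ∑' k, f k = ∑ k ∈ F, f k + ∑' k : {k // k ∉ F}, f k := by
  classical
  have h1 : ∀ k, f k = (if k ∈ F then f k else 0) + (if k ∈ F then 0 else f k) := by
    intro k
    by_cases hk : k ∈ F <;> simp [hk]
  have h2 : ∑' k, f k = ∑' k, (if k ∈ F then f k else 0) + ∑' k, (if k ∈ F then 0 else f k) := by
    rw [← ENNReal.tsum_add]
    exact tsum_congr h1
  have h3 : ∑' k, (if k ∈ F then f k else 0) = ∑ k ∈ F, f k := by
    rw [tsum_eq_sum (s := F) (fun k hk => by simp [hk])]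
    exact Finset.sum_congr rfl fun k hk => by simp [hk]
  have h4 : ∑' k, (if k ∈ F then 0 else f k) = ∑' k : {k // k ∉ F}, f k := by
    have h5 := tsum_subtype {k | k ∉ F} f
    have h6 : ({k | k ∉ F} : Set ι).indicator f = fun k => if k ∈ F then 0 else f k := by
      funext k
      by_cases hk : k ∈ F <;> simp [Set.indicator, hk]
    rw [h6] at h5
    exact h5.symm
  rw [h2, h3, h4]

/-- bounded measurable families are locally approximable -/
theorem Model.locApprox_of_bdd (M : Model c e H) {K : ℝ} (hK : ∀ ω, ‖B ω‖ ≤ K)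
    (hBm : ∀ x y, Measurable fun ω => ⟪e x, B ω (e y)⟫_ℂ) : LocApprox c e B := by
  have hU := unif_prob M.hc
  have hP : IsProbabilityMeasure (PP Λ c) := by unfold PP; infer_instance
  intro ε hε
  set a : Λ → (Λ → ℝ) → ℂ := fun k ω => ⟪e k, B ω (e 0)⟫_ℂ with ha
  have ham : ∀ k, Measurable (a k) := fun k => hBm k 0
  have haB : ∀ k ω, ‖a k ω‖ ≤ K := by
    intro k ω
    calc ‖a k ω‖ ≤ ‖e k‖ * ‖B ω (e 0)‖ := norm_inner_le_norm _ _
      _ ≤ ‖e k‖ * (‖B ω‖ * ‖e 0‖) := by gcongr; exact (B ω).le_opNorm _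
      _ = ‖B ω‖ := by rw [M.ortho.1 k, M.ortho.1 0]; ring
      _ ≤ K := hK ω
  have haK : ∀ ω, ∑' k, ‖a k ω‖ₑ ^ 2 ≤ ENNReal.ofReal K ^ 2 := by
    intro ω
    rw [← M.parseval_enorm (B ω (e 0))]
    have h1 : ‖B ω (e 0)‖ ≤ K := by
      calc ‖B ω (e 0)‖ ≤ ‖B ω‖ * ‖e 0‖ := (B ω).le_opNorm _
        _ ≤ K := by rw [M.ortho.1 0, mul_one]; exact hK ω
    have h2 : ‖B ω (e 0)‖ₑ ≤ ENNReal.ofReal K := by
      rw [← ofReal_norm]
      exact ENNReal.ofReal_le_ofReal h1
    gcongr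
  have ham2 : ∀ k, Measurable fun ω => ‖a k ω‖ₑ ^ 2 := fun k => (ham k).enorm.pow_const 2
  have hsum : ∑' k, ∫⁻ ω, ‖a k ω‖ₑ ^ 2 ∂(PP Λ c) ≠ ∞ := by
    rw [← lintegral_tsum fun k => (ham2 k).aemeasurable]
    refine ne_top_of_le_ne_top ?_ (lintegral_mono haK)
    rw [lintegral_const, measure_univ, mul_one]
    exact ENNReal.pow_ne_top ENNReal.ofReal_ne_top
  have hε2 : ENNReal.ofReal (ε / 2) ≠ 0 := by simpa using hε
  obtain ⟨F, hF⟩ := cc_loc_tail hsum hε2
  have hδ : ENNReal.ofReal (ε / 2) / (F.card + 1 : ℕ) ≠ 0 := by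
    rw [Ne, ENNReal.div_eq_zero_iff]
    rintro (h | h)
    · exact hε2 h
    · exact ENNReal.natCast_ne_top _ h
  choose g hg1 hg2 hg3 hg4 using fun k => cc_approx (PP Λ c) (ham k) (haB k) hδ
  choose Kg hKg using hg2
  choose J hJ using hg3
  have hKg0 : ∀ k, 0 ≤ Kg k := fun k => (norm_nonneg _).trans (hKg k 0)
  refine ⟨F, F.biUnion J, fun k ω => if k ∈ F then g k ω else 0, ∑ k ∈ F, Kg k, ?_, ?_, ?_, ?_, ?_⟩
  · intro k
    by_cases hk : k ∈ F
    · simpa [hk] using hg1 k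
    · simp [hk]
  · intro k ω
    by_cases hk : k ∈ F
    · simp only [hk, if_true]
      exact (hKg k ω).trans (Finset.single_le_sum (fun i _ => hKg0 i) hk)
    · simp only [hk, if_false, norm_zero]
      exact Finset.sum_nonneg fun i _ => hKg0 i
  · intro k hk ω
    simp [hk]
  · intro k ω ω' h
    by_cases hk : k ∈ F
    · simp only [hk, if_true]
      exact hJ k ω ω' fun j hj => h j (Finset.mem_biUnion.2 ⟨k, hk, hj⟩)
    · simp [hk]
  · have hmk : ∀ k, Measurable fun ω => ‖a k ω - (if k ∈ F then g k ω else 0)‖ₑ ^ 2 := by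
      intro k
      by_cases hk : k ∈ F
      · simp only [hk, if_true]
        exact ((ham k).sub (hg1 k)).enorm.pow_const 2
      · simp only [hk, if_false, sub_zero]
        exact ham2 k
    change ∫⁻ ω, ∑' k, ‖a k ω - (if k ∈ F then g k ω else 0)‖ₑ ^ 2 ∂(PP Λ c) ≤ _
    rw [lintegral_tsum fun k => (hmk k).aemeasurable, cc_loc_split _ F]
    have h1 : ∑ k ∈ F, ∫⁻ ω, ‖a k ω - (if k ∈ F then g k ω else 0)‖ₑ ^ 2 ∂(PP Λ c)
        ≤ ENNReal.ofReal (ε / 2) := by
      calc ∑ k ∈ F, ∫⁻ ω, ‖a k ω - (if k ∈ F then g k ω else 0)‖ₑ ^ 2 ∂(PP Λ c)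
          ≤ ∑ _k ∈ F, ENNReal.ofReal (ε / 2) / (F.card + 1 : ℕ) := by
            refine Finset.sum_le_sum fun k hk => ?_
            simp only [hk, if_true]
            exact hg4 k
        _ = F.card * (ENNReal.ofReal (ε / 2) / (F.card + 1 : ℕ)) := by
            rw [Finset.sum_const, nsmul_eq_mul]
        _ ≤ (F.card + 1 : ℕ) * (ENNReal.ofReal (ε / 2) / (F.card + 1 : ℕ)) := by
            gcongr
            exact Nat.le_succ _
        _ = ENNReal.ofReal (ε / 2) := by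
            rw [ENNReal.mul_div_cancel (by simp) (ENNReal.natCast_ne_top _)]
    have h2 : ∑' k : {k // k ∉ F},
        ∫⁻ ω, ‖a k ω - (if (k : Λ) ∈ F then g k ω else 0)‖ₑ ^ 2 ∂(PP Λ c)
        ≤ ENNReal.ofReal (ε / 2) := by
      refine le_trans (le_of_eq ?_) hF
      refine tsum_congr fun k => ?_
      have hk := k.2
      simp only [hk, if_false, sub_zero]
    calc _ ≤ ENNReal.ofReal (ε / 2) + ENNReal.ofReal (ε / 2) := add_le_add h1 h2
      _ = ENNReal.ofReal ε := by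
          rw [← ENNReal.ofReal_add (by linarith) (by linarith)]
          congr 1; ring

end Pool.Agent.Lib.MP_562b47_mp
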