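import Mathlib
import Pool.Agent.Lib.MP_562b47_mp.Cc.Defs

/-!
Almost sure subsequences, measurability and covariance.
(Anderson model, MP_562b47_mp.)
-/

open MeasureTheory Set Filter Topology Complex
open scoped Real ENNReal NNReal InnerProductSpace

set_option linter.unusedSectionVars false

namespace Pool.Agent.Lib.MP_562b47_mp

section meas

variable {α : Type*} [MeasurableSpace α] {μ : Measure α}

/-- a common almost surely convergent subsequence -/
theorem exists_subseq_null {ι : Type*} [Countable ι] [IsProbabilityMeasure μ]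
    {a : ι → ℕ → α → ℝ≥0∞} (hm : ∀ i k, Measurable (a i k)) (h : ∀ i, Null μ (a i))
    {φ : ℕ → ℕ} (hφ : StrictMono φ) :
    ∃ ψ : ℕ → ℕ, StrictMono ψ ∧
      ∀ᵐ x ∂μ, ∀ i, Tendsto (fun k => a i (φ (ψ k)) x) atTop (𝓝 0) := by
  have _ := Encodable.ofCountable ι
  have h1 : ∀ n : ℕ, ∀ᶠ k in atTop, ∀ i, Encodable.encode i < n →
      ∫⁻ x, min 1 (a i (φ k) x) ∂μ ≤ (2⁻¹ : ℝ≥0∞) ^ n := by
    intro n
    have hfin : {i : ι | Encodable.encode i < n}.Finite :=
      Set.Finite.preimage (Encodable.encode_injective.injOn) (Set.finite_lt_nat n)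
    refine (Filter.eventually_all_finite hfin).mpr fun i _ => ?_
    have h2' : Tendsto (fun k => ∫⁻ x, min 1 (a i k x) ∂μ) atTop (𝓝 0) := h i
    have h2 := h2'.comp hφ.tendsto_atTop
    have h3 : (0 : ℝ≥0∞) < (2⁻¹ : ℝ≥0∞) ^ n := by
      exact ENNReal.pow_pos (by norm_num) n
    filter_upwards [h2.eventually (gt_mem_nhds h3)] with k hk using hk.le
  obtain ⟨ψ, hψ, h2⟩ := extraction_forall_of_eventually h1
  refine ⟨ψ, hψ, ?_⟩
  rw [ae_all_iff]
  intro i
  set N := Encodable.encode i with hN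
  have h3 : ∑' n, ∫⁻ x, min 1 (a i (φ (ψ n)) x) ∂μ ≠ ⊤ := by
    have h4 : ∀ n, ∫⁻ x, min 1 (a i (φ (ψ n)) x) ∂μ
        ≤ (if n ≤ N then 1 else 0) + (2⁻¹ : ℝ≥0∞) ^ n := by
      intro n
      split_ifs with hn
      · refine le_trans ?_ le_self_add
        calc ∫⁻ x, min 1 (a i (φ (ψ n)) x) ∂μ ≤ ∫⁻ _x, 1 ∂μ :=
              lintegral_mono fun x => min_le_left _ _
          _ = 1 := by simp
      · rw [zero_add]
        exact h2 n i (not_le.mp hn)
    refine ne_top_of_le_ne_top ?_ (ENNReal.tsum_le_tsum h4)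
    rw [ENNReal.tsum_add]
    refine ENNReal.add_ne_top.mpr ⟨?_, ?_⟩
    · rw [tsum_eq_sum (s := Finset.range (N + 1))]
      · refine ENNReal.sum_ne_top.mpr fun n _ => ?_
        split_ifs <;> simp
      · intro n hn
        rw [Finset.mem_range, not_lt] at hn
        rw [if_neg (by omega)]
    · rw [ENNReal.tsum_geometric]
      simp
  rw [← lintegral_tsum fun n => (measurable_const.min (hm i _)).aemeasurable] at h3
  have h4 := ae_lt_top' (AEMeasurable.tsum fun n =>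
    (measurable_const.min (hm i (φ (ψ n)))).aemeasurable) h3
  filter_upwards [h4] with x hx
  have h5 := ENNReal.tendsto_atTop_zero_of_tsum_ne_top hx.ne
  refine h5.congr' ?_
  filter_upwards [h5.eventually (gt_mem_nhds one_pos)] with n hn
  rcases le_total 1 (a i (φ (ψ n)) x) with h6 | h6
  · rw [min_eq_left h6] at hn
    exact absurd hn (lt_irrefl _)
  · exact min_eq_right h6

/-- a tight sequence has bounded subsequences almost surely -/
theorem Tght.ae_freq {b : ℕ → α → ℝ≥0∞} (hb : Tght μ b) (hm : ∀ k, Measurable (b k))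
    (φ : ℕ → ℕ) : ∀ᵐ x ∂μ, ∃ C : ℝ≥0, ∃ᶠ k in atTop, b (φ k) x ≤ C := by
  rw [ae_iff]
  by_contra h
  obtain ⟨ε, h0, h1⟩ := exists_between (pos_iff_ne_zero.mpr h)
  obtain ⟨δ, hδ0, hδ1, hδ2⟩ := hb ε h0
  have hδt : δ ≠ ⊤ := ne_top_of_le_ne_top ENNReal.one_ne_top hδ1
  have h2 : μ {x | ¬∃ C : ℝ≥0, ∃ᶠ k in atTop, b (φ k) x ≤ C} ≤ ε := by
    calc μ {x | ¬∃ C : ℝ≥0, ∃ᶠ k in atTop, b (φ k) x ≤ C}
        ≤ μ {x | 1 ≤ liminf (fun k => min 1 (δ * b (φ k) x)) atTop} := by
          refine measure_mono fun x hx => ?_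
          simp only [Set.mem_ofPred_eq, not_exists, not_frequently, not_le] at hx ⊢
          refine le_liminf_of_le (by isBoundedDefault) ?_
          have h3 := hx (δ⁻¹).toNNReal
          filter_upwards [h3] with k hk
          rw [ENNReal.coe_toNNReal (ENNReal.inv_ne_top.mpr hδ0.ne')] at hk
          refine le_min le_rfl ?_
          calc (1 : ℝ≥0∞) = δ * δ⁻¹ := (ENNReal.mul_inv_cancel hδ0.ne' hδt).symm
            _ ≤ δ * b (φ k) x := by gcongr
      _ ≤ ∫⁻ x, liminf (fun k => min 1 (δ * b (φ k) x)) atTop ∂μ := by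
          have h3 := mul_meas_ge_le_lintegral (μ := μ)
            (f := fun x => liminf (fun k => min 1 (δ * b (φ k) x)) atTop)
            (Measurable.liminf fun k => measurable_const.min ((hm (φ k)).const_mul δ)) 1
          rwa [one_mul] at h3
      _ ≤ liminf (fun k => ∫⁻ x, min 1 (δ * b (φ k) x) ∂μ) atTop :=
          lintegral_liminf_le fun k => measurable_const.min ((hm (φ k)).const_mul δ)
      _ ≤ ε := by
          refine liminf_le_of_le (by isBoundedDefault) fun a ha => ?_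
          obtain ⟨k, hk⟩ := ha.exists
          exact hk.trans (hδ2 (φ k))
  exact absurd h2 (not_le.mpr h1)

theorem ae_swap {β : Type*} [MeasurableSpace β] {ν : Measure β} [SFinite μ] [SFinite ν]
    {P : α × β → Prop} (h : ∀ᵐ p ∂(μ.prod ν), P p) : ∀ᵐ y ∂ν, ∀ᵐ x ∂μ, P (x, y) := by
  have h1 := (Measure.measurePreserving_swap (μ := ν) (ν := μ)).quasiMeasurePreserving.ae h
  exact Measure.ae_ae_of_ae_prod h1

end meas

variable {Λ : Type*} [DecidableEq Λ] [AddCommGroup Λ] [Countable Λ] {E : Type*}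
  [NormedAddCommGroup E] [InnerProductSpace ℂ E] [CompleteSpace E] {c : ℝ} {e : Λ → E}
  {H : (Λ → ℝ) → (E →L[ℂ] E)} {B : (Λ → ℝ) → (E →L[ℂ] E)}

/-! ### Measurability -/

theorem Model.measurable_n11 (M : Model c e H) (k : ℕ) (x : Λ) :
    Measurable (n11 e H k x) := by
  have h1 : Continuous fun p : (Λ → ℝ) × ℝ => Rv (H p.1) (Zt (tk k) p.2) (e x) :=
    M.continuous_Rv continuous_fst (continuous_Zt.comp continuous_snd)
      (fun p => Zt_im_pos (tk_pos k) p.2) (e x)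
  have h2 : Continuous fun p : (Λ → ℝ) × ℝ => (Zt (tk k) p.2).im :=
    Complex.continuous_im.comp (continuous_Zt.comp continuous_snd)
  unfold n11
  exact (h2.mul (h1.norm.pow 2)).measurable

theorem Model.measurable_n22 (M : Model c e H)
    (hBm : ∀ x y, Measurable fun ω => ⟪e x, B ω (e y)⟫_ℂ) (k : ℕ) (x : Λ) :
    Measurable (n22 e H B k x) := by
  have h1 : n22 e H B k x = fun p => (ENNReal.ofReal (Zt (tk k) p.2).im
      * ‖Rv (H p.1) (Zt (tk k) p.2) (B p.1 (e x))‖ₑ ^ 2).toReal := by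
    funext p
    unfold n22
    rw [ENNReal.toReal_mul, ENNReal.toReal_ofReal (Zt_im_pos (tk_pos k) p.2).le,
      ENNReal.toReal_pow, toReal_enorm]
  rw [h1]
  refine Measurable.ennreal_toReal ((measurable_Zt_im measurable_snd).mul ?_)
  simp_rw [M.parseval_enorm]
  exact Measurable.tsum fun y => ((M.measurable_RB hBm (tk_pos k) y x).enorm).pow_const 2

theorem Model.measurable_n12 (M : Model c e H)
    (hBm : ∀ x y, Measurable fun ω => ⟪e x, B ω (e y)⟫_ℂ) (k : ℕ) (x : Λ) :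
    Measurable (n12 e H B k x) := by
  unfold n12
  have h2 : Continuous fun p : (Λ → ℝ) × ℝ => (Zt (tk k) p.2).im :=
    Complex.continuous_im.comp (continuous_Zt.comp continuous_snd)
  refine (Complex.measurable_ofReal.comp h2.measurable).mul ?_
  refine measurable_of_tendsto_metrizable' (atTop : Filter (Finset Λ))
    (f := fun s p => ∑ w ∈ s, ⟪Rv (H p.1) (Zt (tk k) p.2) (e x), e w⟫_ℂ
      * ⟪e w, Rv (H p.1) (Zt (tk k) p.2) (B p.1 (e x))⟫_ℂ) ?_ ?_
  · intro s
    refine Finset.measurable_fun_sum _ fun w _ => ?_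
    refine Measurable.mul ?_ (M.measurable_RB hBm (tk_pos k) w x)
    have h3 : Continuous fun p : (Λ → ℝ) × ℝ => Rv (H p.1) (Zt (tk k) p.2) (e x) :=
      M.continuous_Rv continuous_fst (continuous_Zt.comp continuous_snd)
        (fun p => Zt_im_pos (tk_pos k) p.2) (e x)
    exact (h3.inner continuous_const).measurable
  · rw [tendsto_pi_nhds]
    intro p
    exact M.hasSum_inner (ContinuousLinearMap.id ℂ E) (Rv (H p.1) (Zt (tk k) p.2) (e x))
      (Rv (H p.1) (Zt (tk k) p.2) (B p.1 (e x)))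

theorem Model.measurable_XXx (M : Model c e H)
    (hBm : ∀ x y, Measurable fun ω => ⟪e x, B ω (e y)⟫_ℂ)
    (k : ℕ) (x : Λ) : Measurable fun q : ((Λ → ℝ) × ℝ) × ℝ => ENNReal.ofReal (Zt (tk k) q.2).im
        * ‖(B (up q) - B q.1.1) (Rv (H (up q)) (Zt (tk k) q.2) (e x))‖ₑ ^ 2 := by
  refine (measurable_Zt_im measurable_snd).mul ?_
  simp_rw [M.parseval_enorm]
  refine Measurable.tsum fun y => (Measurable.enorm ?_).pow_const 2
  simp_rw [sub_apply, inner_sub_right]
  exact (M.measurable_BR (B := B) hBm measurable_up measurable_up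
    (tk_pos k) measurable_snd y x).sub
    (M.measurable_BR (B := B) hBm (measurable_fst.comp measurable_fst) measurable_up
    (tk_pos k) measurable_snd y x)

/-! ### Covariance -/

/-- inner products of shifted vectors -/
theorem Model.inner_shift (M : Model c e H) (a : Λ) {u v u' v' : E}
    (hu : ∀ w, ⟪e w, u'⟫_ℂ = ⟪e (w + a), u⟫_ℂ) (hv : ∀ w, ⟪e w, v'⟫_ℂ = ⟪e (w + a), v⟫_ℂ) :
    ⟪u', v'⟫_ℂ = ⟪u, v⟫_ℂ := by
  have h1 := M.hasSum_inner (ContinuousLinearMap.id ℂ E) u' v'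
  have h2 := M.hasSum_inner (ContinuousLinearMap.id ℂ E) u v
  rw [← (Equiv.addRight a).hasSum_iff] at h2
  refine h1.unique ?_
  refine h2.congr_fun ?_ |> id
  intro w
  simp only [Function.comp, ContinuousLinearMap.id_apply, Equiv.coe_addRight]
  rw [hv w, ← inner_conj_symm u' (e w), hu w, inner_conj_symm]

/-- covariance of `R B` -/
theorem Model.RB_shift (M : Model c e H) (hcov : ShiftCov e H) (a : Λ) (ω : Λ → ℝ)
    (h : ∀ x y, ⟪e x, B (fun j => ω (j + a)) (e y)⟫_ℂ = ⟪e (x + a), B ω (e (y + a))⟫_ℂ)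
    {z : ℂ} (hz : 0 < z.im) (y x : Λ) :
    ⟪e y, Rv (H fun j => ω (j + a)) z (B (fun j => ω (j + a)) (e x))⟫_ℂ
      = ⟪e (y + a), Rv (H ω) z (B ω (e (x + a)))⟫_ℂ := by
  have h1 := M.hasSum_inner (Rv (H fun j => ω (j + a)) z) (e y) (B (fun j => ω (j + a)) (e x))
  have h2 := M.hasSum_inner (Rv (H ω) z) (e (y + a)) (B ω (e (x + a)))
  rw [← (Equiv.addRight a).hasSum_iff] at h2
  refine h1.unique ?_
  refine h2.congr_fun ?_ |> id
  intro w
  simp only [Function.comp, Equiv.coe_addRight]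
  rw [h w x]
  congr 1
  exact hcov a ω z y w hz

theorem n11_shift (hcov : ShiftCov e H) (M : Model c e H) (k : ℕ) (x a : Λ) (ω : Λ → ℝ) (s : ℝ) :
    n11 e H k x (fun j => ω (j + a), s) = n11 e H k (x + a) (ω, s) := by
  unfold n11
  have hz := Zt_im_pos (tk_pos k) s
  have h1 := M.inner_shift a (u := Rv (H ω) (Zt (tk k) s) (e (x + a)))
    (v := Rv (H ω) (Zt (tk k) s) (e (x + a)))
    (u' := Rv (H fun j => ω (j + a)) (Zt (tk k) s) (e x))
    (v' := Rv (H fun j => ω (j + a)) (Zt (tk k) s) (e x))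
    (fun w => hcov a ω _ w x hz) (fun w => hcov a ω _ w x hz)
  rw [inner_self_eq_norm_sq_to_K, inner_self_eq_norm_sq_to_K] at h1
  have h2 : ‖Rv (H fun j => ω (j + a)) (Zt (tk k) s) (e x)‖ ^ 2
      = ‖Rv (H ω) (Zt (tk k) s) (e (x + a))‖ ^ 2 := by exact_mod_cast h1
  simp only
  rw [h2]

theorem n22_shift (hcov : ShiftCov e H) (M : Model c e H) (k : ℕ) (x a : Λ) (ω : Λ → ℝ)
    (h : ∀ x y, ⟪e x, B (fun j => ω (j + a)) (e y)⟫_ℂ = ⟪e (x + a), B ω (e (y + a))⟫_ℂ) (s : ℝ) :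
    n22 e H B k x (fun j => ω (j + a), s) = n22 e H B k (x + a) (ω, s) := by
  unfold n22
  have hz := Zt_im_pos (tk_pos k) s
  have h1 := M.inner_shift a (u := Rv (H ω) (Zt (tk k) s) (B ω (e (x + a))))
    (v := Rv (H ω) (Zt (tk k) s) (B ω (e (x + a))))
    (u' := Rv (H fun j => ω (j + a)) (Zt (tk k) s) (B (fun j => ω (j + a)) (e x)))
    (v' := Rv (H fun j => ω (j + a)) (Zt (tk k) s) (B (fun j => ω (j + a)) (e x)))
    (fun w => M.RB_shift hcov a ω h hz w x) (fun w => M.RB_shift hcov a ω h hz w x)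
  rw [inner_self_eq_norm_sq_to_K, inner_self_eq_norm_sq_to_K] at h1
  have h2 : ‖Rv (H fun j => ω (j + a)) (Zt (tk k) s) (B (fun j => ω (j + a)) (e x))‖ ^ 2
      = ‖Rv (H ω) (Zt (tk k) s) (B ω (e (x + a)))‖ ^ 2 := by exact_mod_cast h1
  simp only
  rw [h2]

theorem n12_shift (hcov : ShiftCov e H) (M : Model c e H) (k : ℕ) (x a : Λ) (ω : Λ → ℝ)
    (h : ∀ x y, ⟪e x, B (fun j => ω (j + a)) (e y)⟫_ℂ = ⟪e (x + a), B ω (e (y + a))⟫_ℂ) (s : ℝ) :
    n12 e H B k x (fun j => ω (j + a), s) = n12 e H B k (x + a) (ω, s) := by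
  unfold n12
  have hz := Zt_im_pos (tk_pos k) s
  have h1 := M.inner_shift a (u := Rv (H ω) (Zt (tk k) s) (e (x + a)))
    (v := Rv (H ω) (Zt (tk k) s) (B ω (e (x + a))))
    (u' := Rv (H fun j => ω (j + a)) (Zt (tk k) s) (e x))
    (v' := Rv (H fun j => ω (j + a)) (Zt (tk k) s) (B (fun j => ω (j + a)) (e x)))
    (fun w => hcov a ω _ w x hz) (fun w => M.RB_shift hcov a ω h hz w x)
  simp only
  rw [h1]

end Pool.Agent.Lib.MP_562b47_mp
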