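import Mathlib
import Pool.Agent.Lib.MP_562b47_mp.Cc.Defs
import Pool.Agent.Lib.MP_562b47_mp.Rank

/-!
A covariant operator changes little in the direction of `R(z) e_x` when the coordinate `0` of the
potential is changed, for every `x`.  (Anderson model, MP_562b47_mp.)
-/

open MeasureTheory Set Filter Topology Complex
open scoped Real ENNReal NNReal InnerProductSpace

set_option linter.unusedSectionVars false

namespace Pool.Agent.Lib.MP_562b47_mp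

variable {Λ : Type*} [DecidableEq Λ] [AddCommGroup Λ] [Countable Λ] {E : Type*}
  [NormedAddCommGroup E] [InnerProductSpace ℂ E] [CompleteSpace E] {c : ℝ} {e : Λ → E}
  {H : (Λ → ℝ) → (E →L[ℂ] E)} {B : (Λ → ℝ) → (E →L[ℂ] E)}

/-- the mean square of the error, at `x` -/
noncomputable def cc_XXx_yyx (e : Λ → E) (H B : (Λ → ℝ) → (E →L[ℂ] E)) (F : Finset Λ)
    (β : Λ → (Λ → ℝ) → ℂ) (t : ℝ) (x : Λ) (p : (Λ → ℝ) × ℝ) : ℝ≥0∞ :=
  ENNReal.ofReal (Zt t p.2).im * ∑' y, ‖QQ e H B F β y x p.1 (Zt t p.2)‖ₑ ^ 2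

theorem cc_XXx_measurable_yyx (M : Model c e H)
    (hBm : ∀ x y, Measurable fun ω => ⟪e x, B ω (e y)⟫_ℂ) {F : Finset Λ}
    {β : Λ → (Λ → ℝ) → ℂ} (hβ : ∀ k, Measurable (β k)) {t : ℝ} (ht : 0 < t) (x : Λ) :
    Measurable (cc_XXx_yyx e H B F β t x) := by
  unfold cc_XXx_yyx
  refine (measurable_Zt_im measurable_snd).mul ?_
  refine Measurable.ennreal_tsum fun y => ?_
  exact ((M.measurable_QQ hBm hβ measurable_fst ht measurable_snd y x).enorm).pow_const 2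

theorem cc_XXx_lintegral_yyx (M : Model c e H) (hcov : ShiftCov e H)
    (hBm : ∀ x y, Measurable fun ω => ⟪e x, B ω (e y)⟫_ℂ)
    (hBc : ∀ a x y, ∀ᵐ ω ∂(PP Λ c), ⟪e x, B (fun j => ω (j + a)) (e y)⟫_ℂ
        = ⟪e (x + a), B ω (e (y + a))⟫_ℂ) {F : Finset Λ}
    {β : Λ → (Λ → ℝ) → ℂ} (hβ : ∀ k, Measurable (β k)) (hF : ∀ k, k ∉ F → ∀ ω, β k ω = 0)
    {t : ℝ} (ht : 0 < t) (x : Λ) :
    ∫⁻ p, cc_XXx_yyx e H B F β t x p ∂((PP Λ c).prod kap)
      ≤ ∫⁻ ω, ∑' k, ‖⟪e k, B ω (e 0)⟫_ℂ - β k ω‖ₑ ^ 2 ∂(PP Λ c) := by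
  have := PP_prob Λ M.hc
  have := unif_prob M.hc
  refine le_trans (le_of_eq ?_) (M.lintegral_yy hcov hBm hBc hβ hF ht)
  rw [lintegral_prod_symm _ (cc_XXx_measurable_yyx M hBm hβ ht x).aemeasurable,
    lintegral_prod_symm _ (M.measurable_yy hBm hβ ht).aemeasurable]
  refine lintegral_congr fun s => ?_
  have hsh : MeasurePreserving (fun ω : Λ → ℝ => fun j => ω (j + x)) (PP Λ c) (PP Λ c) :=
    measurePreserving_shift (Λ := Λ) (unif c) x
  have hm : Measurable fun ω => yy e H B F β t (ω, s) :=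
    (M.measurable_yy hBm hβ ht).comp (measurable_id.prodMk measurable_const)
  rw [← hsh.lintegral_comp hm]
  refine lintegral_congr_ae ?_
  have h1 : ∀ᵐ ω ∂(PP Λ c), ∀ y, QQ e H B F β y 0 (fun j => ω (j + x)) (Zt t s)
      = QQ e H B F β (y + x) (0 + x) ω (Zt t s) :=
    ae_all_iff.mpr fun y => M.QQ_cov hcov hBc F β (Zt_im_pos ht s) x y 0
  filter_upwards [h1] with ω hω
  show cc_XXx_yyx e H B F β t x (ω, s) = yy e H B F β t (fun j => ω (j + x), s)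
  unfold cc_XXx_yyx yy
  congr 1
  show ∑' y, ‖QQ e H B F β y x ω (Zt t s)‖ₑ ^ 2
    = ∑' y, ‖QQ e H B F β y 0 (fun j => ω (j + x)) (Zt t s)‖ₑ ^ 2
  simp_rw [hω, zero_add]
  exact ((Equiv.addRight x).tsum_eq (fun y => ‖QQ e H B F β y x ω (Zt t s)‖ₑ ^ 2)).symm

theorem cc_XXx_sq_four (a b u v : ℝ≥0∞) :
    (a + b + u + v) ^ 2 ≤ 4 * (a ^ 2 + b ^ 2 + u ^ 2 + v ^ 2) := by
  by_cases ha : a = ⊤
  · subst ha; simp
  by_cases hb : b = ⊤
  · subst hb; simp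
  by_cases hu : u = ⊤
  · subst hu; simp
  by_cases hv : v = ⊤
  · subst hv; simp
  lift a to ℝ≥0 using ha
  lift b to ℝ≥0 using hb
  lift u to ℝ≥0 using hu
  lift v to ℝ≥0 using hv
  norm_cast
  rw [← NNReal.coe_le_coe]
  push_cast
  nlinarith [sq_nonneg ((a:ℝ) - b), sq_nonneg ((a:ℝ) - u), sq_nonneg ((a:ℝ) - v),
    sq_nonneg ((b:ℝ) - u), sq_nonneg ((b:ℝ) - v), sq_nonneg ((u:ℝ) - v)]

/-- sum of the Green functions near the origin -/
noncomputable def cc_XXx_SSg (e : Λ → E) (H : (Λ → ℝ) → (E →L[ℂ] E)) (J : Finset Λ) (x : Λ)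
    (k : ℕ) (p : (Λ → ℝ) × ℝ) : ℝ≥0∞ := ∑ j ∈ J, ‖Gr e H p.1 (Zt (tk k) p.2) (-j) x‖ₑ

theorem cc_XXx_measurable_SSg (M : Model c e H) (J : Finset Λ) (x : Λ) (k : ℕ) :
    Measurable (cc_XXx_SSg e H J x k) := by
  unfold cc_XXx_SSg
  refine Finset.measurable_fun_sum _ fun j _ => ?_
  exact (M.measurable_Gr measurable_fst (tk_pos k) measurable_snd (-j) x).enorm

theorem cc_XXx_tght_SSg (M : Model c e H) (J : Finset Λ) (x : Λ) :
    Tght ((PP Λ c).prod kap) (fun k p => cc_XXx_SSg e H J x k p) := by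
  have := PP_prob Λ M.hc
  induction J using Finset.induction_on with
  | empty =>
    have h := Tght.const (μ := (PP Λ c).prod kap) (g := fun _ => (0:ℝ≥0∞)) measurable_const (by simp)
    refine h.mono fun k => ae_of_all _ fun p => ?_
    unfold cc_XXx_SSg; simp
  | insert j J hj ih =>
    have h1 := (M.tght_Gr (-j) x).add ih (cc_XXx_measurable_SSg M J x)
    refine h1.mono fun k => ae_of_all _ fun p => ?_
    unfold cc_XXx_SSg
    rw [Finset.sum_insert hj]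

/-- `s G'(0,x)` -/
noncomputable def cc_XXx_tau (c : ℝ) (e : Λ → E) (H : (Λ → ℝ) → (E →L[ℂ] E)) (x : Λ) (k : ℕ)
    (q : ((Λ → ℝ) × ℝ) × ℝ) : ℂ :=
  ((clp c q.1.2 - clp c (q.1.1 0) : ℝ) : ℂ) * Gr e H (up q) (Zt (tk k) q.2) 0 x

theorem cc_XXx_measurable_tau (M : Model c e H) (x : Λ) (k : ℕ) :
    Measurable (cc_XXx_tau c e H x k) := by
  have h1 : Measurable fun q : ((Λ → ℝ) × ℝ) × ℝ => Gr e H (up q) (Zt (tk k) q.2) 0 x :=
    M.measurable_Gr measurable_up (tk_pos k) measurable_snd 0 x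
  have h2 : Measurable fun q : ((Λ → ℝ) × ℝ) × ℝ => (clp c q.1.2 - clp c (q.1.1 0) : ℝ) :=
    ((measurable_clp c).comp (measurable_snd.comp measurable_fst)).sub
      ((measurable_clp c).comp ((measurable_pi_apply 0).comp (measurable_fst.comp measurable_fst)))
  exact (Complex.measurable_ofReal.comp h2).mul h1

theorem cc_XXx_tght_tau (M : Model c e H) (x : Λ) :
    Tght (M3 Λ c) (fun k q => ‖cc_XXx_tau c e H x k q‖ₑ ^ 2) := by
  have := M3_prob Λ M.hc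
  have hGm : ∀ k, Measurable fun p : (Λ → ℝ) × ℝ => ‖Gr e H p.1 (Zt (tk k) p.2) 0 x‖ₑ := fun k =>
    (M.measurable_Gr measurable_fst (tk_pos k) measurable_snd 0 x).enorm
  have hG : Tght (M3 Λ c) (fun k q => ‖Gr e H (up q) (Zt (tk k) q.2) 0 x‖ₑ) :=
    (M.tght_Gr 0 x).comp (mp_new M.hc) hGm
  have hGm' : ∀ k, Measurable fun q : ((Λ → ℝ) × ℝ) × ℝ =>
      ‖Gr e H (up q) (Zt (tk k) q.2) 0 x‖ₑ := fun k =>
    (M.measurable_Gr measurable_up (tk_pos k) measurable_snd 0 x).enorm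
  have h3 := Tght.const (μ := M3 Λ c)
    (g := fun _ => ENNReal.ofReal (2 * c) ^ 2) measurable_const
    (ae_of_all _ fun _ => ENNReal.pow_ne_top ENNReal.ofReal_ne_top)
  have h4 := hG.mul hG hGm'
  have h5 := h3.mul h4 (fun k => (hGm' k).mul (hGm' k))
  refine h5.mono fun k => ae_of_all _ fun q => ?_
  unfold cc_XXx_tau
  rw [enorm_mul, mul_pow, ← sq ‖Gr e H (up q) (Zt (tk k) q.2) 0 x‖ₑ]
  gcongr
  rw [← ofReal_norm]
  refine ENNReal.ofReal_le_ofReal ?_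
  rw [Complex.norm_real, Real.norm_eq_abs]
  exact abs_clp_sub M.hc _ _

theorem cc_XXx_le (M : Model c e H) {F J : Finset Λ} {β : Λ → (Λ → ℝ) → ℂ} {C : ℝ}
    (hC : ∀ k ω, ‖β k ω‖ ≤ C)
    (hJ : ∀ k ω ω', (∀ j ∈ J, ω j = ω' j) → β k ω = β k ω') (x : Λ) (k : ℕ)
    (q : ((Λ → ℝ) × ℝ) × ℝ) :
    ENNReal.ofReal (Zt (tk k) q.2).im
        * ‖(B (up q) - B q.1.1) (Rv (H (up q)) (Zt (tk k) q.2) (e x))‖ₑ ^ 2
      ≤ 4 * cc_XXx_yyx e H B F β (tk k) x (up q, q.2)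
        + 4 * cc_XXx_yyx e H B F β (tk k) x (q.1.1, q.2)
        + 4 * yy e H B F β (tk k) (q.1.1, q.2) * ‖cc_XXx_tau c e H x k q‖ₑ ^ 2
        + ENNReal.ofReal (Zt (tk k) q.2).im
          * (4 * ((F.card : ℝ≥0∞) * ENNReal.ofReal (2 * C)) ^ 2
            * cc_XXx_SSg e H J x k (up q, q.2) ^ 2) := by
  set z := Zt (tk k) q.2 with hzdef
  have hz : 0 < z.im := Zt_im_pos (tk_pos k) q.2
  set ω := q.1.1 with hω
  set ω' := up q with hω'
  have hω'e : ω' = Function.update ω 0 q.1.2 := rfl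
  set s : ℂ := ((clp c q.1.2 - clp c (ω 0) : ℝ) : ℂ) with hs
  set τ := cc_XXx_tau c e H x k q with hτ
  have hτ' : τ = s * ⟪e 0, Rv (H ω') z (e x)⟫_ℂ := rfl
  have hR : Rv (H ω') z (e x) = Rv (H ω) z (e x) - τ • Rv (H ω) z (e 0) := by
    have h1 := Rv_sub_Rv (M.sa ω') (M.sa ω) hz.ne' hz.ne' (e x)
    have h2 : (H ω - H ω') (Rv (H ω') z (e x))
        = -(τ • e 0) := by
      have := M.upd ω 0 q.1.2 (Rv (H ω') z (e x))
      rw [← hω'e, ← hs] at this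
      show H ω (Rv (H ω') z (e x)) - H ω' (Rv (H ω') z (e x)) = _
      rw [this, hτ', smul_smul]; abel
    rw [h2, sub_self, zero_smul, sub_zero, map_neg, neg_neg, map_smul] at h1
    rw [← h1]; abel
  have hG : ∀ w, Gr e H ω' z w x = Gr e H ω z w x - τ * Gr e H ω z w 0 := by
    intro w
    unfold Gr
    rw [hR, inner_sub_right, inner_smul_right]
  set L : Λ → ℂ := fun y => ∑ i ∈ F, (β i (fun j => ω' (j + (y - i)))
    - β i (fun j => ω (j + (y - i)))) * Gr e H ω' z (y - i) x with hL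
  have h1 : ∀ y, ⟪e y, (B ω' - B ω) (Rv (H ω') z (e x))⟫_ℂ
      = QQ e H B F β y x ω' z - QQ e H B F β y x ω z + τ * QQ e H B F β y 0 ω z + L y := by
    intro y
    have h2 : ⟪e y, B ω (Rv (H ω') z (e x))⟫_ℂ
        = ⟪e y, B ω (Rv (H ω) z (e x))⟫_ℂ - τ * ⟪e y, B ω (Rv (H ω) z (e 0))⟫_ℂ := by
      rw [hR, map_sub, map_smul, inner_sub_right, inner_smul_right]
    have h3 : ∑ i ∈ F, β i (fun j => ω (j + (y - i))) * Gr e H ω' z (y - i) x
        = ∑ i ∈ F, β i (fun j => ω (j + (y - i))) * Gr e H ω z (y - i) x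
          - τ * ∑ i ∈ F, β i (fun j => ω (j + (y - i))) * Gr e H ω z (y - i) 0 := by
      rw [Finset.mul_sum, ← Finset.sum_sub_distrib]
      refine Finset.sum_congr rfl fun i _ => ?_
      rw [hG]; ring
    have h4 : L y = ∑ i ∈ F, β i (fun j => ω' (j + (y - i))) * Gr e H ω' z (y - i) x
        - ∑ i ∈ F, β i (fun j => ω (j + (y - i))) * Gr e H ω' z (y - i) x := by
      rw [hL]
      simp only [sub_mul, Finset.sum_sub_distrib]
    rw [h4, h3]
    unfold QQ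
    show ⟪e y, B ω' (Rv (H ω') z (e x)) - B ω (Rv (H ω') z (e x))⟫_ℂ = _
    rw [inner_sub_right, h2]
    ring
  -- the local part
  set f : Λ → ℝ≥0∞ := fun y => if -y ∈ J then ENNReal.ofReal (2 * C) * ‖Gr e H ω' z y x‖ₑ else 0
    with hf
  have hLf : ∀ y, ‖L y‖ₑ ≤ ∑ i ∈ F, f (y - i) := by
    intro y
    rw [hL]
    refine (enorm_sum_le _ _).trans (Finset.sum_le_sum fun i _ => ?_)
    rw [hf]
    simp only
    by_cases hy : -(y - i) ∈ J
    · rw [if_pos hy, enorm_mul]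
      gcongr
      rw [← ofReal_norm]
      refine ENNReal.ofReal_le_ofReal ((norm_sub_le _ _).trans ?_)
      linarith [hC i (fun j => ω' (j + (y - i))), hC i (fun j => ω (j + (y - i)))]
    · rw [if_neg hy]
      have : β i (fun j => ω' (j + (y - i))) = β i (fun j => ω (j + (y - i))) := by
        refine hJ i _ _ fun j hj => ?_
        rw [hω'e, Function.update_of_ne]
        intro h0
        apply hy
        have : j = -(y - i) := eq_neg_of_add_eq_zero_left h0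
        rwa [← this]
      rw [this, sub_self, zero_mul, enorm_zero]
  have hsum : ∑' y, ‖L y‖ₑ
      ≤ (F.card : ℝ≥0∞) * ENNReal.ofReal (2 * C) * cc_XXx_SSg e H J x k (ω', q.2) := by
    calc ∑' y, ‖L y‖ₑ ≤ ∑' y, ∑ i ∈ F, f (y - i) := ENNReal.tsum_le_tsum hLf
      _ = ∑ i ∈ F, ∑' y, f (y - i) := Summable.tsum_finsetSum fun i _ => ENNReal.summable
      _ = ∑ i ∈ F, ∑' y, f y := by
          refine Finset.sum_congr rfl fun i _ => ?_
          exact (Equiv.subRight i).tsum_eq f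
      _ = (F.card : ℝ≥0∞) * ∑' y, f y := by rw [Finset.sum_const, nsmul_eq_mul]
      _ = _ := by
          rw [mul_assoc]
          congr 1
          rw [← (Equiv.neg Λ).tsum_eq]
          unfold cc_XXx_SSg
          rw [Finset.mul_sum, tsum_eq_sum (s := J)]
          · refine Finset.sum_congr rfl fun j hj => ?_
            rw [hf]
            simp only [Equiv.neg_apply, neg_neg]
            rw [if_pos hj]
          · intro j hj
            rw [hf]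
            simp only [Equiv.neg_apply, neg_neg]
            rw [if_neg hj]
  have hsum2 : ∑' y, ‖L y‖ₑ ^ 2
      ≤ ((F.card : ℝ≥0∞) * ENNReal.ofReal (2 * C)) ^ 2 * cc_XXx_SSg e H J x k (ω', q.2) ^ 2 := by
    refine (tsum_sq_le _).trans ?_
    rw [← mul_pow]
    gcongr
  rw [M.parseval_enorm]
  have h2 : ∀ y, ‖⟪e y, (B ω' - B ω) (Rv (H ω') z (e x))⟫_ℂ‖ₑ ^ 2
      ≤ 4 * (‖QQ e H B F β y x ω' z‖ₑ ^ 2 + ‖QQ e H B F β y x ω z‖ₑ ^ 2
        + ‖τ‖ₑ ^ 2 * ‖QQ e H B F β y 0 ω z‖ₑ ^ 2 + ‖L y‖ₑ ^ 2) := by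
    intro y
    rw [h1]
    refine le_trans ?_ (le_trans (cc_XXx_sq_four ‖QQ e H B F β y x ω' z‖ₑ
      ‖QQ e H B F β y x ω z‖ₑ (‖τ‖ₑ * ‖QQ e H B F β y 0 ω z‖ₑ) ‖L y‖ₑ)
      (le_of_eq (by rw [mul_pow])))
    refine pow_le_pow_left' ?_ 2
    refine (enorm_add_le _ _).trans ?_
    gcongr
    refine (enorm_add_le _ _).trans ?_
    rw [enorm_mul]
    gcongr
    exact enorm_sub_le
  calc ENNReal.ofReal z.im * ∑' y, ‖⟪e y, (B ω' - B ω) (Rv (H ω') z (e x))⟫_ℂ‖ₑ ^ 2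
      ≤ ENNReal.ofReal z.im * ∑' y, 4 * (‖QQ e H B F β y x ω' z‖ₑ ^ 2
        + ‖QQ e H B F β y x ω z‖ₑ ^ 2
        + ‖τ‖ₑ ^ 2 * ‖QQ e H B F β y 0 ω z‖ₑ ^ 2 + ‖L y‖ₑ ^ 2) := by
        gcongr with y
        exact h2 y
    _ = 4 * (ENNReal.ofReal z.im * ∑' y, ‖QQ e H B F β y x ω' z‖ₑ ^ 2)
        + 4 * (ENNReal.ofReal z.im * ∑' y, ‖QQ e H B F β y x ω z‖ₑ ^ 2)
        + 4 * (ENNReal.ofReal z.im * ∑' y, ‖QQ e H B F β y 0 ω z‖ₑ ^ 2) * ‖τ‖ₑ ^ 2
        + ENNReal.ofReal z.im * (4 * ∑' y, ‖L y‖ₑ ^ 2) := by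
        rw [ENNReal.tsum_mul_left, ENNReal.tsum_add, ENNReal.tsum_add, ENNReal.tsum_add,
          ENNReal.tsum_mul_left]
        ring
    _ ≤ _ := by
        unfold cc_XXx_yyx yy
        refine add_le_add le_rfl (mul_le_mul' le_rfl ?_)
        rw [mul_assoc]
        exact mul_le_mul' le_rfl hsum2

/-- **The change of a covariant operator is small in the direction of every resolvent vector.** -/
theorem Model.null_XXx (M : Model c e H) (hcov : ShiftCov e H)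
    (hBm : ∀ x y, Measurable fun ω => ⟪e x, B ω (e y)⟫_ℂ)
    (hBc : ∀ a x y, ∀ᵐ ω ∂(PP Λ c), ⟪e x, B (fun j => ω (j + a)) (e y)⟫_ℂ
        = ⟪e (x + a), B ω (e (y + a))⟫_ℂ) (hBl : LocApprox c e B) (x : Λ) :
    Null (M3 Λ c) (fun k q => ENNReal.ofReal (Zt (tk k) q.2).im
        * ‖(B (up q) - B q.1.1) (Rv (H (up q)) (Zt (tk k) q.2) (e x))‖ₑ ^ 2) := by
  have := M3_prob Λ M.hc
  unfold Null
  rw [ENNReal.tendsto_atTop_zero]
  intro η hη
  have hη5 : 0 < η / 5 := ENNReal.div_pos hη.ne' (by norm_num)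
  obtain ⟨δ, hδ0, hδ1, hδ⟩ := cc_XXx_tght_tau M x (η / 5) hη5
  have hδinv : δ⁻¹ ≠ ⊤ := ENNReal.inv_ne_top.mpr hδ0.ne'
  -- choice of `ε`
  have hθ : 0 < η / 5 / (4 * δ⁻¹) := ENNReal.div_pos hη5.ne' (ENNReal.mul_ne_top (by norm_num) hδinv)
  obtain ⟨ε, hε0, hεle⟩ := exists_ofReal_le hθ
  have h3ε : 4 * δ⁻¹ * ENNReal.ofReal ε ≤ η / 5 := by
    rw [mul_comm]
    exact (ENNReal.le_div_iff_mul_le (Or.inl (by simp [hδ1.trans_lt ENNReal.one_lt_top |>.ne]))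
      (Or.inl (ENNReal.mul_ne_top (by norm_num) hδinv))).mp hεle
  have h3ε' : 4 * ENNReal.ofReal ε ≤ η / 5 := by
    refine le_trans ?_ h3ε
    have : 1 ≤ δ⁻¹ := ENNReal.one_le_inv.mpr hδ1
    calc 4 * ENNReal.ofReal ε = 4 * 1 * ENNReal.ofReal ε := by rw [mul_one]
      _ ≤ _ := by gcongr
  obtain ⟨F, J, β, C, hβm, hβC, hβF, hβJ, hβε⟩ := hBl ε hε0
  have hyle : ∀ k, ∫⁻ p, yy e H B F β (tk k) p ∂((PP Λ c).prod kap) ≤ ENNReal.ofReal ε := fun k =>
    (M.lintegral_yy hcov hBm hBc hβm hβF (tk_pos k)).trans hβε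
  have hym : ∀ k, Measurable (yy e H B F β (tk k)) := fun k => M.measurable_yy hBm hβm (tk_pos k)
  have hyxle : ∀ k, ∫⁻ p, cc_XXx_yyx e H B F β (tk k) x p ∂((PP Λ c).prod kap)
      ≤ ENNReal.ofReal ε := fun k =>
    (cc_XXx_lintegral_yyx M hcov hBm hBc hβm hβF (tk_pos k) x).trans hβε
  have hyxm : ∀ k, Measurable (cc_XXx_yyx e H B F β (tk k) x) := fun k =>
    cc_XXx_measurable_yyx M hBm hβm (tk_pos k) x
  -- the four terms
  set A0 : ℕ → (((Λ → ℝ) × ℝ) × ℝ) → ℝ≥0∞ := fun k q =>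
    4 * cc_XXx_yyx e H B F β (tk k) x (q.1.1, q.2) with hA0
  set A1 : ℕ → (((Λ → ℝ) × ℝ) × ℝ) → ℝ≥0∞ := fun k q =>
    4 * cc_XXx_yyx e H B F β (tk k) x (up q, q.2) with hA1
  set A2 : ℕ → (((Λ → ℝ) × ℝ) × ℝ) → ℝ≥0∞ := fun k q => 4 * yy e H B F β (tk k) (q.1.1, q.2)
    with hA2
  set A3 : ℕ → (((Λ → ℝ) × ℝ) × ℝ) → ℝ≥0∞ := fun k q => ENNReal.ofReal (Zt (tk k) q.2).im
    * (4 * ((F.card : ℝ≥0∞) * ENNReal.ofReal (2 * C)) ^ 2 * cc_XXx_SSg e H J x k (up q, q.2) ^ 2)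
    with hA3
  have hA0m : ∀ k, Measurable (A0 k) := fun k =>
    ((hyxm k).comp ((measurable_fst.comp measurable_fst).prodMk measurable_snd)).const_mul _
  have hA1m : ∀ k, Measurable (A1 k) := fun k =>
    ((hyxm k).comp (measurable_up.prodMk measurable_snd)).const_mul _
  have hA2m : ∀ k, Measurable (A2 k) := fun k =>
    ((hym k).comp ((measurable_fst.comp measurable_fst).prodMk measurable_snd)).const_mul _
  have hSm : ∀ k, Measurable fun q : ((Λ → ℝ) × ℝ) × ℝ => cc_XXx_SSg e H J x k (up q, q.2) :=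
    fun k => (cc_XXx_measurable_SSg M J x k).comp (measurable_up.prodMk measurable_snd)
  have hA0i : ∀ k, ∫⁻ q, A0 k q ∂(M3 Λ c) ≤ 4 * ENNReal.ofReal ε := by
    intro k
    rw [hA0]
    simp only
    rw [lintegral_const_mul' _ _ (by norm_num)]
    gcongr
    rw [(mp_old M.hc).lintegral_comp (hyxm k)]
    exact hyxle k
  have hA1i : ∀ k, ∫⁻ q, A1 k q ∂(M3 Λ c) ≤ 4 * ENNReal.ofReal ε := by
    intro k
    rw [hA1]
    simp only
    rw [lintegral_const_mul' _ _ (by norm_num)]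
    gcongr
    rw [(mp_new M.hc).lintegral_comp (hyxm k)]
    exact hyxle k
  have hA2i : ∀ k, ∫⁻ q, A2 k q ∂(M3 Λ c) ≤ 4 * ENNReal.ofReal ε := by
    intro k
    rw [hA2]
    simp only
    rw [lintegral_const_mul' _ _ (by norm_num)]
    gcongr
    rw [(mp_old M.hc).lintegral_comp (hym k)]
    exact hyle k
  have hSt : Tght (M3 Λ c) (fun k q => cc_XXx_SSg e H J x k (up q, q.2)) :=
    (cc_XXx_tght_SSg M J x).comp (mp_new M.hc) (cc_XXx_measurable_SSg M J x)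
  have hA3n : Null (M3 Λ c) A3 := by
    have h1 : Null (M3 Λ c) (fun k q => ENNReal.ofReal (Zt (tk k) q.2).im) :=
      null_im.comp (mp_snd M.hc) (fun k => measurable_Zt_im measurable_id)
    have h2 : Tght (M3 Λ c) (fun k q => 4 * ((F.card : ℝ≥0∞) * ENNReal.ofReal (2 * C)) ^ 2
        * cc_XXx_SSg e H J x k (up q, q.2) ^ 2) := by
      have h3 := Tght.const (μ := M3 Λ c)
        (g := fun _ => 4 * ((F.card : ℝ≥0∞) * ENNReal.ofReal (2 * C)) ^ 2) measurable_const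
        (ae_of_all _ fun _ => ENNReal.mul_ne_top (by norm_num) (ENNReal.pow_ne_top
          (ENNReal.mul_ne_top (ENNReal.natCast_ne_top _) ENNReal.ofReal_ne_top)))
      have h4 := hSt.mul hSt hSm
      have h5 := h3.mul h4 (fun k => (hSm k).mul (hSm k))
      refine h5.mono fun k => ae_of_all _ fun q => ?_
      rw [sq (cc_XXx_SSg e H J x k (up q, q.2))]
    exact h1.mul_tght h2 (fun k => ((hSm k).pow_const 2).const_mul _)
  unfold Null at hA3n
  rw [ENNReal.tendsto_atTop_zero] at hA3n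
  obtain ⟨N, hN⟩ := hA3n (η / 5) hη5
  refine ⟨N, fun k hk => ?_⟩
  have hA3m : Measurable (A3 k) :=
    (measurable_Zt_im measurable_snd).mul (((hSm k).pow_const 2).const_mul _)
  calc ∫⁻ q, min 1 (ENNReal.ofReal (Zt (tk k) q.2).im
        * ‖(B (up q) - B q.1.1) (Rv (H (up q)) (Zt (tk k) q.2) (e x))‖ₑ ^ 2) ∂(M3 Λ c)
      ≤ ∫⁻ q, (A1 k q + (A0 k q + (δ⁻¹ * A2 k q + min 1 (δ * ‖cc_XXx_tau c e H x k q‖ₑ ^ 2)))
          + min 1 (A3 k q)) ∂(M3 Λ c) := by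
        refine lintegral_mono fun q => ?_
        refine (min_le_min_left 1 (cc_XXx_le M (B := B) (F := F) hβC hβJ x k q)).trans ?_
        refine (min_one_add_le_enn _ _).trans ?_
        gcongr
        rw [add_assoc]
        refine (min_one_add_le_enn _ _).trans ?_
        refine add_le_add (min_le_right _ _) ?_
        refine (min_one_add_le_enn _ _).trans ?_
        refine add_le_add (min_le_right _ _) ?_
        refine (min_one_mul_le_enn _ _ hδ0 hδ1).trans ?_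
        gcongr
        exact min_le_right _ _
    _ = ∫⁻ q, A1 k q ∂(M3 Λ c) + (∫⁻ q, A0 k q ∂(M3 Λ c) + (δ⁻¹ * ∫⁻ q, A2 k q ∂(M3 Λ c)
          + ∫⁻ q, min 1 (δ * ‖cc_XXx_tau c e H x k q‖ₑ ^ 2) ∂(M3 Λ c)))
          + ∫⁻ q, min 1 (A3 k q) ∂(M3 Λ c) := by
        rw [lintegral_add_right _ (measurable_const.min hA3m), lintegral_add_left (hA1m k),
          lintegral_add_left (hA0m k),
          lintegral_add_left ((hA2m k).const_mul _), lintegral_const_mul' _ _ hδinv]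
    _ ≤ η / 5 + (η / 5 + (η / 5 + η / 5)) + η / 5 := by
        gcongr
        · exact (hA1i k).trans h3ε'
        · exact (hA0i k).trans h3ε'
        · calc δ⁻¹ * ∫⁻ q, A2 k q ∂(M3 Λ c) ≤ δ⁻¹ * (4 * ENNReal.ofReal ε) := by
                gcongr; exact hA2i k
            _ = 4 * δ⁻¹ * ENNReal.ofReal ε := by ring
            _ ≤ η / 5 := h3ε
        · exact hδ k
        · exact hN k hk
    _ = η := by
        have h4 : η / 5 + (η / 5 + (η / 5 + η / 5)) + η / 5 = 5 * (η / 5) := by ring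
        rw [h4]
        exact ENNReal.mul_div_cancel (by norm_num) (by norm_num)

end Pool.Agent.Lib.MP_562b47_mp
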