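import Mathlib
import Pool.Agent.Lib.MP_562b47_mp.Cc.Approx

/-!
A function which does not change when one coordinate is resampled is constant.
(Anderson model, MP_562b47_mp.)
-/

open MeasureTheory Set Filter Topology Complex
open scoped Real ENNReal NNReal InnerProductSpace

set_option linter.unusedSectionVars false

namespace Pool.Agent.Lib.MP_562b47_mp

variable {Λ : Type*} [DecidableEq Λ] [AddCommGroup Λ] [Countable Λ] {c : ℝ}

/-- the function can be approximated by a constant as well as by any function of finitely many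
coordinates -/
theorem cc_zero_const {Λ : Type*} [DecidableEq Λ] {ν : Measure ℝ} [IsProbabilityMeasure ν]
    {f : (Λ → ℝ) → ℂ} (hf : Measurable f)
    (h : ∀ y, ∀ᵐ p ∂((Measure.infinitePi fun _ : Λ => ν).prod ν),
      f (Function.update p.1 y p.2) = f p.1) (J : Finset Λ) :
    ∀ g : (Λ → ℝ) → ℂ, Measurable g → (∃ K, ∀ ω, ‖g ω‖ ≤ K) →
      (∀ ω ω', (∀ j ∈ J, ω j = ω' j) → g ω = g ω') →
      ∃ κ : ℂ, ∫⁻ ω, ‖f ω - κ‖ₑ ^ 2 ∂(Measure.infinitePi fun _ : Λ => ν)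
        ≤ ∫⁻ ω, ‖f ω - g ω‖ₑ ^ 2 ∂(Measure.infinitePi fun _ : Λ => ν) := by
  classical
  induction J using Finset.induction_on with
  | empty =>
    intro g hg _ hJ
    refine ⟨g 0, le_of_eq ?_⟩
    refine lintegral_congr fun ω => ?_
    rw [hJ ω 0 (by simp)]
  | insert y J hy ih =>
    intro g hg ⟨K, hK⟩ hJ
    set μ := Measure.infinitePi fun _ : Λ => ν with hμ
    set g' : (Λ → ℝ) → ℂ := fun ω => ∫ v, g (Function.update ω y v) ∂ν with hg'
    have hgm : Measurable (fun p : (Λ → ℝ) × ℝ => g (Function.update p.1 y p.2)) :=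
      hg.comp (measurable_upd y)
    have hg'm : Measurable g' := by
      have h1 : StronglyMeasurable
          (Function.uncurry fun (ω : Λ → ℝ) (v : ℝ) => g (Function.update ω y v)) :=
        hgm.stronglyMeasurable
      exact (h1.integral_prod_right (ν := ν)).measurable
    have hgi : ∀ ω, Integrable (fun v => g (Function.update ω y v)) ν := by
      intro ω
      refine Integrable.of_bound (C := K) ?_ (ae_of_all _ fun v => hK _)
      exact (hgm.comp (measurable_const.prodMk measurable_id)).aestronglyMeasurable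
    have hg'b : ∀ ω, ‖g' ω‖ ≤ K := by
      intro ω
      have := norm_integral_le_of_norm_le_const (μ := ν) (f := fun v => g (Function.update ω y v))
        (C := K) (ae_of_all _ fun v => hK _)
      simpa using this
    have hg'J : ∀ ω ω', (∀ j ∈ J, ω j = ω' j) → g' ω = g' ω' := by
      intro ω ω' hω
      simp only [hg']
      refine integral_congr_ae (ae_of_all _ fun v => ?_)
      refine hJ _ _ fun j hj => ?_
      rcases Finset.mem_insert.1 hj with rfl | hj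
      · simp
      · have hjy : j ≠ y := fun hh => hy (hh ▸ hj)
        rw [Function.update_of_ne hjy, Function.update_of_ne hjy, hω j hj]
    obtain ⟨κ, hκ⟩ := ih g' hg'm ⟨K, hg'b⟩ hg'J
    refine ⟨κ, hκ.trans ?_⟩
    -- the main estimate
    have h1 : ∀ ω, ‖f ω - g' ω‖ₑ ^ 2 ≤ ∫⁻ v, ‖f ω - g (Function.update ω y v)‖ₑ ^ 2 ∂ν := by
      intro ω
      have e1 : f ω - g' ω = ∫ v, (f ω - g (Function.update ω y v)) ∂ν := by
        rw [integral_sub (integrable_const _) (hgi ω)]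
        simp [hg']
      rw [e1]
      exact cc_enorm_integral_sq_le ν
        ((integrable_const _).sub (hgi ω)).aestronglyMeasurable
    have hm2 : Measurable fun p : (Λ → ℝ) × ℝ => ‖f p.1 - g (Function.update p.1 y p.2)‖ₑ ^ 2 :=
      ((hf.comp measurable_fst).sub hgm).enorm.pow_const 2
    calc ∫⁻ ω, ‖f ω - g' ω‖ₑ ^ 2 ∂μ
        ≤ ∫⁻ ω, ∫⁻ v, ‖f ω - g (Function.update ω y v)‖ₑ ^ 2 ∂ν ∂μ := lintegral_mono h1
      _ = ∫⁻ p, ‖f p.1 - g (Function.update p.1 y p.2)‖ₑ ^ 2 ∂(μ.prod ν) := by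
          rw [lintegral_prod _ hm2.aemeasurable]
      _ = ∫⁻ p, ‖f (Function.update p.1 y p.2) - g (Function.update p.1 y p.2)‖ₑ ^ 2
            ∂(μ.prod ν) := by
          refine lintegral_congr_ae ?_
          filter_upwards [h y] with p hp
          rw [hp]
      _ = ∫⁻ ω, ‖f ω - g ω‖ₑ ^ 2 ∂μ := by
          have hm3 : Measurable fun ω => ‖f ω - g ω‖ₑ ^ 2 := (hf.sub hg).enorm.pow_const 2
          rw [← (measurePreserving_upd ν y).lintegral_comp hm3]

omit [AddCommGroup Λ] in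
/-- a function which does not change when one coordinate is resampled is constant -/
theorem ae_const_of_upd (hc : 0 < c) {f : (Λ → ℝ) → ℂ} (hf : Measurable f) {C : ℝ}
    (hC : ∀ ω, ‖f ω‖ ≤ C)
    (h : ∀ y, ∀ᵐ p ∂((PP Λ c).prod (unif c)), f (Function.update p.1 y p.2) = f p.1) :
    ∀ᵐ ω ∂(PP Λ c), f ω = ∫ ω', f ω' ∂(PP Λ c) := by
  have hU := unif_prob hc
  have hP : IsProbabilityMeasure (PP Λ c) := by unfold PP; infer_instance
  set m := ∫ ω', f ω' ∂(PP Λ c) with hm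
  have hfi : Integrable f (PP Λ c) :=
    Integrable.of_bound (C := C) hf.aestronglyMeasurable (ae_of_all _ hC)
  have hmf : Measurable fun ω => ‖f ω - m‖ₑ ^ 2 := (hf.sub measurable_const).enorm.pow_const 2
  have h0 : ∀ ε : ℝ≥0∞, ε ≠ 0 → ∫⁻ ω, ‖f ω - m‖ₑ ^ 2 ∂(PP Λ c) ≤ 2 * (ε + ε) := by
    intro ε hε
    obtain ⟨g, hg1, hg2, ⟨J, hg3⟩, hg4⟩ := cc_approx (PP Λ c) hf hC hε
    obtain ⟨κ, hκ⟩ := cc_zero_const hf h J g hg1 hg2 hg3
    have hκ' : ∫⁻ ω, ‖f ω - κ‖ₑ ^ 2 ∂(PP Λ c) ≤ ε := hκ.trans hg4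
    have h2 : ‖m - κ‖ₑ ^ 2 ≤ ε := by
      have e1 : m - κ = ∫ ω, (f ω - κ) ∂(PP Λ c) := by
        rw [integral_sub hfi (integrable_const _)]
        simp [hm]
      rw [e1]
      exact (cc_enorm_integral_sq_le _ (hfi.sub (integrable_const _)).aestronglyMeasurable).trans
        hκ'
    have h3 : ∀ ω, ‖f ω - m‖ₑ ^ 2 ≤ 2 * (‖f ω - κ‖ₑ ^ 2 + ‖m - κ‖ₑ ^ 2) := by
      intro ω
      have e1 : ‖f ω - m‖ₑ ≤ ‖f ω - κ‖ₑ + ‖m - κ‖ₑ := by
        have : f ω - m = (f ω - κ) - (m - κ) := by ring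
        rw [this]
        exact enorm_sub_le
      calc ‖f ω - m‖ₑ ^ 2 ≤ (‖f ω - κ‖ₑ + ‖m - κ‖ₑ) ^ 2 := by gcongr
        _ ≤ 2 * (‖f ω - κ‖ₑ ^ 2 + ‖m - κ‖ₑ ^ 2) := by
            have h8 := ENNReal.rpow_add_le_mul_rpow_add_rpow ‖f ω - κ‖ₑ ‖m - κ‖ₑ
              (show (1:ℝ) ≤ 2 by norm_num)
            have h9 : (2:ℝ≥0∞) ^ ((2:ℝ) - 1) = 2 := by norm_num
            rw [h9] at h8
            simpa using h8
    calc ∫⁻ ω, ‖f ω - m‖ₑ ^ 2 ∂(PP Λ c)
        ≤ ∫⁻ ω, 2 * (‖f ω - κ‖ₑ ^ 2 + ‖m - κ‖ₑ ^ 2) ∂(PP Λ c) := lintegral_mono h3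
      _ = 2 * (∫⁻ ω, ‖f ω - κ‖ₑ ^ 2 ∂(PP Λ c) + ‖m - κ‖ₑ ^ 2) := by
          have hm4 : Measurable fun ω => ‖f ω - κ‖ₑ ^ 2 :=
            (hf.sub measurable_const).enorm.pow_const 2
          rw [lintegral_const_mul _ (hm4.add_const _),
            lintegral_add_right _ measurable_const]
          simp
      _ ≤ 2 * (ε + ε) := by gcongr
  have h5 : ∫⁻ ω, ‖f ω - m‖ₑ ^ 2 ∂(PP Λ c) = 0 := by
    by_contra hne
    set I := ∫⁻ ω, ‖f ω - m‖ₑ ^ 2 ∂(PP Λ c) with hI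
    have hfin : I ≠ ∞ := by
      intro htop
      have := h0 1 (by simp)
      rw [htop] at this
      norm_num at this
    have h6 := h0 (I / 8) (by
      intro h7
      rw [ENNReal.div_eq_zero_iff] at h7
      rcases h7 with h7 | h7
      · exact hne h7
      · norm_num at h7)
    have h7 : 2 * (I / 8 + I / 8) = I / 2 := by
      rw [← two_mul, ← mul_assoc, div_eq_mul_inv, div_eq_mul_inv, ← mul_assoc,
        mul_comm _ I, mul_assoc]
      congr 1
      rw [show (2:ℝ≥0∞) * 2 = ((4:ℝ≥0) : ℝ≥0∞) by norm_num,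
        show (8:ℝ≥0∞)⁻¹ = (((8:ℝ≥0)⁻¹ : ℝ≥0) : ℝ≥0∞) by
          rw [ENNReal.coe_inv (by norm_num)]; norm_num,
        show (2:ℝ≥0∞)⁻¹ = (((2:ℝ≥0)⁻¹ : ℝ≥0) : ℝ≥0∞) by
          rw [ENNReal.coe_inv (by norm_num)]; norm_num,
        ← ENNReal.coe_mul]
      congr 1
      norm_num
    rw [h7] at h6
    exact absurd (ENNReal.half_lt_self hne hfin) (not_lt.2 h6)
  rw [lintegral_eq_zero_iff hmf] at h5
  filter_upwards [h5] with ω hω
  have : ‖f ω - m‖ₑ ^ 2 = 0 := hω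
  rw [pow_eq_zero_iff two_ne_zero, enorm_eq_zero, sub_eq_zero] at this
  exact this

end Pool.Agent.Lib.MP_562b47_mp
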