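import Mathlib
import Pool.Agent.Lib.MP_562b47_mp.Cc.Inv
import Pool.Agent.Lib.MP_562b47_mp.Cc.Tools
import Pool.Agent.Lib.MP_562b47_mp.Cc.Conj
import Pool.Agent.Lib.MP_562b47_mp.Cc.Loc
import Pool.Agent.Lib.MP_562b47_mp.Cc.XXx
import Pool.Agent.Lib.MP_562b47_mp.Cc.Lim
import Pool.Agent.Lib.MP_562b47_mp.Cc.Zero

/-!
The common limit eigenvalue of a covariant operator which commutes with the Anderson operator.
(Anderson model, MP_562b47_mp.)
-/

open MeasureTheory Set Filter Topology Complex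
open scoped Real ENNReal NNReal InnerProductSpace

set_option linter.unusedSectionVars false

namespace Pool.Agent.Lib.MP_562b47_mp

variable {Λ : Type*} [DecidableEq Λ] [AddCommGroup Λ] [Countable Λ] {E : Type*}
  [NormedAddCommGroup E] [InnerProductSpace ℂ E] [CompleteSpace E] {c : ℝ} {e : Λ → E}
  {H : (Λ → ℝ) → (E →L[ℂ] E)} {B : (Λ → ℝ) → (E →L[ℂ] E)} {φ : ℕ → ℕ}

/-- the points where all limits exist -/
def Good (e : Λ → E) (H B : (Λ → ℝ) → (E →L[ℂ] E)) (φ : ℕ → ℕ) (p : (Λ → ℝ) × ℝ) : Prop :=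
  Commute (B p.1) (H p.1) ∧ ∀ x,
    (∃ l, Tendsto (fun k => n11 e H (φ k) x p) atTop (𝓝 l)) ∧
    (∃ m, Tendsto (fun k => n12 e H B (φ k) x p) atTop (𝓝 m)) ∧
    Tendsto (fun k => n11 e H (φ k) x p * (n11 e H (φ k) x p * n22 e H B (φ k) x p
      - ‖n12 e H B (φ k) x p‖ ^ 2)) atTop (𝓝 0)

/-- limit density -/
noncomputable def nl (e : Λ → E) (H : (Λ → ℝ) → (E →L[ℂ] E)) (φ : ℕ → ℕ) (x : Λ)
    (p : (Λ → ℝ) × ℝ) : ℝ := limUnder atTop (fun k => n11 e H (φ k) x p)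

/-- limit of the mixed terms -/
noncomputable def ml (e : Λ → E) (H B : (Λ → ℝ) → (E →L[ℂ] E)) (φ : ℕ → ℕ) (x : Λ)
    (p : (Λ → ℝ) × ℝ) : ℂ := limUnder atTop (fun k => n12 e H B (φ k) x p)

/-- limit eigenvalue -/
noncomputable def bt (e : Λ → E) (H B : (Λ → ℝ) → (E →L[ℂ] E)) (φ : ℕ → ℕ) (x : Λ)
    (p : (Λ → ℝ) × ℝ) : ℂ :=
  if 0 < nl e H φ x p then ml e H B φ x p / (nl e H φ x p : ℂ) else 0

theorem Good.nl {p : (Λ → ℝ) × ℝ} (h : Good e H B φ p) (x : Λ) :
    Tendsto (fun k => n11 e H (φ k) x p) atTop (𝓝 (nl e H φ x p)) :=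
  tendsto_nhds_limUnder (h.2 x).1

theorem Good.ml {p : (Λ → ℝ) × ℝ} (h : Good e H B φ p) (x : Λ) :
    Tendsto (fun k => n12 e H B (φ k) x p) atTop (𝓝 (ml e H B φ x p)) :=
  tendsto_nhds_limUnder (h.2 x).2.1

theorem n11_nonneg (e : Λ → E) (H : (Λ → ℝ) → (E →L[ℂ] E)) (k : ℕ) (x : Λ) (p : (Λ → ℝ) × ℝ) :
    0 ≤ n11 e H k x p := by
  unfold n11
  have := Zt_im_pos (tk_pos k) p.2
  positivity

theorem Model.n11_pos (M : Model c e H) (k : ℕ) (x : Λ) (p : (Λ → ℝ) × ℝ) :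
    0 < n11 e H k x p := by
  unfold n11
  have h1 := Zt_im_pos (tk_pos k) p.2
  have h2 := norm_pos_iff.mpr (Rv_ne_zero (M.sa p.1) h1.ne' (M.ortho.ne_zero x))
  positivity

theorem Good.nl_nonneg {p : (Λ → ℝ) × ℝ} (h : Good e H B φ p) (x : Λ) :
    0 ≤ Pool.Agent.Lib.MP_562b47_mp.nl e H φ x p :=
  ge_of_tendsto' (h.nl x) fun k => n11_nonneg e H (φ k) x p

theorem n_expand (e : Λ → E) (H B : (Λ → ℝ) → (E →L[ℂ] E)) (k : ℕ) (x : Λ) (p : (Λ → ℝ) × ℝ)
    (β : ℂ) : (Zt (tk k) p.2).im * ‖Rv (H p.1) (Zt (tk k) p.2) (B p.1 (e x) - β • e x)‖ ^ 2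
      = n22 e H B k x p - 2 * ((starRingEnd ℂ) β * n12 e H B k x p).re
        + ‖β‖ ^ 2 * n11 e H k x p := by
  unfold n22 n12 n11
  rw [map_sub, map_smul, norm_sub_rev, norm_sub_sq (𝕜 := ℂ), norm_smul, inner_smul_left]
  simp only [RCLike.re_to_complex]
  set z := Zt (tk k) p.2
  set P := ⟪Rv (H p.1) z (e x), Rv (H p.1) z (B p.1 (e x))⟫_ℂ
  have e1 : ((starRingEnd ℂ) β * ((z.im : ℂ) * P)).re = z.im * ((starRingEnd ℂ) β * P).re := by
    rw [← Complex.re_ofReal_mul]; congr 1; ring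
  rw [e1]
  ring

theorem n12_sq_le (e : Λ → E) (H B : (Λ → ℝ) → (E →L[ℂ] E)) (k : ℕ) (x : Λ)
    (p : (Λ → ℝ) × ℝ) : ‖n12 e H B k x p‖ ^ 2 ≤ n11 e H k x p * n22 e H B k x p := by
  unfold n12 n11 n22
  have hz := Zt_im_pos (tk_pos k) p.2
  set z := Zt (tk k) p.2
  rw [norm_mul, mul_pow, Complex.norm_real, Real.norm_eq_abs, sq_abs]
  have h1 := norm_inner_le_norm (𝕜 := ℂ) (Rv (H p.1) z (e x)) (Rv (H p.1) z (B p.1 (e x)))
  have h2 := pow_le_pow_left₀ (norm_nonneg _) h1 2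
  calc z.im ^ 2 * ‖⟪Rv (H p.1) z (e x), Rv (H p.1) z (B p.1 (e x))⟫_ℂ‖ ^ 2
      ≤ z.im ^ 2 * (‖Rv (H p.1) z (e x)‖ * ‖Rv (H p.1) z (B p.1 (e x))‖) ^ 2 :=
        mul_le_mul_of_nonneg_left h2 (by positivity)
    _ = _ := by ring

theorem n22_le {K : ℝ} {p : (Λ → ℝ) × ℝ} (hK : ‖B p.1‖ ≤ K) (h : Commute (B p.1) (H p.1))
    (k : ℕ) (x : Λ) : n22 e H B k x p ≤ K ^ 2 * n11 e H k x p := by
  unfold n11 n22
  have hz := Zt_im_pos (tk_pos k) p.2
  set z := Zt (tk k) p.2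
  rw [← commute_apply (commute_Rv h z)]
  have h1 : ‖B p.1 (Rv (H p.1) z (e x))‖ ≤ K * ‖Rv (H p.1) z (e x)‖ :=
    (ContinuousLinearMap.le_opNorm _ _).trans (mul_le_mul_of_nonneg_right hK (norm_nonneg _))
  have h2 := pow_le_pow_left₀ (norm_nonneg _) h1 2
  calc z.im * ‖B p.1 (Rv (H p.1) z (e x))‖ ^ 2
      ≤ z.im * (K * ‖Rv (H p.1) z (e x)‖) ^ 2 := mul_le_mul_of_nonneg_left h2 hz.le
    _ = _ := by ring

theorem Model.good_eig (M : Model c e H) {p : (Λ → ℝ) × ℝ} (h : Good e H B φ p) (x : Λ) :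
    EigAt e H B φ p.1 p.2 x (bt e H B φ x p) := by
  by_cases hn : 0 < nl e H φ x p
  · have h1 := h.nl x
    have h2 := h.ml x
    have h3 := (h.2 x).2.2
    set n := nl e H φ x p with hnn
    set m := ml e H B φ x p with hm
    have hb : bt e H B φ x p = m / (n : ℂ) := by unfold bt; rw [if_pos hn]
    rw [hb]
    have h4 : Tendsto (fun k => n22 e H B (φ k) x p) atTop (𝓝 (‖m‖ ^ 2 / n)) := by
      have h5 := (h3.add ((h2.norm.pow 2).mul h1)).div (h1.pow 2) (by positivity)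
      have e1 : (0 + ‖m‖ ^ 2 * n) / n ^ 2 = ‖m‖ ^ 2 / n := by field_simp; ring
      rw [e1] at h5
      refine h5.congr fun k => ?_
      have h6 := M.n11_pos (φ k) x p
      rw [Pi.div_apply]
      field_simp
      ring
    unfold EigAt
    have h5 := (h4.sub ((Complex.continuous_re.tendsto _).comp
      (h2.const_mul ((starRingEnd ℂ) (m / (n : ℂ)))) |>.const_mul 2)).add
      (h1.const_mul (‖m / (n : ℂ)‖ ^ 2))
    have e2 : ‖m‖ ^ 2 / n - 2 * ((starRingEnd ℂ) (m / (n : ℂ)) * m).re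
        + ‖m / (n : ℂ)‖ ^ 2 * n = 0 := by
      have e3 : (starRingEnd ℂ) (m / (n : ℂ)) * m = ((‖m‖ ^ 2 / n : ℝ) : ℂ) := by
        rw [map_div₀, Complex.conj_ofReal, div_mul_eq_mul_div, mul_comm, Complex.mul_conj,
          Complex.normSq_eq_norm_sq]
        push_cast; ring
      rw [e3, Complex.ofReal_re, norm_div, Complex.norm_real, Real.norm_of_nonneg hn.le]
      field_simp
      ring
    rw [e2] at h5
    refine h5.congr fun k => ?_
    rw [n_expand]
    rfl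
  · have h0 : nl e H φ x p = 0 := le_antisymm (not_lt.mp hn) (h.nl_nonneg x)
    have h1 := h.nl x
    rw [h0] at h1
    exact eigAt_of_zero h.1 h1 _

theorem Good.bt_le {K : ℝ} {p : (Λ → ℝ) × ℝ} (hK : ‖B p.1‖ ≤ K) (h : Good e H B φ p) (x : Λ) :
    ‖bt e H B φ x p‖ ≤ K := by
  have hK0 : 0 ≤ K := (norm_nonneg _).trans hK
  by_cases hn : 0 < Pool.Agent.Lib.MP_562b47_mp.nl e H φ x p
  · unfold bt
    rw [if_pos hn]
    have h1 := h.nl x
    have h2 := h.ml x
    set n := Pool.Agent.Lib.MP_562b47_mp.nl e H φ x p with hnn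
    set m := Pool.Agent.Lib.MP_562b47_mp.ml e H B φ x p with hm
    have h3 : ‖m‖ ^ 2 ≤ n * (K ^ 2 * n) := by
      refine le_of_tendsto_of_tendsto' (h2.norm.pow 2) (h1.mul (h1.const_mul (K ^ 2)))
        fun k => ?_
      exact (n12_sq_le e H B (φ k) x p).trans (mul_le_mul_of_nonneg_left (n22_le hK h.1 (φ k) x)
        (n11_nonneg e H (φ k) x p))
    rw [norm_div, Complex.norm_real, Real.norm_of_nonneg hn.le, div_le_iff₀ hn]
    refine le_of_sq_le_sq ?_ (by positivity)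
    calc ‖m‖ ^ 2 ≤ n * (K ^ 2 * n) := h3
      _ = (K * n) ^ 2 := by ring
  · unfold bt
    rw [if_neg hn, norm_zero]
    exact hK0

theorem Model.measurable_nl (M : Model c e H) (x : Λ) : Measurable (nl e H φ x) :=
  (StronglyMeasurable.limUnder fun k => (M.measurable_n11 (φ k) x).stronglyMeasurable).measurable

theorem Model.measurable_ml (M : Model c e H)
    (hBm : ∀ x y, Measurable fun ω => ⟪e x, B ω (e y)⟫_ℂ) (x : Λ) :
    Measurable (ml e H B φ x) :=
  (StronglyMeasurable.limUnder fun k =>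
    (M.measurable_n12 hBm (φ k) x).stronglyMeasurable).measurable

theorem Model.measurable_bt (M : Model c e H)
    (hBm : ∀ x y, Measurable fun ω => ⟪e x, B ω (e y)⟫_ℂ) (x : Λ) :
    Measurable (bt e H B φ x) := by
  unfold bt
  refine Measurable.ite (measurableSet_lt measurable_const (M.measurable_nl x)) ?_
    measurable_const
  exact (M.measurable_ml hBm x).div (Complex.measurable_ofReal.comp (M.measurable_nl x))

/-! ### The subsequence -/

theorem Model.exists_good (M : Model c e H) (hcov : ShiftCov e H) (hD : HasDens H) {K : ℝ}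
    (hC : CovComm c e H B K) :
    ∃ φ : ℕ → ℕ, StrictMono φ ∧ (∀ᵐ p ∂((PP Λ c).prod kap), Good e H B φ p) ∧
      ∀ᵐ q ∂(M3 Λ c), ∀ x, Tendsto (fun k => (Zt (tk (φ k)) q.2).im
        * ‖(B (up q) - B q.1.1) (Rv (H (up q)) (Zt (tk (φ k)) q.2) (e x))‖ ^ 2) atTop (𝓝 0) := by
  have := PP_prob Λ M.hc
  have := M3_prob Λ M.hc
  have := unif_prob M.hc
  obtain ⟨B', hB'1, hB'2, hB'3⟩ := M.exists_conj B
  have hBm' : ∀ x y, Measurable fun ω => ⟪e x, B' ω (e y)⟫_ℂ := by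
    intro x y
    simp_rw [hB'1]
    exact Complex.continuous_conj.measurable.comp (hC.meas x y)
  have hBc' : ∀ a x y, ∀ᵐ ω ∂(PP Λ c), ⟪e x, B' (fun j => ω (j + a)) (e y)⟫_ℂ
        = ⟪e (x + a), B' ω (e (y + a))⟫_ℂ := by
    intro a x y
    filter_upwards [hC.cov a x y] with ω hω
    rw [hB'1, hB'1, hω]
  have hX := fun x => M.null_XXx hcov hC.meas hC.cov (M.locApprox_of_bdd hC.bdd hC.meas) x
  have hX' := fun x => M.null_XXx hcov hBm' hBc'
    (M.locApprox_of_bdd (fun ω => (hB'2 ω).trans (hC.bdd ω)) hBm') x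
  have hcl := M.null_claim hC hB'1 hB'3 (hX 0) (hX' 0)
  obtain ⟨φ, hφ, h1⟩ := M.exists_lim hD hC.meas
  -- the countable family
  obtain ⟨ψ, hψ, h2⟩ := exists_subseq_null (μ := M3 Λ c) (ι := Option Λ)
    (a := fun i => match i with
      | none => fun k q => ENNReal.ofReal (n11 e H k 0 (q.1.1, q.2)
          * (n11 e H k 0 (q.1.1, q.2) * n22 e H B k 0 (q.1.1, q.2)
            - ‖n12 e H B k 0 (q.1.1, q.2)‖ ^ 2))
      | some x => fun k q => ENNReal.ofReal (Zt (tk k) q.2).im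
          * ‖(B (up q) - B q.1.1) (Rv (H (up q)) (Zt (tk k) q.2) (e x))‖ₑ ^ 2)
    (by
      rintro (_ | x) k
      · have hm : Measurable fun q : ((Λ → ℝ) × ℝ) × ℝ => (q.1.1, q.2) := by fun_prop
        have e1 := (M.measurable_n11 k 0).comp hm
        have e2 := (M.measurable_n22 hC.meas k 0).comp hm
        have e3 := (M.measurable_n12 hC.meas k 0).comp hm
        exact (e1.mul ((e1.mul e2).sub (e3.norm.pow_const 2))).ennreal_ofReal
      · exact M.measurable_XXx hC.meas k x)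
    (by
      rintro (_ | x)
      · exact hcl
      · exact hX x) hφ
  refine ⟨φ ∘ ψ, hφ.comp hψ, ?_, ?_⟩
  · -- the claim at all sites
    have h3 : ∀ᵐ p ∂((PP Λ c).prod kap), Tendsto (fun k => ENNReal.ofReal
        (n11 e H (φ (ψ k)) 0 p * (n11 e H (φ (ψ k)) 0 p * n22 e H B (φ (ψ k)) 0 p
          - ‖n12 e H B (φ (ψ k)) 0 p‖ ^ 2))) atTop (𝓝 0) := by
      have h4 : MeasurableSet {p : (Λ → ℝ) × ℝ | Tendsto (fun k => ENNReal.ofReal
        (n11 e H (φ (ψ k)) 0 p * (n11 e H (φ (ψ k)) 0 p * n22 e H B (φ (ψ k)) 0 p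
          - ‖n12 e H B (φ (ψ k)) 0 p‖ ^ 2))) atTop (𝓝 0)} := by
        refine measurableSet_tendsto (𝓝 0) fun k => ?_
        have e1 := M.measurable_n11 (φ (ψ k)) 0
        have e2 := M.measurable_n22 hC.meas (φ (ψ k)) 0
        have e3 := M.measurable_n12 hC.meas (φ (ψ k)) 0
        exact (e1.mul ((e1.mul e2).sub (e3.norm.pow_const 2))).ennreal_ofReal
      rw [← (mp_old (Λ := Λ) M.hc).map_eq, ae_map_iff (mp_old M.hc).measurable.aemeasurable h4]
      filter_upwards [h2] with q hq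
      exact hq none
    have h5 : ∀ᵐ p ∂((PP Λ c).prod kap), ∀ x, Tendsto (fun k => ENNReal.ofReal
        (n11 e H (φ (ψ k)) x p * (n11 e H (φ (ψ k)) x p * n22 e H B (φ (ψ k)) x p
          - ‖n12 e H B (φ (ψ k)) x p‖ ^ 2))) atTop (𝓝 0) := by
      rw [ae_all_iff]
      intro a
      have hT : MeasurePreserving
          (Prod.map (fun ω => fun j => ω (j + a)) id : (Λ → ℝ) × ℝ → (Λ → ℝ) × ℝ)
          ((PP Λ c).prod kap) ((PP Λ c).prod kap) :=
        (measurePreserving_shift (Λ := Λ) (unif c) a).prod (MeasurePreserving.id kap)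
      have h6 := hT.quasiMeasurePreserving.ae h3
      have h7 : ∀ᵐ ω ∂(PP Λ c), ∀ x y, ⟪e x, B (fun j => ω (j + a)) (e y)⟫_ℂ
          = ⟪e (x + a), B ω (e (y + a))⟫_ℂ := by
        rw [ae_all_iff]; intro x
        rw [ae_all_iff]; intro y
        exact hC.cov a x y
      have h8 := (Measure.quasiMeasurePreserving_fst (μ := PP Λ c) (ν := kap)).ae h7
      filter_upwards [h6, h8] with p hp hp2
      refine hp.congr fun k => ?_
      have e1 := n11_shift hcov M (φ (ψ k)) 0 a p.1 p.2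
      have e2 := n22_shift hcov M (φ (ψ k)) 0 a p.1 hp2 p.2
      have e3 := n12_shift hcov M (φ (ψ k)) 0 a p.1 hp2 p.2
      rw [zero_add] at e1 e2 e3
      simp only [Prod.map, id]
      rw [e1, e2, e3]
    have h9 := (Measure.quasiMeasurePreserving_fst (μ := PP Λ c) (ν := kap)).ae hC.comm
    filter_upwards [h1, h5, h9] with p hp1 hp2 hp3
    refine ⟨hp3, fun x => ⟨?_, ?_, ?_⟩⟩
    · obtain ⟨l, hl⟩ := (hp1 x).1
      exact ⟨l, hl.comp hψ.tendsto_atTop⟩
    · obtain ⟨l, hl⟩ := (hp1 x).2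
      exact ⟨l, hl.comp hψ.tendsto_atTop⟩
    · have h10 := (ENNReal.tendsto_toReal ENNReal.zero_ne_top).comp (hp2 x)
      rw [ENNReal.toReal_zero] at h10
      refine h10.congr fun k => ?_
      simp only [Function.comp]
      rw [ENNReal.toReal_ofReal]
      exact mul_nonneg (n11_nonneg _ _ _ _ _) (sub_nonneg.mpr (n12_sq_le _ _ _ _ _ _))
  · filter_upwards [h2] with q hq x
    have h10 := (ENNReal.tendsto_toReal ENNReal.zero_ne_top).comp (hq (some x))
    rw [ENNReal.toReal_zero] at h10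
    refine h10.congr fun k => ?_
    simp only [Function.comp]
    rw [ENNReal.toReal_mul, ENNReal.toReal_ofReal (Zt_im_pos (tk_pos _) q.2).le,
      ENNReal.toReal_pow, toReal_enorm]

/-! ### Invariance -/

theorem ae_unif_of_subsingleton {S : Set ℝ} (h : ∀ v₁ ∈ S, ∀ v₂ ∈ S, clp c v₁ = clp c v₂) :
    ∀ᵐ v ∂(unif c), v ∉ S := by
  by_cases hS : ∃ v₀, v₀ ∈ S
  · obtain ⟨v₀, hv₀⟩ := hS
    filter_upwards [ae_clp_ne c v₀] with v hv hvS
    exact hv (h v hvS v₀ hv₀)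
  · exact ae_of_all _ fun v hv => hS ⟨v, hv⟩

/-- positivity of the limit density does not change -/
theorem Model.pos_iff (M : Model c e H) (hgood : ∀ᵐ p ∂((PP Λ c).prod kap), Good e H B φ p)
    (x : Λ) :
    ∀ᵐ q ∂(M3 Λ c), (0 < nl e H φ x (q.1.1, q.2) ↔ 0 < nl e H φ x (up q, q.2)) := by
  have := PP_prob Λ M.hc
  have := M3_prob Λ M.hc
  have := unif_prob M.hc
  set A : Set (((Λ → ℝ) × ℝ) × ℝ) := {q | 0 < nl e H φ x (q.1.1, q.2)} with hA
  set A' : Set (((Λ → ℝ) × ℝ) × ℝ) := {q | 0 < nl e H φ x (up q, q.2)} with hA'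
  have hmo : Measurable fun q : ((Λ → ℝ) × ℝ) × ℝ => (q.1.1, q.2) := by fun_prop
  have hmn : Measurable fun q : ((Λ → ℝ) × ℝ) × ℝ => (up q, q.2) :=
    measurable_up.prodMk measurable_snd
  have hAm : MeasurableSet A :=
    measurableSet_lt measurable_const ((M.measurable_nl x).comp hmo)
  have hA'm : MeasurableSet A' :=
    measurableSet_lt measurable_const ((M.measurable_nl x).comp hmn)
  have hfr : ∀ᵐ p ∂((PP Λ c).prod kap), ∃ C : ℝ≥0,
      ∃ᶠ k in atTop, ‖Gr e H p.1 (Zt (tk (φ k)) p.2) 0 0‖ₑ ≤ C :=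
    (M.tght_Gr 0 0).ae_freq (fun k => (M.continuous_Gr continuous_fst
      (continuous_Zt.comp continuous_snd) (fun p => Zt_im_pos (tk_pos k) p.2) 0 0).enorm.measurable)
      φ
  -- first inclusion
  have h1 : ∀ᵐ q ∂(M3 Λ c), q ∈ A → q ∈ A' := by
    have hsw1 := ae_swap hgood
    have hsw2 := ae_swap hfr
    have hsw3 := ae_swap ((mp_new (Λ := Λ) M.hc).quasiMeasurePreserving.ae hgood)
    have h2 : ∀ᵐ s ∂kap, ∀ᵐ p ∂((PP Λ c).prod (unif c)), (p, s) ∈ A → (p, s) ∈ A' := by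
      filter_upwards [hsw1, hsw2, hsw3] with s hs1 hs2 hs3
      have h4 : ∀ᵐ ω ∂(PP Λ c), ∀ᵐ v ∂(unif c), ((ω, v), s) ∈ A → ((ω, v), s) ∈ A' := by
        have hs3' := Measure.ae_ae_of_ae_prod hs3
        filter_upwards [hs1, hs2, hs3'] with ω h5 h6 h7
        by_cases hpos : 0 < nl e H φ x (ω, s)
        · have h8 : ∀ᵐ v ∂(unif c), v ∉ {v : ℝ | Tendsto (fun k => n11 e H (φ k) x
              (Function.update ω 0 v, s)) atTop (𝓝 0)} := by
            refine ae_unif_of_subsingleton fun v₁ hv₁ v₂ hv₂ => ?_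
            by_contra hne
            obtain ⟨C, hC⟩ := h6
            have h9 : ∃ᶠ k in atTop, ‖Gr e H ω (Zt (tk (φ k)) s) 0 0‖ ≤ (C : ℝ) := by
              refine hC.mono fun k hk => ?_
              have h10 := ENNReal.toReal_mono ENNReal.coe_ne_top hk
              rwa [toReal_enorm, ENNReal.coe_toReal] at h10
            exact M.pos_upd h9 hne hpos (h5.nl x) hv₁ hv₂
          filter_upwards [h7, h8] with v hv1 hv2 _
          show 0 < nl e H φ x (Function.update ω 0 v, s)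
          have hv1' : Good e H B φ (Function.update ω 0 v, s) := hv1
          refine lt_of_le_of_ne (hv1'.nl_nonneg x) fun h0 => hv2 ?_
          have h11 := hv1'.nl x
          rw [← h0] at h11
          exact h11
        · exact ae_of_all _ fun v hv => absurd hv hpos
      rw [Measure.ae_prod_iff_ae_ae]
      · exact h4
      · have hms : Measurable fun p : (Λ → ℝ) × ℝ => (p, s) := by fun_prop
        have e1 : {p : (Λ → ℝ) × ℝ | (p, s) ∈ A → (p, s) ∈ A'}
            = (fun p : (Λ → ℝ) × ℝ => (p, s)) ⁻¹' (Aᶜ ∪ A') := by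
          ext p
          simp only [Set.mem_ofPred_eq, mem_preimage, mem_union, mem_compl_iff]
          tauto
        rw [e1]
        exact hms (hAm.compl.union hA'm)
    have h3 : MeasurableSet {q : ((Λ → ℝ) × ℝ) × ℝ | q ∈ A → q ∈ A'} := by
      have e1 : {q : ((Λ → ℝ) × ℝ) × ℝ | q ∈ A → q ∈ A'} = Aᶜ ∪ A' := by
        ext p
        simp only [Set.mem_ofPred_eq, mem_union, mem_compl_iff]
        tauto
      rw [e1]
      exact hAm.compl.union hA'm
    have h4 := (Measure.ae_prod_iff_ae_ae (μ := kap) (ν := (PP Λ c).prod (unif c))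
      (p := fun w => (w.2, w.1) ∈ A → (w.2, w.1) ∈ A')
      (by
        have e1 : {w : ℝ × ((Λ → ℝ) × ℝ) | (w.2, w.1) ∈ A → (w.2, w.1) ∈ A'}
            = Prod.swap ⁻¹' {q : ((Λ → ℝ) × ℝ) × ℝ | q ∈ A → q ∈ A'} := rfl
        rw [e1]
        exact measurable_swap h3)).mpr h2
    have h5 := (Measure.measurePreserving_swap (μ := (PP Λ c).prod (unif c))
      (ν := kap)).quasiMeasurePreserving.ae h4
    exact h5
  have h2 : M3 Λ c A' ≤ M3 Λ c A := by
    have e1 := (mp_old (Λ := Λ) M.hc).measure_preimage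
      (s := {p : (Λ → ℝ) × ℝ | 0 < nl e H φ x p})
      (measurableSet_lt measurable_const (M.measurable_nl x)).nullMeasurableSet
    have e2 := (mp_new (Λ := Λ) M.hc).measure_preimage
      (s := {p : (Λ → ℝ) × ℝ | 0 < nl e H φ x p})
      (measurableSet_lt measurable_const (M.measurable_nl x)).nullMeasurableSet
    exact (e2.trans e1.symm).le
  have h3 := ae_eq_of_ae_subset_of_measure_ge (show A ≤ᵐ[M3 Λ c] A' from h1) h2
    hAm.nullMeasurableSet (measure_ne_top _ _)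
  filter_upwards [h3] with q hq
  exact iff_of_eq hq

/-- the limit eigenvalue does not change under the change of the potential at `0` -/
theorem Model.bt_upd (M : Model c e H) (hgood : ∀ᵐ p ∂((PP Λ c).prod kap), Good e H B φ p)
    (hX : ∀ᵐ q ∂(M3 Λ c), ∀ x, Tendsto (fun k => (Zt (tk (φ k)) q.2).im
        * ‖(B (up q) - B q.1.1) (Rv (H (up q)) (Zt (tk (φ k)) q.2) (e x))‖ ^ 2) atTop (𝓝 0)) :
    ∀ᵐ q ∂(M3 Λ c), ∀ x, bt e H B φ x (up q, q.2) = bt e H B φ x (q.1.1, q.2) := by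
  have := PP_prob Λ M.hc
  have := M3_prob Λ M.hc
  have := unif_prob M.hc
  have h1 : ∀ᵐ q ∂(M3 Λ c), ∀ x, (0 < nl e H φ x (q.1.1, q.2) ↔ 0 < nl e H φ x (up q, q.2)) := by
    rw [ae_all_iff]; exact M.pos_iff hgood
  have h2 := (mp_new (Λ := Λ) M.hc).quasiMeasurePreserving.ae hgood
  have h3 := (mp_old (Λ := Λ) M.hc).quasiMeasurePreserving.ae hgood
  have h4 : ∀ᵐ p ∂((PP Λ c).prod kap), ∀ x, ∃ C : ℝ≥0,
      ∃ᶠ k in atTop, ‖Gr e H p.1 (Zt (tk (φ k)) p.2) 0 x‖ₑ ≤ C := by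
    rw [ae_all_iff]; intro x
    exact (M.tght_Gr 0 x).ae_freq (fun k => (M.continuous_Gr continuous_fst
      (continuous_Zt.comp continuous_snd) (fun p => Zt_im_pos (tk_pos k) p.2) 0 x).enorm.measurable)
      φ
  have h5 := (mp_new (Λ := Λ) M.hc).quasiMeasurePreserving.ae h4
  filter_upwards [h1, h2, h3, h5, hX] with q hq1 hq2 hq3 hq4 hq5 x
  by_cases hpos : 0 < nl e H φ x (q.1.1, q.2)
  · have hpos' := (hq1 x).mp hpos
    obtain ⟨C, hC⟩ := hq4 x
    have h9 : ∃ᶠ k in atTop, ‖Gr e H (up q) (Zt (tk (φ k)) q.2) 0 x‖ ≤ (C : ℝ) := by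
      refine hC.mono fun k hk => ?_
      have h10 := ENNReal.toReal_mono ENNReal.coe_ne_top hk
      rwa [toReal_enorm, ENNReal.coe_toReal] at h10
    exact M.eig_upd (ω := q.1.1) (v := q.1.2) (s := q.2) hq3.1 hq2.1 h9 (M.good_eig hq3 x)
      (M.good_eig hq3 0) (M.good_eig hq2 x) (hq5 x) hpos (hq3.nl x) hpos' (hq2.nl x)
  · have hpos' := fun h => hpos ((hq1 x).mpr h)
    unfold bt
    rw [if_neg hpos, if_neg hpos']

theorem n_shift_lim (M : Model c e H) (hcov : ShiftCov e H) (x a : Λ) (ω : Λ → ℝ)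
    (h : ∀ x y, ⟪e x, B (fun j => ω (j + a)) (e y)⟫_ℂ = ⟪e (x + a), B ω (e (y + a))⟫_ℂ) (s : ℝ) :
    bt e H B φ x (fun j => ω (j + a), s) = bt e H B φ (x + a) (ω, s) := by
  have e1 : nl e H φ x (fun j => ω (j + a), s) = nl e H φ (x + a) (ω, s) := by
    unfold nl
    congr 1
    funext k
    exact n11_shift hcov M (φ k) x a ω s
  have e2 : ml e H B φ x (fun j => ω (j + a), s) = ml e H B φ (x + a) (ω, s) := by
    unfold ml
    congr 1
    funext k
    exact n12_shift hcov M (φ k) x a ω h s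
  unfold bt
  rw [e1, e2]

/-- the limit eigenvalue does not change under the change of the potential at any site -/
theorem Model.bt_upd_all (M : Model c e H) (hcov : ShiftCov e H)
    (hBc : ∀ a x y, ∀ᵐ ω ∂(PP Λ c), ⟪e x, B (fun j => ω (j + a)) (e y)⟫_ℂ
        = ⟪e (x + a), B ω (e (y + a))⟫_ℂ)
    (h0 : ∀ᵐ q ∂(M3 Λ c), ∀ x, bt e H B φ x (up q, q.2) = bt e H B φ x (q.1.1, q.2)) (y : Λ) :
    ∀ᵐ q ∂(M3 Λ c), ∀ x, bt e H B φ x (Function.update q.1.1 y q.1.2, q.2)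
      = bt e H B φ x (q.1.1, q.2) := by
  have := PP_prob Λ M.hc
  have := M3_prob Λ M.hc
  have := unif_prob M.hc
  have hsh := measurePreserving_shift (Λ := Λ) (unif c) y
  have hT : MeasurePreserving
      (Prod.map (Prod.map (fun ω => fun j => ω (j + y)) id) id :
        ((Λ → ℝ) × ℝ) × ℝ → ((Λ → ℝ) × ℝ) × ℝ) (M3 Λ c) (M3 Λ c) :=
    (hsh.prod (MeasurePreserving.id (unif c))).prod (MeasurePreserving.id kap)
  have h1 := hT.quasiMeasurePreserving.ae h0
  have h7 : ∀ᵐ ω ∂(PP Λ c), ∀ x z, ⟪e x, B (fun j => ω (j + y)) (e z)⟫_ℂ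
      = ⟪e (x + y), B ω (e (z + y))⟫_ℂ := by
    rw [ae_all_iff]; intro x
    rw [ae_all_iff]; intro z
    exact hBc y x z
  have h8 := (qmp_old (Λ := Λ) M.hc).ae h7
  have h9 : ∀ᵐ q ∂(M3 Λ c), ∀ x z,
      ⟪e x, B (fun j => Function.update q.1.1 y q.1.2 (j + y)) (e z)⟫_ℂ
      = ⟪e (x + y), B (Function.update q.1.1 y q.1.2) (e (z + y))⟫_ℂ := by
    have h10 := (measurePreserving_upd (Λ := Λ) (unif c) y).quasiMeasurePreserving.ae h7
    have h11 := (Measure.quasiMeasurePreserving_fst (μ := (PP Λ c).prod (unif c))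
      (ν := kap)).ae h10
    exact h11
  filter_upwards [h1, h8, h9] with q hq1 hq2 hq3 x
  have e1 := n_shift_lim (φ := φ) M hcov (x - y) y q.1.1 hq2 q.2
  have e2 := n_shift_lim (φ := φ) M hcov (x - y) y (Function.update q.1.1 y q.1.2) hq3 q.2
  rw [sub_add_cancel] at e1 e2
  rw [← e1, ← e2]
  have e3 := hq1 (x - y)
  simp only [Prod.map, id] at e3
  rw [← e3]
  congr 2
  funext j
  show Function.update q.1.1 y q.1.2 (j + y) = Function.update (fun j => q.1.1 (j + y)) 0 q.1.2 j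
  by_cases hj : j = 0
  · subst hj
    rw [zero_add, Function.update_self, Function.update_self]
  · rw [Function.update_of_ne hj, Function.update_of_ne (by simpa using hj)]

/-- **The common limit eigenvalue.** -/
theorem Model.exists_alpha (M : Model c e H) (hcov : ShiftCov e H) (hD : HasDens H) {K : ℝ}
    (hC : CovComm c e H B K) :
    ∃ α : ℝ → ℂ, Measurable α ∧ (∀ s, ‖α s‖ ≤ K) ∧ ∃ φ : ℕ → ℕ, StrictMono φ ∧
      ∀ᵐ ω ∂(PP Λ c), ∀ᵐ s ∂kap, ∀ x, EigAt e H B φ ω s x (α s) := by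
  have := PP_prob Λ M.hc
  have := M3_prob Λ M.hc
  have := unif_prob M.hc
  have hK0 : 0 ≤ K := (norm_nonneg _).trans (hC.bdd 0)
  obtain ⟨φ, hφ, hgood, hX⟩ := M.exists_good hcov hD hC
  have hupd := M.bt_upd_all hcov hC.cov (M.bt_upd hgood hX)
  set F : Λ → (Λ → ℝ) × ℝ → ℂ := fun x p => if ‖bt e H B φ x p‖ ≤ K then bt e H B φ x p else 0
    with hF
  have hFm : ∀ x, Measurable (F x) := fun x =>
    Measurable.ite (measurableSet_le (M.measurable_bt hC.meas x).norm measurable_const)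
      (M.measurable_bt hC.meas x) measurable_const
  have hFb : ∀ x p, ‖F x p‖ ≤ K := by
    intro x p
    simp only [hF]
    split_ifs with h
    · exact h
    · rwa [norm_zero]
  have hFbt : ∀ᵐ p ∂((PP Λ c).prod kap), ∀ x, F x p = bt e H B φ x p := by
    filter_upwards [hgood] with p hp x
    simp only [hF]
    rw [if_pos (hp.bt_le (hC.bdd _) x)]
  have hFeq : ∀ x p p', bt e H B φ x p = bt e H B φ x p' → F x p = F x p' := by
    intro x p p' h
    simp only [hF, h]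
  set α : ℝ → ℂ := fun s => ∫ ω, F 0 (ω, s) ∂(PP Λ c) with hα
  have hαm : Measurable α := by
    have h1 : StronglyMeasurable (fun w : ℝ × (Λ → ℝ) => F 0 (w.2, w.1)) :=
      ((hFm 0).comp measurable_swap).stronglyMeasurable
    exact h1.integral_prod_right.measurable
  have hαb : ∀ s, ‖α s‖ ≤ K := by
    intro s
    calc ‖α s‖ ≤ ∫ ω, ‖F 0 (ω, s)‖ ∂(PP Λ c) := norm_integral_le_integral_norm _
      _ ≤ ∫ _ω, K ∂(PP Λ c) := by
          refine integral_mono_of_nonneg (ae_of_all _ fun ω => norm_nonneg _)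
            (integrable_const K) (ae_of_all _ fun ω => hFb 0 _)
      _ = K := by simp
  -- the zero-one law
  have h1 : ∀ᵐ s ∂kap, ∀ᵐ ω ∂(PP Λ c), ∀ x, F x (ω, s) = α s := by
    have h2 : ∀ᵐ s ∂kap, ∀ y, ∀ᵐ p ∂((PP Λ c).prod (unif c)), ∀ x,
        F x (Function.update p.1 y p.2, s) = F x (p.1, s) := by
      rw [ae_all_iff]; intro y
      filter_upwards [ae_swap (hupd y)] with s hs
      filter_upwards [hs] with p hp x
      exact hFeq x _ _ (hp x)
    filter_upwards [h2] with s hs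
    rw [ae_all_iff]; intro x
    have h3 := ae_const_of_upd (Λ := Λ) M.hc (f := fun ω => F x (ω, s))
      ((hFm x).comp (by fun_prop)) (fun ω => hFb x _) (fun y => by
        filter_upwards [hs y] with p hp
        exact hp x)
    have h4 : ∫ ω, F x (ω, s) ∂(PP Λ c) = α s := by
      have hsh := measurePreserving_shift (Λ := Λ) (unif c) x
      have h7 : ∀ᵐ ω ∂(PP Λ c), ∀ z w, ⟪e z, B (fun j => ω (j + x)) (e w)⟫_ℂ
          = ⟪e (z + x), B ω (e (w + x))⟫_ℂ := by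
        rw [ae_all_iff]; intro z
        rw [ae_all_iff]; intro w
        exact hC.cov x z w
      have h5 : ∫ ω, F x (ω, s) ∂(PP Λ c)
          = ∫ ω, (fun ω => F 0 (ω, s)) (fun j => ω (j + x)) ∂(PP Λ c) := by
        refine integral_congr_ae ?_
        filter_upwards [h7] with ω hω
        have e1 := n_shift_lim (φ := φ) M hcov 0 x ω hω s
        rw [zero_add] at e1
        show F x (ω, s) = F 0 (fun j => ω (j + x), s)
        simp only [hF, e1]
      rw [h5, hα]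
      have h6 := integral_map (μ := PP Λ c) (φ := fun ω : Λ → ℝ => fun j => ω (j + x))
        (f := fun ω => F 0 (ω, s)) hsh.measurable.aemeasurable
        ((hFm 0).comp (by fun_prop : Measurable fun ω : Λ → ℝ => (ω, s))).aestronglyMeasurable
      have h8 : Measure.map (fun ω : Λ → ℝ => fun j => ω (j + x)) (PP Λ c) = PP Λ c := hsh.map_eq
      rw [h8] at h6
      exact h6.symm
    filter_upwards [h3] with ω hω
    rw [hω, h4]
  have h2 : ∀ᵐ p ∂((PP Λ c).prod kap), ∀ x, F x p = α p.2 := by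
    rw [ae_all_iff]; intro x
    have hms : MeasurableSet {p : (Λ → ℝ) × ℝ | F x p = α p.2} :=
      measurableSet_eq_fun (hFm x) (hαm.comp measurable_snd)
    rw [Measure.ae_prod_iff_ae_ae hms]
    have h3 : ∀ᵐ s ∂kap, ∀ᵐ ω ∂(PP Λ c), F x (ω, s) = α s := by
      filter_upwards [h1] with s hs
      filter_upwards [hs] with ω hω using hω x
    exact (Measure.ae_ae_comm (μ := PP Λ c) (ν := kap) (p := fun ω s => F x (ω, s) = α s)
      hms).mpr h3
  refine ⟨α, hαm, hαb, φ, hφ, ?_⟩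
  have h3 : ∀ᵐ p ∂((PP Λ c).prod kap), ∀ x, EigAt e H B φ p.1 p.2 x (α p.2) := by
    filter_upwards [hgood, h2, hFbt] with p hp1 hp2 hp3 x
    rw [← hp2 x, hp3 x]
    exact M.good_eig hp1 x
  exact Measure.ae_ae_of_ae_prod h3

end Pool.Agent.Lib.MP_562b47_mp
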