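import Mathlib
import Pool.Agent.Lib.MP_562b47_mp.Cc.Defs
import Pool.Agent.Lib.MP_562b47_mp.Rank

/-!
The error term goes to zero in measure for every vector.  (Anderson model, MP_562b47_mp.)
-/

open MeasureTheory Set Filter Topology Complex
open scoped Real ENNReal NNReal InnerProductSpace

set_option linter.unusedSectionVars false

namespace Pool.Agent.Lib.MP_562b47_mp

variable {Λ : Type*} [DecidableEq Λ] [AddCommGroup Λ] [Countable Λ] {E : Type*}
  [NormedAddCommGroup E] [InnerProductSpace ℂ E] [CompleteSpace E] {c : ℝ} {e : Λ → E}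
  {H : (Λ → ℝ) → (E →L[ℂ] E)} {B : (Λ → ℝ) → (E →L[ℂ] E)}

theorem cc_SpecA_cont {H : E →L[ℂ] E} (hH : IsSelfAdjoint H) {t : ℝ} (ht : 0 < t) (v : E) :
    Continuous fun s : ℝ => Rv H (Zt t s) v := by
  have h1 : Continuous fun s : ℝ => Rv H (Zt t s) := by
    unfold Rv
    rw [continuous_iff_continuousAt]
    intro s
    obtain ⟨w, hw⟩ := isUnit_sub hH (Zt_im_pos ht s).ne'
    have h2 : ContinuousAt Ring.inverse (H - algebraMap ℂ (E →L[ℂ] E) (Zt t s)) := by
      rw [← hw]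
      exact NormedRing.inverse_continuousAt w
    have h3 : Continuous fun s : ℝ => H - algebraMap ℂ (E →L[ℂ] E) (Zt t s) :=
      continuous_const.sub ((continuous_algebraMap ℂ (E →L[ℂ] E)).comp
        continuous_Zt)
    exact ContinuousAt.comp (f := fun s : ℝ => H - algebraMap ℂ (E →L[ℂ] E) (Zt t s)) h2
      h3.continuousAt
  exact h1.clm_apply continuous_const

theorem cc_SpecA_meas {H B : E →L[ℂ] E} (hH : IsSelfAdjoint H) {t : ℝ} (ht : 0 < t)
    {α : ℝ → ℂ} (hα : Measurable α) (v : E) :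
    Measurable fun s : ℝ => ENNReal.ofReal (Zt t s).im
      * ‖Rv H (Zt t s) (B v - α s • v)‖ₑ ^ 2 := by
  have h1 : StronglyMeasurable fun s : ℝ => Rv H (Zt t s) (B v - α s • v) := by
    have h2 : (fun s : ℝ => Rv H (Zt t s) (B v - α s • v))
        = fun s => Rv H (Zt t s) (B v) - α s • Rv H (Zt t s) v := by
      funext s; rw [map_sub, map_smul]
    rw [h2]
    exact (cc_SpecA_cont hH ht (B v)).stronglyMeasurable.sub
      (hα.stronglyMeasurable.smul (cc_SpecA_cont hH ht v).stronglyMeasurable)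
  refine Measurable.mul ?_ (h1.enorm.pow_const 2)
  exact ENNReal.measurable_ofReal.comp (Complex.continuous_im.comp continuous_Zt).measurable

/-- the square root of the error -/
theorem cc_SpecA_span {H B : E →L[ℂ] E} {α : ℝ → ℂ} {φ : ℕ → ℕ} {s : ℝ}
    (h : ∀ x, Tendsto (fun k => (Zt (tk (φ k)) s).im
      * ‖Rv H (Zt (tk (φ k)) s) (B (e x) - α s • e x)‖ ^ 2) atTop (𝓝 0)) {u : E}
    (hu : u ∈ Submodule.span ℂ (Set.range e)) :
    Tendsto (fun k => (Zt (tk (φ k)) s).im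
      * ‖Rv H (Zt (tk (φ k)) s) (B u - α s • u)‖ ^ 2) atTop (𝓝 0) := by
  have hnn : ∀ k, 0 ≤ (Zt (tk (φ k)) s).im := fun k => (Zt_im_pos (tk_pos _) s).le
  have key : ∀ v : E, (Tendsto (fun k => (Zt (tk (φ k)) s).im
      * ‖Rv H (Zt (tk (φ k)) s) (B v - α s • v)‖ ^ 2) atTop (𝓝 0)) ↔
      Tendsto (fun k => √(Zt (tk (φ k)) s).im
      * ‖Rv H (Zt (tk (φ k)) s) (B v - α s • v)‖) atTop (𝓝 0) := by
    intro v
    constructor
    · intro h1
      have h2 := (Real.continuous_sqrt.tendsto 0).comp h1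
      rw [Real.sqrt_zero] at h2
      refine h2.congr fun k => ?_
      show √((Zt (tk (φ k)) s).im * ‖Rv H (Zt (tk (φ k)) s) (B v - α s • v)‖ ^ 2) = _
      rw [Real.sqrt_mul (hnn k), Real.sqrt_sq (norm_nonneg _)]
    · intro h1
      have h2 := h1.pow 2
      rw [zero_pow two_ne_zero] at h2
      refine h2.congr fun k => ?_
      rw [mul_pow, Real.sq_sqrt (hnn k)]
  rw [key]
  induction hu using Submodule.span_induction with
  | mem v hv =>
    obtain ⟨x, rfl⟩ := hv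
    exact (key _).1 (h x)
  | zero => simp
  | add v w _ _ hv hw =>
    have h3 := hv.add hw
    rw [add_zero] at h3
    refine squeeze_zero (fun k => by positivity) (fun k => ?_) h3
    have h4 : B (v + w) - α s • (v + w) = (B v - α s • v) + (B w - α s • w) := by
      rw [map_add, smul_add]; abel
    rw [h4, map_add, ← mul_add]
    exact mul_le_mul_of_nonneg_left (norm_add_le _ _) (Real.sqrt_nonneg _)
  | smul a v _ hv =>
    have h3 := hv.const_mul ‖a‖
    rw [mul_zero] at h3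
    refine h3.congr fun k => ?_
    have h4 : B (a • v) - α s • (a • v) = a • (B v - α s • v) := by
      rw [map_smul, smul_sub, smul_comm]
    rw [h4, map_smul, norm_smul]
    ring

theorem cc_SpecA_dense (ho : Orthonormal ℂ e) (tot : ∀ u : E, (∀ x, ⟪e x, u⟫_ℂ = 0) → u = 0)
    (ψ : E) {δ : ℝ} (hδ : 0 < δ) : ∃ u ∈ Submodule.span ℂ (Set.range e), ‖ψ - u‖ < δ := by
  have h1 : (Submodule.span ℂ (Set.range e)).topologicalClosure = ⊤ := by
    rw [Submodule.topologicalClosure_eq_top_iff, Submodule.eq_bot_iff]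
    intro u hu
    refine tot u fun x => ?_
    rw [Submodule.mem_orthogonal] at hu
    exact hu _ (Submodule.subset_span ⟨x, rfl⟩)
  have h2 : ψ ∈ closure ((Submodule.span ℂ (Set.range e) : Submodule ℂ E) : Set E) := by
    rw [← Submodule.topologicalClosure_coe, h1]
    trivial
  obtain ⟨u, hu, hd⟩ := Metric.mem_closure_iff.1 h2 δ hδ
  exact ⟨u, hu, by rwa [dist_eq_norm] at hd⟩

/-- the error goes to zero in measure for every vector -/
theorem null_all {H B : E →L[ℂ] E} (hH : IsSelfAdjoint H) (hcomm : Commute B H) {K : ℝ}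
    (hK : ‖B‖ ≤ K) {α : ℝ → ℂ} (hα : Measurable α) (hαK : ∀ s, ‖α s‖ ≤ K)
    (ho : Orthonormal ℂ e) (tot : ∀ u : E, (∀ x, ⟪e x, u⟫_ℂ = 0) → u = 0) {φ : ℕ → ℕ}
    (hφ : StrictMono φ)
    (h : ∀ᵐ s ∂kap, ∀ x, Tendsto (fun k => (Zt (tk (φ k)) s).im
      * ‖Rv H (Zt (tk (φ k)) s) (B (e x) - α s • e x)‖ ^ 2) atTop (𝓝 0)) (ψ : E) :
    Null kap (fun k s => ENNReal.ofReal (Zt (tk (φ k)) s).im
      * ‖Rv H (Zt (tk (φ k)) s) (B ψ - α s • ψ)‖ₑ ^ 2) := by
  have hK0 : 0 ≤ K := (norm_nonneg _).trans hK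
  set A : E → ℕ → ℝ → ℝ≥0∞ := fun v k s => ENNReal.ofReal (Zt (tk (φ k)) s).im
      * ‖Rv H (Zt (tk (φ k)) s) (B v - α s • v)‖ₑ ^ 2 with hA
  have hAm : ∀ v k, Measurable (A v k) := fun v k => cc_SpecA_meas hH (tk_pos _) hα v
  -- bound of the integral
  have hbd : ∀ v k, ∫⁻ s, A v k s ∂kap ≤ ENNReal.ofReal (4 * K ^ 2 * ‖v‖ ^ 2) := by
    intro v k
    have h1 : ∀ s, A v k s ≤ ENNReal.ofReal (4 * K ^ 2) * (ENNReal.ofReal (Zt (tk (φ k)) s).im
        * ‖Rv H (Zt (tk (φ k)) s) v‖ₑ ^ 2) := by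
      intro s
      have h2 : ‖Rv H (Zt (tk (φ k)) s) (B v - α s • v)‖
          ≤ 2 * K * ‖Rv H (Zt (tk (φ k)) s) v‖ := by
        rw [map_sub, map_smul, ← commute_apply (commute_Rv hcomm _)]
        refine (norm_sub_le _ _).trans ?_
        rw [norm_smul]
        have h3 := (B.le_opNorm (Rv H (Zt (tk (φ k)) s) v)).trans
          (mul_le_mul_of_nonneg_right hK (norm_nonneg _))
        have h4 := mul_le_mul_of_nonneg_right (hαK s) (norm_nonneg (Rv H (Zt (tk (φ k)) s) v))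
        linarith
      have h5 : ‖Rv H (Zt (tk (φ k)) s) (B v - α s • v)‖ₑ ^ 2
          ≤ ENNReal.ofReal (4 * K ^ 2) * ‖Rv H (Zt (tk (φ k)) s) v‖ₑ ^ 2 := by
        rw [← ofReal_norm, ← ofReal_norm, ← ENNReal.ofReal_pow (norm_nonneg _),
          ← ENNReal.ofReal_pow (norm_nonneg _), ← ENNReal.ofReal_mul (by positivity)]
        refine ENNReal.ofReal_le_ofReal ?_
        calc ‖Rv H (Zt (tk (φ k)) s) (B v - α s • v)‖ ^ 2
            ≤ (2 * K * ‖Rv H (Zt (tk (φ k)) s) v‖) ^ 2 :=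
              pow_le_pow_left₀ (norm_nonneg _) h2 2
          _ = _ := by ring
      calc A v k s ≤ ENNReal.ofReal (Zt (tk (φ k)) s).im
            * (ENNReal.ofReal (4 * K ^ 2) * ‖Rv H (Zt (tk (φ k)) s) v‖ₑ ^ 2) := by
            simp only [hA]; gcongr
        _ = _ := by ring
    calc ∫⁻ s, A v k s ∂kap ≤ ∫⁻ s, ENNReal.ofReal (4 * K ^ 2)
          * (ENNReal.ofReal (Zt (tk (φ k)) s).im * ‖Rv H (Zt (tk (φ k)) s) v‖ₑ ^ 2) ∂kap :=
          lintegral_mono h1
      _ = ENNReal.ofReal (4 * K ^ 2) * ∫⁻ s, ENNReal.ofReal (Zt (tk (φ k)) s).im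
          * ‖Rv H (Zt (tk (φ k)) s) v‖ₑ ^ 2 ∂kap :=
          lintegral_const_mul' _ _ ENNReal.ofReal_ne_top
      _ ≤ ENNReal.ofReal (4 * K ^ 2) * ‖v‖ₑ ^ 2 := by
          gcongr
          exact lintegral_Rv_le hH (tk_pos _) v
      _ = _ := by
          rw [← ofReal_norm, ← ENNReal.ofReal_pow (norm_nonneg _),
            ← ENNReal.ofReal_mul (by positivity)]
  -- vectors of the span
  have hspan : ∀ u ∈ Submodule.span ℂ (Set.range e), Null kap (A u) := by
    intro u hu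
    have h1 : Tendsto (fun k => ∫⁻ s, min 1 (A u k s) ∂kap) atTop (𝓝 (∫⁻ _s, 0 ∂kap)) := by
      refine tendsto_lintegral_of_dominated_convergence (fun _ => 1)
        (fun n => measurable_const.min (hAm u n)) (fun n => ae_of_all _ fun x =>
          min_le_left _ _) (by simp) ?_
      filter_upwards [h] with s hs
      have h2 := cc_SpecA_span hs hu
      have h3 := ENNReal.tendsto_ofReal h2
      rw [ENNReal.ofReal_zero] at h3
      have h4 : Tendsto (fun k => A u k s) atTop (𝓝 0) := by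
        refine h3.congr fun k => ?_
        simp only [hA]
        rw [ENNReal.ofReal_mul (Zt_im_pos (tk_pos _) s).le, ENNReal.ofReal_pow (norm_nonneg _),
          ofReal_norm]
      have h5 : Tendsto (fun n : ℕ => min 1 (A u n s)) atTop (𝓝 (min 1 0)) :=
        tendsto_const_nhds.min h4
      simpa using h5
    rw [lintegral_zero] at h1
    exact h1
  show Null kap (A ψ)
  unfold Null
  rw [ENNReal.tendsto_atTop_zero]
  intro ε hε
  -- choose the approximation
  obtain ⟨ε', hε'0, hε'⟩ : ∃ ε' : ℝ, 0 < ε' ∧ ENNReal.ofReal ε' ≤ ε := by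
    rcases eq_or_ne ε ⊤ with h0 | h0
    · exact ⟨1, one_pos, by rw [h0]; exact le_top⟩
    · exact ⟨ε.toReal, ENNReal.toReal_pos hε.ne' h0, by rw [ENNReal.ofReal_toReal h0]⟩
  obtain ⟨δ, hδ0, hδ⟩ : ∃ δ : ℝ, 0 < δ ∧ 8 * K ^ 2 * δ ^ 2 ≤ ε' / 2 := by
    refine ⟨√(ε' / (16 * (K ^ 2 + 1))), Real.sqrt_pos.2 (by positivity), ?_⟩
    rw [Real.sq_sqrt (by positivity)]
    rw [mul_div_assoc', div_le_div_iff₀ (by positivity) (by norm_num)]
    nlinarith [sq_nonneg K]
  obtain ⟨u, hu, hud⟩ := cc_SpecA_dense ho tot ψ hδ0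
  have hsp := hspan u hu
  unfold Null at hsp
  rw [ENNReal.tendsto_atTop_zero] at hsp
  obtain ⟨N, hN⟩ := hsp (ENNReal.ofReal (ε' / 4)) (ENNReal.ofReal_pos.2 (by positivity))
  refine ⟨N, fun k hk => ?_⟩
  have h1 : ∀ s, min 1 (A ψ k s) ≤ 2 * min 1 (A u k s) + 2 * A (ψ - u) k s := by
    intro s
    have h2 : ‖Rv H (Zt (tk (φ k)) s) (B ψ - α s • ψ)‖
        ≤ ‖Rv H (Zt (tk (φ k)) s) (B u - α s • u)‖
          + ‖Rv H (Zt (tk (φ k)) s) (B (ψ - u) - α s • (ψ - u))‖ := by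
      refine le_trans (le_of_eq ?_) (norm_add_le _ _)
      rw [← map_add]
      congr 2
      rw [map_sub, smul_sub]; abel
    have h3 : A ψ k s ≤ 2 * A u k s + 2 * A (ψ - u) k s := by
      simp only [hA]
      have h4 : ‖Rv H (Zt (tk (φ k)) s) (B ψ - α s • ψ)‖ₑ ^ 2
          ≤ 2 * ‖Rv H (Zt (tk (φ k)) s) (B u - α s • u)‖ₑ ^ 2
          + 2 * ‖Rv H (Zt (tk (φ k)) s) (B (ψ - u) - α s • (ψ - u))‖ₑ ^ 2 := by
        simp only [← ofReal_norm]
        rw [← ENNReal.ofReal_pow (norm_nonneg _), ← ENNReal.ofReal_pow (norm_nonneg _),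
          ← ENNReal.ofReal_pow (norm_nonneg _),
          show (2 : ℝ≥0∞) = ENNReal.ofReal 2 by simp,
          ← ENNReal.ofReal_mul (by norm_num), ← ENNReal.ofReal_mul (by norm_num),
          ← ENNReal.ofReal_add (by positivity) (by positivity)]
        refine ENNReal.ofReal_le_ofReal ?_
        have h5 := pow_le_pow_left₀ (norm_nonneg _) h2 2
        refine h5.trans ?_
        nlinarith [sq_nonneg (‖Rv H (Zt (tk (φ k)) s) (B u - α s • u)‖
          - ‖Rv H (Zt (tk (φ k)) s) (B (ψ - u) - α s • (ψ - u))‖)]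
      calc _ ≤ ENNReal.ofReal (Zt (tk (φ k)) s).im
            * (2 * ‖Rv H (Zt (tk (φ k)) s) (B u - α s • u)‖ₑ ^ 2
          + 2 * ‖Rv H (Zt (tk (φ k)) s) (B (ψ - u) - α s • (ψ - u))‖ₑ ^ 2) := by gcongr
        _ = _ := by ring
    rcases le_total 1 (A u k s) with h6 | h6
    · rw [min_eq_left h6]
      refine (min_le_left _ _).trans ?_
      calc (1 : ℝ≥0∞) ≤ 2 * 1 := by norm_num
        _ ≤ _ := le_self_add
    · rw [min_eq_right h6]
      exact (min_le_right _ _).trans h3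
  calc ∫⁻ s, min 1 (A ψ k s) ∂kap
      ≤ ∫⁻ s, (2 * min 1 (A u k s) + 2 * A (ψ - u) k s) ∂kap := lintegral_mono h1
    _ = 2 * ∫⁻ s, min 1 (A u k s) ∂kap + 2 * ∫⁻ s, A (ψ - u) k s ∂kap := by
        rw [lintegral_add_right _ ((hAm _ _).const_mul _), lintegral_const_mul' _ _ (by simp),
          lintegral_const_mul' _ _ (by simp)]
    _ ≤ 2 * ENNReal.ofReal (ε' / 4) + 2 * ENNReal.ofReal (4 * K ^ 2 * δ ^ 2) := by
        gcongr
        · exact hN k hk
        · refine (hbd _ _).trans (ENNReal.ofReal_le_ofReal ?_)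
          have h7 : ‖ψ - u‖ ^ 2 ≤ δ ^ 2 := pow_le_pow_left₀ (norm_nonneg _) hud.le 2
          have h8 : 0 ≤ 4 * K ^ 2 := by positivity
          nlinarith
    _ = ENNReal.ofReal (ε' / 2 + 8 * K ^ 2 * δ ^ 2) := by
        rw [show (2 : ℝ≥0∞) = ENNReal.ofReal 2 by simp,
          ← ENNReal.ofReal_mul (by norm_num), ← ENNReal.ofReal_mul (by norm_num),
          ← ENNReal.ofReal_add (by positivity) (by positivity)]
        congr 1; ring
    _ ≤ ENNReal.ofReal ε' := ENNReal.ofReal_le_ofReal (by linarith)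
    _ ≤ ε := hε'

end Pool.Agent.Lib.MP_562b47_mp
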