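import Mathlib
import Pool.Agent.Lib.MP_562b47_mp.Cc.Defs
import Pool.Agent.Lib.MP_562b47_mp.Rank

/-!
`L¹` convergence of the Poisson integrals of an absolutely continuous measure.
(Anderson model, MP_562b47_mp.)
-/

open MeasureTheory Set Filter Topology Complex
open scoped Real ENNReal NNReal InnerProductSpace

set_option linter.unusedSectionVars false

namespace Pool.Agent.Lib.MP_562b47_mp

/-- `∫ g Dens dκ = ∫ g(l) / (1 + l²) dμ` -/
theorem integral_Dens {μ : Measure ℝ} [IsFiniteMeasure μ] (hac : μ ≪ volume) {g : ℝ → ℂ}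
    (hg : Measurable g) {C : ℝ} (hC : ∀ s, ‖g s‖ ≤ C) :
    ∫ s, g s * (Dens μ s : ℂ) ∂kap = ∫ l, g l * ((1 + l ^ 2)⁻¹ : ℝ) ∂μ := by
  rw [kap_eq, integral_withDensity_eq_integral_toReal_smul (by fun_prop)
    (ae_of_all _ fun x => ENNReal.ofReal_lt_top), ← integral_rnDeriv_smul hac]
  refine integral_congr_ae (ae_of_all _ fun x => ?_)
  have h1 : (ENNReal.ofReal (π⁻¹ * (1 + x ^ 2)⁻¹)).toReal = π⁻¹ * (1 + x ^ 2)⁻¹ :=
    ENNReal.toReal_ofReal (by positivity)
  simp only [h1, Dens, Complex.real_smul]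
  have hpi : (π : ℂ) ≠ 0 := by exact_mod_cast Real.pi_ne_zero
  push_cast
  field_simp

/-- the exact value of the integral of the kernel -/
theorem cc_specb_lintegral_pker {t : ℝ} (ht : 0 < t) (l : ℝ) :
    ∫⁻ E, ENNReal.ofReal (pker (Zt t E) l) ∂kap = ENNReal.ofReal ((1 + l ^ 2)⁻¹) := by
  have hs : 0 < t * (1 + l ^ 2) / (1 + t ^ 2 * l ^ 2) := by positivity
  have hs' : Real.toNNReal (t * (1 + l ^ 2) / (1 + t ^ 2 * l ^ 2)) ≠ 0 := by
    simpa using hs
  have hmeas : Measurable (fun E => pker (Zt t E) l) := by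
    unfold pker Zt
    simp only
    fun_prop
  rw [kap_eq, lintegral_withDensity_eq_lintegral_mul _ (by fun_prop) (by fun_prop)]
  have : ∀ E : ℝ, ((fun x : ℝ => ENNReal.ofReal (π⁻¹ * (1 + x ^ 2)⁻¹)) *
      fun E => ENNReal.ofReal (pker (Zt t E) l)) E =
      ENNReal.ofReal ((1 + l ^ 2)⁻¹) * ProbabilityTheory.cauchyPDF
          (l * (1 - t ^ 2) / (1 + t ^ 2 * l ^ 2))
          (Real.toNNReal (t * (1 + l ^ 2) / (1 + t ^ 2 * l ^ 2))) E := by
    intro E
    simp only [Pi.mul_apply]
    rw [← ENNReal.ofReal_mul (by positivity), mul_comm (π⁻¹ * _), pker_Zt ht,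
      ENNReal.ofReal_mul (by positivity), ProbabilityTheory.cauchyPDF_def]
  rw [lintegral_congr this, lintegral_const_mul _ (by fun_prop),
    ProbabilityTheory.lintegral_cauchyPDF_eq_one _ hs', mul_one]

theorem cc_specb_integrable_weight (μ : Measure ℝ) [IsFiniteMeasure μ] :
    Integrable (fun l : ℝ => (1 + l ^ 2)⁻¹) μ := by
  refine Integrable.of_bound (C := 1) ?_ (ae_of_all _ fun l => ?_)
  · have : Continuous (fun x : ℝ => (1 + x ^ 2)⁻¹) :=
      Continuous.inv₀ (by fun_prop) fun x => by positivity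
    exact this.aestronglyMeasurable
  · rw [Real.norm_of_nonneg (by positivity), inv_le_one_iff₀]
    right
    nlinarith [sq_nonneg l]

/-- the exact value of the mass of the Poisson integral -/
theorem cc_specb_integral_Pois (μ : Measure ℝ) [IsFiniteMeasure μ] {t : ℝ} (ht : 0 < t) :
    ∫ E, Pois μ (Zt t E) ∂kap = ∫ l, (1 + l ^ 2)⁻¹ ∂μ := by
  rw [integral_eq_lintegral_of_nonneg_ae (ae_of_all _ fun E => Pois_nonneg μ (Zt_im_pos ht E))
    (measurable_Pois μ t).aestronglyMeasurable,
    integral_eq_lintegral_of_nonneg_ae (ae_of_all _ fun l => by simp only [Pi.zero_apply]; positivity)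
    (cc_specb_integrable_weight μ).aestronglyMeasurable]
  congr 1
  have h2 : ∫⁻ E, ENNReal.ofReal (Pois μ (Zt t E)) ∂kap
      = ∫⁻ E, (∫⁻ l, ENNReal.ofReal (pker (Zt t E) l) ∂μ) ∂kap :=
    lintegral_congr fun E => ofReal_Pois μ (Zt_im_pos ht E)
  rw [h2, lintegral_lintegral_swap]
  · exact lintegral_congr fun l => cc_specb_lintegral_pker ht l
  · exact (measurable_pker_Zt t).ennreal_ofReal.aemeasurable

theorem cc_specb_integral_Dens {μ : Measure ℝ} [IsFiniteMeasure μ] (hac : μ ≪ volume) :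
    ∫ s, Dens μ s ∂kap = ∫ l, (1 + l ^ 2)⁻¹ ∂μ := by
  have h := integral_Dens hac (g := fun _ => (1 : ℂ)) measurable_const (C := 1)
    (fun s => by simp)
  simp only [one_mul] at h
  rw [integral_complex_ofReal, integral_complex_ofReal] at h
  exact_mod_cast h

theorem cc_specb_tail {D : ℝ → ℝ} (hD : Integrable D kap) (h0 : ∀ s, 0 ≤ D s) :
    Tendsto (fun N : ℕ => ∫ s, max (D s - N) 0 ∂kap) atTop (𝓝 0) := by
  have h : Tendsto (fun N : ℕ => ∫ s, max (D s - N) 0 ∂kap) atTop
      (𝓝 (∫ _ : ℝ, (0:ℝ) ∂kap)) := by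
    refine tendsto_integral_of_dominated_convergence D ?_ hD ?_ ?_
    · intro N
      exact (hD.aestronglyMeasurable.sub aestronglyMeasurable_const).sup aestronglyMeasurable_const
    · intro N
      refine ae_of_all _ fun s => ?_
      rw [Real.norm_of_nonneg (le_max_right _ _)]
      refine max_le ?_ (h0 s)
      have : (0:ℝ) ≤ (N:ℝ) := Nat.cast_nonneg N
      linarith
    · refine ae_of_all _ fun s => ?_
      obtain ⟨n, hn⟩ := exists_nat_ge (D s)
      refine tendsto_const_nhds.congr' ?_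
      filter_upwards [eventually_ge_atTop n] with N hN
      rw [max_eq_right]
      have : (n : ℝ) ≤ N := by exact_mod_cast hN
      linarith
  simpa using h

theorem cc_specb_point (P D : ℝ) (hP : 0 ≤ P) {N : ℝ} (hN : 1 ≤ N) :
    max (D - P) 0 ≤ max (D - N) 0 + N * min 1 |P - D| := by
  have h1 : 0 ≤ max (D - N) 0 := le_max_right _ _
  have h2 : 0 ≤ min 1 |P - D| := le_min zero_le_one (abs_nonneg _)
  refine max_le ?_ (by positivity)
  rcases le_total 1 |P - D| with h | h
  · rw [min_eq_left h]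
    have : D - N ≤ max (D - N) 0 := le_max_left _ _
    linarith
  · rw [min_eq_right h]
    have h3 : D - P ≤ |P - D| := by rw [abs_sub_comm]; exact le_abs_self _
    have h4 : |P - D| ≤ N * |P - D| := by nlinarith [abs_nonneg (P - D)]
    linarith

/-- `L¹` convergence of the Poisson integrals of an absolutely continuous measure -/
theorem pois_tendsto_L1 {μ : Measure ℝ} [IsFiniteMeasure μ] (hac : μ ≪ volume) :
    Tendsto (fun k => ∫ s, |Pois μ (Zt (tk k) s) - Dens μ s| ∂kap) atTop (𝓝 0) := by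
  have hiP : ∀ k, Integrable (fun s => Pois μ (Zt (tk k) s)) kap := fun k =>
    integrable_Pois μ (tk_pos k)
  have hiD : Integrable (Dens μ) kap := integrable_Dens μ
  have hP0 : ∀ k s, 0 ≤ Pois μ (Zt (tk k) s) := fun k s => Pois_nonneg μ (Zt_im_pos (tk_pos k) s)
  have hmin : ∀ k, Integrable (fun s => min 1 |Pois μ (Zt (tk k) s) - Dens μ s|) kap := fun k =>
    integrable_min_one ((measurable_Pois μ (tk k)).sub (measurable_Dens μ)).abs
      fun s => abs_nonneg _
  have hpos : ∀ k, Integrable (fun s => max (Dens μ s - Pois μ (Zt (tk k) s)) 0) kap := fun k =>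
    (hiD.sub (hiP k)).pos_part
  have htail : ∀ N : ℕ, Integrable (fun s => max (Dens μ s - N) 0) kap := fun N =>
    (hiD.sub (integrable_const _)).pos_part
  have key : ∀ k, ∫ s, |Pois μ (Zt (tk k) s) - Dens μ s| ∂kap
      = 2 * ∫ s, max (Dens μ s - Pois μ (Zt (tk k) s)) 0 ∂kap := by
    intro k
    have e1 : ∀ s, |Pois μ (Zt (tk k) s) - Dens μ s| = (Pois μ (Zt (tk k) s) - Dens μ s)
        + 2 * max (Dens μ s - Pois μ (Zt (tk k) s)) 0 := by
      intro s
      rcases le_total (Dens μ s) (Pois μ (Zt (tk k) s)) with h | h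
      · rw [abs_of_nonneg (by linarith), max_eq_right (by linarith)]; ring
      · rw [abs_of_nonpos (by linarith), max_eq_left (by linarith)]; ring
    have e2 : ∫ s, ((Pois μ (Zt (tk k) s) - Dens μ s)
        + 2 * max (Dens μ s - Pois μ (Zt (tk k) s)) 0) ∂kap
        = ∫ s, (Pois μ (Zt (tk k) s) - Dens μ s) ∂kap
          + ∫ s, 2 * max (Dens μ s - Pois μ (Zt (tk k) s)) 0 ∂kap :=
      integral_add ((hiP k).sub hiD) ((hpos k).const_mul 2)
    simp_rw [e1]
    rw [e2, integral_sub (hiP k) hiD,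
      integral_const_mul, cc_specb_integral_Pois μ (tk_pos k), cc_specb_integral_Dens hac]
    ring
  simp_rw [key]
  have hlim : Tendsto (fun k => ∫ s, max (Dens μ s - Pois μ (Zt (tk k) s)) 0 ∂kap) atTop
      (𝓝 0) := by
    rw [tendsto_order]
    refine ⟨fun a ha => Eventually.of_forall fun k => lt_of_lt_of_le ha
      (integral_nonneg fun s => le_max_right _ _), ?_⟩
    intro ε hε
    have h1 := cc_specb_tail hiD (Dens_nonneg μ)
    obtain ⟨N, hN1, hN2⟩ := ((h1.eventually_lt_const (half_pos hε)).and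
      (eventually_ge_atTop 1)).exists
    have hN : (1 : ℝ) ≤ N := by exact_mod_cast hN2
    have h2 := (pois_tendsto μ).comp tendsto_tk
    have h3 : ∀ᶠ k in atTop, ∫ s, min 1 |Pois μ (Zt (tk k) s) - Dens μ s| ∂kap < ε / 2 / N :=
      h2.eventually_lt_const (by positivity)
    filter_upwards [h3] with k hk
    calc ∫ s, max (Dens μ s - Pois μ (Zt (tk k) s)) 0 ∂kap
        ≤ ∫ s, (max (Dens μ s - N) 0 + N * min 1 |Pois μ (Zt (tk k) s) - Dens μ s|) ∂kap :=
          integral_mono (hpos k) ((htail N).add ((hmin k).const_mul _)) fun s =>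
            cc_specb_point _ _ (hP0 k s) hN
      _ = ∫ s, max (Dens μ s - N) 0 ∂kap
          + N * ∫ s, min 1 |Pois μ (Zt (tk k) s) - Dens μ s| ∂kap := by
          rw [integral_add (htail N) ((hmin k).const_mul _), integral_const_mul]
      _ < ε / 2 + N * (ε / 2 / N) := by
          have : (N : ℝ) * ∫ s, min 1 |Pois μ (Zt (tk k) s) - Dens μ s| ∂kap
              < N * (ε / 2 / N) := mul_lt_mul_of_pos_left hk (by linarith)
          linarith
      _ = ε := by
          have : (N : ℝ) ≠ 0 := by positivity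
          field_simp
          ring
  simpa using hlim.const_mul 2

end Pool.Agent.Lib.MP_562b47_mp
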