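import Mathlib
import Pool.Agent.Lib.MP_562b47_mp.Cc.Defs

/-!
Sesquilinear boundary values of the resolvent and the continuous functional calculus.
(Anderson model, MP_562b47_mp.)
-/

open MeasureTheory Measure ProbabilityTheory Set Filter Topology Complex
open scoped Real ENNReal NNReal InnerProductSpace

set_option linter.unusedSectionVars false

namespace Pool.Agent.Lib.MP_562b47_mp

variable {E : Type*} [NormedAddCommGroup E] [InnerProductSpace ℂ E] [CompleteSpace E]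

/-- the resolvent is continuous along a continuous curve in the upper half plane -/
theorem cc_specC_continuous_Rv {H : E →L[ℂ] E} (hH : IsSelfAdjoint H) {t : ℝ} (ht : 0 < t)
    (u : E) : Continuous fun s => Rv H (Zt t s) u := by
  have h1 : Continuous fun s : ℝ => Rv H (Zt t s) := by
    rw [continuous_iff_continuousAt]
    intro s
    obtain ⟨U, hU⟩ := isUnit_sub hH (Zt_im_pos ht s).ne'
    have h2 : ContinuousAt (Ring.inverse : (E →L[ℂ] E) → (E →L[ℂ] E))
        (H - algebraMap ℂ (E →L[ℂ] E) (Zt t s)) := by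
      rw [← hU]
      exact NormedRing.inverse_continuousAt U
    have h3 : ContinuousAt (fun s : ℝ => H - algebraMap ℂ (E →L[ℂ] E) (Zt t s)) s := by
      have : Continuous (fun s : ℝ => H - algebraMap ℂ (E →L[ℂ] E) (Zt t s)) :=
        continuous_const.sub ((algebraMapCLM ℂ (E →L[ℂ] E)).continuous.comp continuous_Zt)
      exact this.continuousAt
    exact ContinuousAt.comp (f := fun s : ℝ => H - algebraMap ℂ (E →L[ℂ] E) (Zt t s))
      (g := Ring.inverse) h2 h3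
  exact h1.clm_apply continuous_const

/-- the inner integral against the reference measure -/
theorem cc_specC_inner (f : BoundedContinuousFunction ℝ ℝ) {t : ℝ} (ht : 0 < t) (l : ℝ) :
    ∫ s, f s * pker (Zt t s) l ∂kap
      = (1 + l ^ 2)⁻¹ * (π⁻¹ * ∫ s, pker (Zt t l) s * f s) := by
  rw [kap_eq, integral_withDensity_eq_integral_toReal_smul (by fun_prop)
    (ae_of_all _ fun x => ENNReal.ofReal_lt_top), ← integral_const_mul, ← integral_const_mul]
  refine integral_congr_ae (ae_of_all _ fun s => ?_)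
  have h1 : (ENNReal.ofReal (π⁻¹ * (1 + s ^ 2)⁻¹)).toReal = π⁻¹ * (1 + s ^ 2)⁻¹ :=
    ENNReal.toReal_ofReal (by positivity)
  simp only [h1, smul_eq_mul]
  have h2 := pker_Zt ht s l
  have hs : 0 < t * (1 + l ^ 2) / (1 + t ^ 2 * l ^ 2) := by positivity
  rw [cauchyPDFReal_def, Real.coe_toNNReal _ hs.le] at h2
  have h3 : pker (Zt t l) s = (t * (1 + l ^ 2) / (1 + t ^ 2 * l ^ 2)) *
      ((s - l * (1 - t ^ 2) / (1 + t ^ 2 * l ^ 2)) ^ 2
        + (t * (1 + l ^ 2) / (1 + t ^ 2 * l ^ 2)) ^ 2)⁻¹ := by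
    unfold pker Zt
    simp only
    rw [div_eq_mul_inv]
  have h4 : π⁻¹ * (1 + s ^ 2)⁻¹ * (f s * pker (Zt t s) l)
      = f s * (pker (Zt t s) l * (π⁻¹ * (1 + s ^ 2)⁻¹)) := by ring
  rw [h4, h2, h3]
  ring

theorem cc_specC_bound (f : BoundedContinuousFunction ℝ ℝ) {t : ℝ} (ht : 0 < t) (l : ℝ) :
    |∫ s, f s * pker (Zt t s) l ∂kap| ≤ ‖f‖ := by
  have hm : Measurable (fun s => pker (Zt t s) l) :=
    (measurable_pker_Zt t).comp (measurable_id.prodMk measurable_const)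
  have h0 : ∀ s, 0 ≤ pker (Zt t s) l := fun s => pker_nonneg (Zt_im_pos ht s) l
  have hle := lintegral_pker_kap ht l
  have hint : Integrable (fun s => pker (Zt t s) l) kap := by
    refine ⟨hm.aestronglyMeasurable, ?_⟩
    refine lt_of_le_of_lt ?_ (lt_of_le_of_lt hle ENNReal.one_lt_top)
    refine lintegral_mono fun s => ?_
    rw [Real.enorm_eq_ofReal (h0 s)]
  have h1 : ∫ s, pker (Zt t s) l ∂kap ≤ 1 := by
    rw [integral_eq_lintegral_of_nonneg_ae (ae_of_all _ h0) hm.aestronglyMeasurable]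
    exact ENNReal.toReal_mono ENNReal.one_ne_top hle
  calc |∫ s, f s * pker (Zt t s) l ∂kap| ≤ ∫ s, |f s * pker (Zt t s) l| ∂kap :=
        abs_integral_le_integral_abs
    _ ≤ ∫ s, ‖f‖ * pker (Zt t s) l ∂kap := by
        refine integral_mono_of_nonneg (ae_of_all _ fun s => abs_nonneg _) (hint.const_mul _)
          (ae_of_all _ fun s => ?_)
        simp only
        rw [abs_mul, abs_of_nonneg (h0 s)]
        exact mul_le_mul_of_nonneg_right (f.norm_coe_le_norm s) (h0 s)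
    _ = ‖f‖ * ∫ s, pker (Zt t s) l ∂kap := integral_const_mul _ _
    _ ≤ ‖f‖ * 1 := mul_le_mul_of_nonneg_left h1 (norm_nonneg _)
    _ = ‖f‖ := mul_one _

/-- Fubini -/
theorem cc_specC_fubini (μ : Measure ℝ) [IsFiniteMeasure μ] (f : BoundedContinuousFunction ℝ ℝ)
    {t : ℝ} (ht : 0 < t) :
    ∫ s, f s * Pois μ (Zt t s) ∂kap = ∫ l, (∫ s, f s * pker (Zt t s) l ∂kap) ∂μ := by
  have hint : Integrable (fun p : ℝ × ℝ => pker (Zt t p.1) p.2) (kap.prod μ) := by
    refine ⟨(measurable_pker_Zt t).aestronglyMeasurable, ?_⟩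
    have h1 : ∫⁻ p : ℝ × ℝ, ‖pker (Zt t p.1) p.2‖ₑ ∂(kap.prod μ) ≤ μ univ := by
      refine le_trans (le_of_eq ?_) (lintegral_Pois_le μ ht)
      rw [lintegral_prod _ (measurable_pker_Zt t).enorm.aemeasurable]
      refine lintegral_congr fun s => lintegral_congr fun l => ?_
      rw [Real.enorm_eq_ofReal (pker_nonneg (Zt_im_pos ht s) l)]
    exact lt_of_le_of_lt h1 (measure_lt_top _ _)
  have hint2 : Integrable (fun p : ℝ × ℝ => f p.1 * pker (Zt t p.1) p.2) (kap.prod μ) := by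
    refine hint.bdd_mul (c := ‖f‖) (f.continuous.comp continuous_fst).aestronglyMeasurable ?_
    exact ae_of_all _ fun p => f.norm_coe_le_norm _
  rw [← integral_integral_swap (f := fun s l => f s * pker (Zt t s) l) hint2]
  refine integral_congr_ae (ae_of_all _ fun s => ?_)
  simp only
  rw [integral_const_mul]
  rfl

theorem cc_specC_pois (μ : Measure ℝ) [IsFiniteMeasure μ] (f : BoundedContinuousFunction ℝ ℝ) :
    Tendsto (fun t => ∫ s, f s * Pois μ (Zt t s) ∂kap) (𝓝[>] 0)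
      (𝓝 (∫ l, f l * (1 + l ^ 2)⁻¹ ∂μ)) := by
  have h1 : Tendsto (fun t => ∫ l, (∫ s, f s * pker (Zt t s) l ∂kap) ∂μ) (𝓝[>] 0)
      (𝓝 (∫ l, f l * (1 + l ^ 2)⁻¹ ∂μ)) := by
    refine tendsto_integral_filter_of_dominated_convergence (fun _ => ‖f‖) ?_ ?_
      (integrable_const _) ?_
    · filter_upwards [self_mem_nhdsWithin] with t ht
      have h2 : StronglyMeasurable (Function.uncurry fun s l => f s * pker (Zt t s) l) :=
        ((f.continuous.measurable.comp measurable_fst).mul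
          (measurable_pker_Zt t)).stronglyMeasurable
      exact h2.integral_prod_left.aestronglyMeasurable
    · filter_upwards [self_mem_nhdsWithin] with t ht
      exact ae_of_all _ fun l => cc_specC_bound f ht l
    · refine ae_of_all _ fun l => ?_
      have h3 := Pois_cont_tendsto f.continuous (C := ‖f‖) (fun x => f.norm_coe_le_norm x) l
      have h4 := (h3.const_mul π⁻¹).const_mul (1 + l ^ 2)⁻¹
      have h5 : (1 + l ^ 2)⁻¹ * (π⁻¹ * (π * f l)) = f l * (1 + l ^ 2)⁻¹ := by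
        field_simp
      rw [h5] at h4
      refine h4.congr' ?_
      filter_upwards [self_mem_nhdsWithin] with t ht
      exact (cc_specC_inner f ht l).symm
  refine h1.congr' ?_
  filter_upwards [self_mem_nhdsWithin] with t ht
  exact (cc_specC_fubini μ f ht).symm

/-- the weighted function -/
noncomputable def cc_specC_g (f : BoundedContinuousFunction ℝ ℝ) : BoundedContinuousFunction ℝ ℝ :=
  BoundedContinuousFunction.ofNormedAddCommGroup (fun l => f l * (1 + l ^ 2)⁻¹)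
    (f.continuous.mul (Continuous.inv₀ (by fun_prop) fun x => by positivity)) ‖f‖
    (fun l => by
      rw [norm_mul, Real.norm_of_nonneg (by positivity : (0:ℝ) ≤ (1 + l ^ 2)⁻¹)]
      have h1 : (1 + l ^ 2)⁻¹ ≤ 1 := by
        rw [inv_le_one_iff₀]; right; nlinarith [sq_nonneg l]
      calc ‖f l‖ * (1 + l ^ 2)⁻¹ ≤ ‖f‖ * 1 :=
            mul_le_mul (f.norm_coe_le_norm l) h1 (by positivity) (norm_nonneg _)
        _ = ‖f‖ := mul_one _)

/-- diagonal case -/
theorem cc_specC_diag {H : E →L[ℂ] E} (hH : IsSelfAdjoint H) (u : E)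
    (f : BoundedContinuousFunction ℝ ℝ) :
    (∀ t, 0 < t → Integrable (fun s => ((f s * ((Zt t s).im * ‖Rv H (Zt t s) u‖ ^ 2) : ℝ) : ℂ))
      kap) ∧
    Tendsto (fun t => ∫ s, ((f s * ((Zt t s).im * ‖Rv H (Zt t s) u‖ ^ 2) : ℝ) : ℂ) ∂kap) (𝓝[>] 0)
      (𝓝 ⟪u, cfc (fun l : ℝ => f l * (1 + l ^ 2)⁻¹) H u⟫_ℂ) := by
  obtain ⟨μ, hμf, hμ⟩ := exists_isSpec hH u
  have hP : ∀ t, 0 < t → ∀ s, (Zt t s).im * ‖Rv H (Zt t s) u‖ ^ 2 = Pois μ (Zt t s) :=
    fun t ht s => (hμ.pois hH (Zt_im_pos ht s)).symm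
  refine ⟨fun t ht => ?_, ?_⟩
  · simp only [hP t ht]
    refine Integrable.ofReal ?_
    refine (integrable_Pois μ ht).bdd_mul (c := ‖f‖) f.continuous.aestronglyMeasurable ?_
    exact ae_of_all _ fun s => f.norm_coe_le_norm s
  · have h1 := cc_specC_pois μ f
    have h2 := hμ (cc_specC_g f)
    have h3 : ⇑(cc_specC_g f) = fun l : ℝ => f l * (1 + l ^ 2)⁻¹ := rfl
    rw [h3] at h2
    rw [← h2]
    refine ((Complex.continuous_ofReal.tendsto _).comp h1).congr' ?_
    filter_upwards [self_mem_nhdsWithin] with t ht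
    simp only [Function.comp_apply, hP t ht]
    exact (integral_ofReal).symm

theorem cc_specC_main {H : E →L[ℂ] E} (hH : IsSelfAdjoint H) (ψ w : E)
    (f : BoundedContinuousFunction ℝ ℝ) :
    Tendsto (fun t => ∫ s, (f s : ℂ) * (((Zt t s).im : ℂ)
      * ⟪Rv H (Zt t s) ψ, Rv H (Zt t s) w⟫_ℂ) ∂kap) (𝓝[>] 0)
      (𝓝 ⟪ψ, cfc (fun l : ℝ => f l * (1 + l ^ 2)⁻¹) H w⟫_ℂ) := by
  set T : E →L[ℂ] E := cfc (fun l : ℝ => f l * (1 + l ^ 2)⁻¹) H with hT
  have hsa : IsSelfAdjoint T := sa_cfc _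
  set G : E → ℝ → ℝ → ℂ := fun u t s =>
    ((f s * ((Zt t s).im * ‖Rv H (Zt t s) u‖ ^ 2) : ℝ) : ℂ) with hG
  have hd : ∀ u, (∀ t, 0 < t → Integrable (G u t) kap) ∧
      Tendsto (fun t => ∫ s, G u t s ∂kap) (𝓝[>] 0) (𝓝 ⟪u, T u⟫_ℂ) :=
    fun u => cc_specC_diag hH u f
  have hpt : ∀ t s, (f s : ℂ) * (((Zt t s).im : ℂ)
      * ⟪Rv H (Zt t s) ψ, Rv H (Zt t s) w⟫_ℂ)
      = (G (ψ + w) t s - G (ψ - w) t s + (G (ψ - I • w) t s - G (ψ + I • w) t s) * I) / 4 := by
    intro t s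
    simp only [hG, map_add, map_sub, map_smul]
    rw [inner_eq_sum_norm_sq_div_four]
    simp only [RCLike.I_to_complex, RCLike.ofReal_alg]
    push_cast
    simp only [Complex.real_smul, mul_one]
    ring
  have hlim : ⟪ψ, T w⟫_ℂ = (⟪ψ + w, T (ψ + w)⟫_ℂ - ⟪ψ - w, T (ψ - w)⟫_ℂ
      + (⟪ψ - I • w, T (ψ - I • w)⟫_ℂ - ⟪ψ + I • w, T (ψ + I • w)⟫_ℂ) * I) / 4 := by
    simp only [map_add, map_sub, map_smul, inner_add_left, inner_add_right, inner_sub_left,
      inner_sub_right, inner_smul_left, inner_smul_right, Complex.conj_I]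
    have hI := Complex.I_mul_I
    linear_combination ((1/2) * ⟪ψ, T w⟫_ℂ - (1/2) * ⟪w, T ψ⟫_ℂ) * hI
  rw [hlim]
  have h1 := (((hd (ψ + w)).2.sub (hd (ψ - w)).2).add
    (((hd (ψ - I • w)).2.sub (hd (ψ + I • w)).2).mul_const I)).div_const 4
  refine h1.congr' ?_
  filter_upwards [self_mem_nhdsWithin] with t ht
  have ht : 0 < t := ht
  simp only [hpt]
  have i1 := (hd (ψ + w)).1 t ht
  have i2 := (hd (ψ - w)).1 t ht
  have i3 := (hd (ψ - I • w)).1 t ht
  have i4 := (hd (ψ + I • w)).1 t ht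
  have g1 := integral_add (i1.sub i2) ((i3.sub i4).mul_const I)
  have g2 := integral_sub i1 i2
  have g3 := integral_sub i3 i4
  simp only [Pi.sub_apply] at g1 g2 g3
  rw [integral_div, g1, g2, integral_mul_const, g3]

/-- `lim ∫ f(s) Im z ⟨R ψ, R w⟩ dκ(s) = ⟨ψ, (f / (1 + l²))(H) w⟩` -/
theorem tendsto_sesq {H : E →L[ℂ] E} (hH : IsSelfAdjoint H) (ψ w : E)
    (f : BoundedContinuousFunction ℝ ℝ) :
    Tendsto (fun k => ∫ s, (f s : ℂ) * (((Zt (tk k) s).im : ℂ)
      * ⟪Rv H (Zt (tk k) s) ψ, Rv H (Zt (tk k) s) w⟫_ℂ) ∂kap) atTop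
      (𝓝 ⟪ψ, cfc (fun l : ℝ => f l * (1 + l ^ 2)⁻¹) H w⟫_ℂ) :=
  (cc_specC_main hH ψ w f).comp tendsto_tk

end Pool.Agent.Lib.MP_562b47_mp
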