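import Mathlib
import Pool.Agent.Lib.MP_562b47_mp.Cc.SpecA
import Pool.Agent.Lib.MP_562b47_mp.Cc.SpecB
import Pool.Agent.Lib.MP_562b47_mp.Cc.SpecC

/-!
An operator commuting with `H` is a function of `H` on the absolutely continuous subspace.
(Anderson model, MP_562b47_mp.)
-/

open MeasureTheory Measure ProbabilityTheory Set Filter Topology Complex
open scoped Real ENNReal NNReal InnerProductSpace

set_option linter.unusedSectionVars false

namespace Pool.Agent.Lib.MP_562b47_mp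

variable {Λ : Type*} [DecidableEq Λ] [AddCommGroup Λ] [Countable Λ] {E : Type*}
  [NormedAddCommGroup E] [InnerProductSpace ℂ E] [CompleteSpace E] {c : ℝ} {e : Λ → E}
  {H : (Λ → ℝ) → (E →L[ℂ] E)} {B : (Λ → ℝ) → (E →L[ℂ] E)}

/-- `Dens` is integrable -/
theorem cc_specD_integrable_Dens (μ : Measure ℝ) [IsFiniteMeasure μ] :
    Integrable (Dens μ) kap := by
  unfold Dens
  exact (integrable_kap_of_integrable integrable_toReal_rnDeriv).const_mul π

/-- abstract lemma: `F² ≤ P E`, `F ≤ 2 K P`, `P → D` in `L¹`, `E → 0` in measure imply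
`∫ F → 0` -/
theorem cc_specD_abs {F P Er : ℕ → ℝ → ℝ} {D : ℝ → ℝ} {K : ℝ} (hK : 0 ≤ K)
    (hF0 : ∀ k s, 0 ≤ F k s) (hP0 : ∀ k s, 0 ≤ P k s) (hD0 : ∀ s, 0 ≤ D s)
    (hEm : ∀ k, Measurable (Er k))
    (hPi : ∀ k, Integrable (P k) kap) (hDi : Integrable D kap)
    (hPD : Tendsto (fun k => ∫ s, |P k s - D s| ∂kap) atTop (𝓝 0))
    (hE : Null kap (fun k s => ENNReal.ofReal (Er k s)))
    (h1 : ∀ k s, F k s ≤ √(P k s) * √(Er k s)) (h2 : ∀ k s, F k s ≤ K * P k s) :
    Tendsto (fun k => ∫ s, F k s ∂kap) atTop (𝓝 0) := by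
  have hC : ∃ C : ℝ, 0 ≤ C ∧ ∀ᶠ k in atTop, ∫ s, P k s ∂kap ≤ C := by
    refine ⟨1 + ∫ s, D s ∂kap, by
      have h0 : 0 ≤ ∫ s, D s ∂kap := integral_nonneg fun s => hD0 s
      linarith, ?_⟩
    have h3 := hPD.eventually (gt_mem_nhds (zero_lt_one))
    filter_upwards [h3] with k hk
    have h4 : ∫ s, P k s ∂kap ≤ ∫ s, (|P k s - D s| + D s) ∂kap := by
      refine integral_mono (hPi k) (((hPi k).sub hDi).abs.add hDi) fun s => ?_
      simp only
      have := le_abs_self (P k s - D s)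
      linarith
    have h5 := integral_add ((hPi k).sub hDi).abs hDi
    simp only [Pi.sub_apply] at h5
    rw [h5] at h4
    linarith
  obtain ⟨C, hC0, hC⟩ := hC
  have hbound : ∀ δ : ℝ, 0 < δ → ∀ k, ∫ s, F k s ∂kap ≤ √δ * (1 + ∫ s, P k s ∂kap)
      + (K * ∫ s, |P k s - D s| ∂kap) + K * ∫ s in {s | δ < Er k s}, D s ∂kap := by
    intro δ hδ k
    have hms : MeasurableSet {s | δ < Er k s} := measurableSet_lt measurable_const (hEm k)
    have i1 : Integrable (fun s => √δ * (1 + P k s)) kap :=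
      ((integrable_const _).add (hPi k)).const_mul _
    have i2 : Integrable (fun s => K * |P k s - D s|) kap := ((hPi k).sub hDi).abs.const_mul _
    have i3 : Integrable (fun s => K * ({s | δ < Er k s}.indicator D s)) kap :=
      (hDi.indicator hms).const_mul _
    have h3 : ∫ s, F k s ∂kap ≤ ∫ s, ((√δ * (1 + P k s) + K * |P k s - D s|)
        + K * ({s | δ < Er k s}.indicator D s)) ∂kap := by
      refine integral_mono_of_nonneg (ae_of_all _ (hF0 k)) ((i1.add i2).add i3)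
        (ae_of_all _ fun s => ?_)
      simp only
      by_cases hs : δ < Er k s
      · have h4 : {s | δ < Er k s}.indicator D s = D s :=
          indicator_of_mem (show s ∈ {s | δ < Er k s} from hs) D
        rw [h4]
        have h5 := h2 k s
        have h6 := le_abs_self (P k s - D s)
        have h7 : 0 ≤ √δ * (1 + P k s) := by have := hP0 k s; positivity
        nlinarith
      · have h4 : {s | δ < Er k s}.indicator D s = 0 :=
          indicator_of_notMem (show s ∉ {s | δ < Er k s} from hs) D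
        rw [h4]
        push Not at hs
        have h5 : √(P k s) * √(Er k s) ≤ (1 + P k s) * √δ := by
          refine mul_le_mul ?_ (Real.sqrt_le_sqrt hs) (Real.sqrt_nonneg _)
            (by have := hP0 k s; positivity)
          rw [Real.sqrt_le_left (by have := hP0 k s; positivity)]
          nlinarith [hP0 k s]
        have h6 : 0 ≤ K * |P k s - D s| := by positivity
        have h7 := h1 k s
        linarith
    have e1 := integral_add (i1.add i2) i3
    have e2 := integral_add i1 i2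
    simp only [Pi.add_apply] at e1 e2
    rw [e1, e2, integral_const_mul, integral_const_mul, integral_const_mul,
      integral_indicator hms, integral_add (integrable_const _) (hPi k)] at h3
    simpa using h3
  rw [tendsto_order]
  refine ⟨fun a ha => Eventually.of_forall fun k =>
    lt_of_lt_of_le ha (integral_nonneg (hF0 k)), fun ε hε => ?_⟩
  -- choose `δ`
  obtain ⟨δ, hδ, hδε⟩ : ∃ δ : ℝ, 0 < δ ∧ √δ * (1 + C) < ε / 3 := by
    refine ⟨(ε / (6 * (1 + C))) ^ 2, by positivity, ?_⟩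
    rw [Real.sqrt_sq (by positivity)]
    have : ε / (6 * (1 + C)) * (1 + C) = ε / 6 := by field_simp
    rw [this]
    linarith
  have h3 : Tendsto (fun k => kap {s | δ < Er k s}) atTop (𝓝 0) := by
    have hmin : (0:ℝ≥0∞) < min 1 (ENNReal.ofReal δ) := lt_min one_pos (by simpa using hδ)
    have hmint : min 1 (ENNReal.ofReal δ) ≠ ⊤ :=
      ne_top_of_le_ne_top ENNReal.one_ne_top (min_le_left _ _)
    have h4 : ∀ k, kap {s | δ < Er k s}
        ≤ (∫⁻ s, min 1 (ENNReal.ofReal (Er k s)) ∂kap) / min 1 (ENNReal.ofReal δ) := by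
      intro k
      refine le_trans (measure_mono ?_) (meas_ge_le_lintegral_div
        (measurable_const.min (hEm k).ennreal_ofReal).aemeasurable hmin.ne' hmint)
      intro s hs
      exact min_le_min_left _ (ENNReal.ofReal_le_ofReal (le_of_lt hs))
    have h5 : Tendsto (fun k => (∫⁻ s, min 1 (ENNReal.ofReal (Er k s)) ∂kap)
        / min 1 (ENNReal.ofReal δ)) atTop (𝓝 (0 / min 1 (ENNReal.ofReal δ))) :=
      ENNReal.Tendsto.div_const hE (Or.inr hmin.ne')
    rw [ENNReal.zero_div] at h5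
    exact tendsto_of_tendsto_of_tendsto_of_le_of_le tendsto_const_nhds h5 (fun k => bot_le) h4
  have h4 : Tendsto (fun k => ∫ s in {s | δ < Er k s}, D s ∂kap) atTop (𝓝 0) :=
    hDi.tendsto_setIntegral_nhds_zero h3
  have h5 : Tendsto (fun k => K * ∫ s in {s | δ < Er k s}, D s ∂kap) atTop (𝓝 0) := by
    simpa using h4.const_mul K
  have h6 : Tendsto (fun k => K * ∫ s, |P k s - D s| ∂kap) atTop (𝓝 0) := by
    simpa using hPD.const_mul K
  have hε3 : 0 < ε / 3 := by positivity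
  filter_upwards [hC, h5.eventually (gt_mem_nhds hε3), h6.eventually (gt_mem_nhds hε3)]
    with k k1 k2 k3
  have h7 := hbound δ hδ k
  have h8 : √δ * (1 + ∫ s, P k s ∂kap) ≤ √δ * (1 + C) :=
    mul_le_mul_of_nonneg_left (by linarith) (Real.sqrt_nonneg _)
  linarith

/-- the statement with the weight `(1 + l²)⁻¹` -/
theorem cc_specD_main {H B : E →L[ℂ] E} (hH : IsSelfAdjoint H) (hcomm : Commute B H) {K : ℝ}
    (hK : ‖B‖ ≤ K) {α : ℝ → ℂ} (hα : Measurable α) (hαK : ∀ s, ‖α s‖ ≤ K)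
    (ho : Orthonormal ℂ e) (tot : ∀ u : E, (∀ x, ⟪e x, u⟫_ℂ = 0) → u = 0) {φ : ℕ → ℕ}
    (hφ : StrictMono φ)
    (h : ∀ᵐ s ∂kap, ∀ x, Tendsto (fun k => (Zt (tk (φ k)) s).im
      * ‖Rv H (Zt (tk (φ k)) s) (B (e x) - α s • e x)‖ ^ 2) atTop (𝓝 0))
    {ψ : E} {μ : Measure ℝ} [IsFiniteMeasure μ] (hμ : IsSpec H ψ μ) (hac : μ ≪ volume)
    (g : BoundedContinuousFunction ℝ ℝ) :
    ⟪ψ, cfc (fun l : ℝ => g l * (1 + l ^ 2)⁻¹) H (B ψ)⟫_ℂ
      = ∫ l, ((g l : ℂ) * α l) * ((1 + l ^ 2)⁻¹ : ℝ) ∂μ := by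
  have hK0 : 0 ≤ K := (norm_nonneg _).trans hK
  have hg0 : 0 ≤ ‖g‖ := norm_nonneg g
  set z : ℕ → ℝ → ℂ := fun k s => Zt (tk (φ k)) s with hz
  have hzi : ∀ k s, 0 < (z k s).im := fun k s => Zt_im_pos (tk_pos _) s
  have hzm : ∀ k, Measurable fun s => (z k s).im := fun k =>
    (Complex.continuous_im.comp continuous_Zt).measurable
  have hR : ∀ k (u : E), Continuous fun s => Rv H (z k s) u := fun k u =>
    cc_specC_continuous_Rv hH (tk_pos _) u
  have hJ := (tendsto_sesq hH ψ (B ψ) g).comp hφ.tendsto_atTop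
  -- the error
  set Er : ℕ → ℝ → ℝ := fun k s => (z k s).im * ‖Rv H (z k s) (B ψ - α s • ψ)‖ ^ 2 with hEr
  set P : ℕ → ℝ → ℝ := fun k s => Pois μ (z k s) with hP
  have hPR : ∀ k s, P k s = (z k s).im * ‖Rv H (z k s) ψ‖ ^ 2 := fun k s =>
    hμ.pois hH (hzi k s)
  have hsm : ∀ k, StronglyMeasurable fun s => Rv H (z k s) (B ψ - α s • ψ) := by
    intro k
    have h1 : (fun s => Rv H (z k s) (B ψ - α s • ψ))
        = fun s => Rv H (z k s) (B ψ) - α s • Rv H (z k s) ψ := by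
      funext s; rw [map_sub, map_smul]
    rw [h1]
    exact (hR k _).stronglyMeasurable.sub (hα.stronglyMeasurable.smul (hR k _).stronglyMeasurable)
  have hEm : ∀ k, Measurable (Er k) := fun k => (hzm k).mul ((hsm k).norm.measurable.pow_const 2)
  have hnull : Null kap (fun k s => ENNReal.ofReal (Er k s)) := by
    have h1 := null_all hH hcomm hK hα hαK ho tot hφ h ψ
    refine h1.mono fun k => ae_of_all _ fun s => le_of_eq ?_
    simp only [hEr]
    rw [ENNReal.ofReal_mul (hzi k s).le, ENNReal.ofReal_pow (norm_nonneg _), ofReal_norm]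
  -- the second term
  set F : ℕ → ℝ → ℝ := fun k s => (z k s).im * (‖Rv H (z k s) ψ‖
    * ‖Rv H (z k s) (B ψ - α s • ψ)‖) with hF
  have hF0 : ∀ k s, 0 ≤ F k s := fun k s => by have := hzi k s; simp only [hF]; positivity
  have hFm : ∀ k, Measurable (F k) := fun k =>
    (hzm k).mul ((hR k ψ).norm.measurable.mul (hsm k).norm.measurable)
  have hP0 : ∀ k s, 0 ≤ P k s := fun k s => Pois_nonneg μ (hzi k s)
  have hPi : ∀ k, Integrable (P k) kap := fun k => integrable_Pois μ (tk_pos _)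
  have hcomm2 : ∀ k s, ‖Rv H (z k s) (B ψ - α s • ψ)‖ ≤ 2 * K * ‖Rv H (z k s) ψ‖ := by
    intro k s
    rw [map_sub, map_smul, ← commute_apply (commute_Rv hcomm (z k s))]
    calc ‖B (Rv H (z k s) ψ) - α s • Rv H (z k s) ψ‖
        ≤ ‖B (Rv H (z k s) ψ)‖ + ‖α s • Rv H (z k s) ψ‖ := norm_sub_le _ _
      _ ≤ K * ‖Rv H (z k s) ψ‖ + K * ‖Rv H (z k s) ψ‖ := by
          refine add_le_add ?_ ?_
          · exact (B.le_opNorm _).trans (mul_le_mul_of_nonneg_right hK (norm_nonneg _))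
          · rw [norm_smul]
            exact mul_le_mul_of_nonneg_right (hαK s) (norm_nonneg _)
      _ = 2 * K * ‖Rv H (z k s) ψ‖ := by ring
  have hFlim : Tendsto (fun k => ∫ s, F k s ∂kap) atTop (𝓝 0) := by
    refine cc_specD_abs (P := P) (Er := Er) (D := Dens μ) (K := 2 * K) (by positivity) hF0 hP0
      (Dens_nonneg μ) hEm hPi (cc_specD_integrable_Dens μ)
      ((pois_tendsto_L1 hac).comp hφ.tendsto_atTop) hnull ?_ ?_
    · intro k s
      rw [← Real.sqrt_mul (hP0 k s), hPR]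
      refine Real.le_sqrt_of_sq_le (le_of_eq ?_)
      simp only [hF, hEr]
      ring
    · intro k s
      rw [hPR]
      have h1 := hcomm2 k s
      have h2 := hzi k s
      simp only [hF]
      calc (z k s).im * (‖Rv H (z k s) ψ‖ * ‖Rv H (z k s) (B ψ - α s • ψ)‖)
          ≤ (z k s).im * (‖Rv H (z k s) ψ‖ * (2 * K * ‖Rv H (z k s) ψ‖)) := by gcongr
        _ = 2 * K * ((z k s).im * ‖Rv H (z k s) ψ‖ ^ 2) := by ring
  -- integrability
  have hFi : ∀ k, Integrable (F k) kap := by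
    intro k
    refine Integrable.mono' ((hPi k).const_mul (2 * K)) (hFm k).aestronglyMeasurable
      (ae_of_all _ fun s => ?_)
    rw [Real.norm_of_nonneg (hF0 k s), hPR]
    have h1 := hcomm2 k s
    have h2 := hzi k s
    simp only [hF]
    calc (z k s).im * (‖Rv H (z k s) ψ‖ * ‖Rv H (z k s) (B ψ - α s • ψ)‖)
        ≤ (z k s).im * (‖Rv H (z k s) ψ‖ * (2 * K * ‖Rv H (z k s) ψ‖)) := by gcongr
      _ = 2 * K * ((z k s).im * ‖Rv H (z k s) ψ‖ ^ 2) := by ring
  set S2 : ℕ → ℝ → ℂ := fun k s => (g s : ℂ) * (((z k s).im : ℂ)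
      * ⟪Rv H (z k s) ψ, Rv H (z k s) (B ψ - α s • ψ)⟫_ℂ) with hS2
  have hS2m : ∀ k, StronglyMeasurable (S2 k) := by
    intro k
    refine StronglyMeasurable.mul (Complex.continuous_ofReal.comp g.continuous).stronglyMeasurable
      (StronglyMeasurable.mul (Complex.continuous_ofReal.measurable.comp
        (hzm k)).stronglyMeasurable ?_)
    exact (hR k ψ).stronglyMeasurable.inner (hsm k)
  have hS2b : ∀ k s, ‖S2 k s‖ ≤ ‖g‖ * F k s := by
    intro k s
    simp only [hS2, hF]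
    rw [norm_mul, norm_mul, Complex.norm_real, Complex.norm_real,
      Real.norm_of_nonneg (hzi k s).le]
    have h1 := norm_inner_le_norm (𝕜 := ℂ) (Rv H (z k s) ψ) (Rv H (z k s) (B ψ - α s • ψ))
    have h2 := g.norm_coe_le_norm s
    have h3 := hzi k s
    gcongr
  have hS2i : ∀ k, Integrable (S2 k) kap := fun k =>
    Integrable.mono' ((hFi k).const_mul ‖g‖) (hS2m k).aestronglyMeasurable
      (ae_of_all _ (hS2b k))
  have hS2lim : Tendsto (fun k => ∫ s, S2 k s ∂kap) atTop (𝓝 0) := by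
    rw [tendsto_zero_iff_norm_tendsto_zero]
    refine squeeze_zero (fun k => norm_nonneg _) (fun k => ?_)
      (by simpa using hFlim.const_mul ‖g‖)
    refine (norm_integral_le_integral_norm _).trans ?_
    rw [← integral_const_mul]
    exact integral_mono_of_nonneg (ae_of_all _ fun s => norm_nonneg _) ((hFi k).const_mul _)
      (ae_of_all _ (hS2b k))
  -- the main term
  set S1 : ℕ → ℝ → ℂ := fun k s => ((g s : ℂ) * α s) * (P k s : ℂ) with hS1
  have hgα : Measurable fun s => (g s : ℂ) * α s :=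
    (Complex.continuous_ofReal.comp g.continuous).measurable.mul hα
  have hgαb : ∀ s, ‖(g s : ℂ) * α s‖ ≤ ‖g‖ * K := by
    intro s
    rw [norm_mul, Complex.norm_real]
    exact mul_le_mul (g.norm_coe_le_norm s) (hαK s) (norm_nonneg _) hg0
  have hS1i : ∀ k, Integrable (S1 k) kap := by
    intro k
    refine ((hPi k).ofReal).bdd_mul (c := ‖g‖ * K) hgα.aestronglyMeasurable ?_
    exact ae_of_all _ hgαb
  have hDi : Integrable (fun s => ((g s : ℂ) * α s) * (Dens μ s : ℂ)) kap := by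
    refine ((cc_specD_integrable_Dens μ).ofReal).bdd_mul (c := ‖g‖ * K)
      hgα.aestronglyMeasurable ?_
    exact ae_of_all _ hgαb
  have hS1lim : Tendsto (fun k => ∫ s, S1 k s ∂kap) atTop
      (𝓝 (∫ s, ((g s : ℂ) * α s) * (Dens μ s : ℂ) ∂kap)) := by
    rw [tendsto_iff_norm_sub_tendsto_zero]
    have h1 : Tendsto (fun k => (‖g‖ * K) * ∫ s, |P k s - Dens μ s| ∂kap) atTop (𝓝 0) := by
      simpa using ((pois_tendsto_L1 hac).comp hφ.tendsto_atTop).const_mul (‖g‖ * K)
    refine squeeze_zero (fun k => norm_nonneg _) (fun k => ?_) h1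
    rw [← integral_sub (hS1i k) hDi, ← integral_const_mul]
    refine (norm_integral_le_integral_norm _).trans ?_
    refine integral_mono_of_nonneg (ae_of_all _ fun s => norm_nonneg _)
      (((hPi k).sub (cc_specD_integrable_Dens μ)).abs.const_mul _) (ae_of_all _ fun s => ?_)
    simp only [hS1]
    rw [← mul_sub, norm_mul, ← Complex.ofReal_sub, Complex.norm_real, Real.norm_eq_abs]
    exact mul_le_mul_of_nonneg_right (hgαb s) (abs_nonneg _)
  have hsplit : ∀ k, ∫ s, (g s : ℂ) * (((Zt (tk (φ k)) s).im : ℂ)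
      * ⟪Rv H (Zt (tk (φ k)) s) ψ, Rv H (Zt (tk (φ k)) s) (B ψ)⟫_ℂ) ∂kap
      = ∫ s, S1 k s ∂kap + ∫ s, S2 k s ∂kap := by
    intro k
    rw [← integral_add (hS1i k) (hS2i k)]
    refine integral_congr_ae (ae_of_all _ fun s => ?_)
    simp only [hS1, hS2, hPR]
    have h1 : Rv H (z k s) (B ψ) = α s • Rv H (z k s) ψ + Rv H (z k s) (B ψ - α s • ψ) := by
      rw [map_sub, map_smul]; abel
    show (g s : ℂ) * (((z k s).im : ℂ) * ⟪Rv H (z k s) ψ, Rv H (z k s) (B ψ)⟫_ℂ) = _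
    rw [h1, inner_add_right, inner_smul_right, inner_self_eq_norm_sq_to_K]
    push_cast
    simp only [RCLike.ofReal_alg, Complex.real_smul, mul_one]
    ring
  have hfin := hS1lim.add hS2lim
  rw [add_zero] at hfin
  have h2 : (fun k => ∫ s, S1 k s ∂kap + ∫ s, S2 k s ∂kap)
      = ((fun k => ∫ s, (g s : ℂ) * (((Zt (tk k) s).im : ℂ)
      * ⟪Rv H (Zt (tk k) s) ψ, Rv H (Zt (tk k) s) (B ψ)⟫_ℂ) ∂kap) ∘ φ) := by
    funext k
    exact (hsplit k).symm
  rw [h2] at hfin
  rw [tendsto_nhds_unique hJ hfin, integral_Dens hac hgα hgαb]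

theorem cc_specD_spectrum {H : E →L[ℂ] E} {l : ℝ} (hl : l ∈ spectrum ℝ H) : |l| ≤ ‖H‖ := by
  have h1 := spectrum.norm_le_norm_mul_of_mem hl
  have h2 : ‖(1 : E →L[ℂ] E)‖ ≤ 1 := ContinuousLinearMap.norm_id_le
  rw [Real.norm_eq_abs] at h1
  calc |l| ≤ ‖H‖ * ‖(1 : E →L[ℂ] E)‖ := h1
    _ ≤ ‖H‖ * 1 := mul_le_mul_of_nonneg_left h2 (norm_nonneg _)
    _ = ‖H‖ := mul_one _

/-- the spectral measure is carried by `[-‖H‖, ‖H‖]` -/
theorem cc_specD_carrier {H : E →L[ℂ] E} {ψ : E} {μ : Measure ℝ} [IsFiniteMeasure μ]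
    (hμ : IsSpec H ψ μ) : ∀ᵐ l ∂μ, |l| ≤ ‖H‖ := by
  let b : BoundedContinuousFunction ℝ ℝ :=
    BoundedContinuousFunction.ofNormedAddCommGroup (fun l => max 0 (min 1 (|l| - ‖H‖)))
      (by fun_prop) 1 (fun x => by
        rw [Real.norm_eq_abs, abs_le]
        constructor
        · have := le_max_left 0 (min 1 (|x| - ‖H‖)); linarith
        · exact max_le zero_le_one (min_le_left _ _))
  have hb : ∀ l, b l = max 0 (min 1 (|l| - ‖H‖)) := fun l => rfl
  have h1 := hμ b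
  have h2 : cfc (⇑b) H = cfc (fun _ : ℝ => (0:ℝ)) H := by
    refine cfc_congr fun l hl => ?_
    have h3 := cc_specD_spectrum hl
    rw [hb]
    exact max_eq_left ((min_le_right _ _).trans (by linarith))
  rw [h2, cfc_const_zero] at h1
  have h3 : ∫ x, b x ∂μ = 0 := by
    have : ((∫ x, b x ∂μ : ℝ) : ℂ) = 0 := by rw [h1]; simp
    exact_mod_cast this
  have h4 : 0 ≤ᵐ[μ] ⇑b := ae_of_all _ fun l => by
    rw [hb]; exact le_max_left _ _
  rw [integral_eq_zero_iff_of_nonneg_ae h4 (b.integrable μ)] at h3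
  filter_upwards [h3] with l hl
  rw [hb] at hl
  by_contra hcon
  push Not at hcon
  have h5 : 0 < min 1 (|l| - ‖H‖) := lt_min one_pos (by linarith)
  have h6 : min 1 (|l| - ‖H‖) ≤ max 0 (min 1 (|l| - ‖H‖)) := le_max_right _ _
  rw [hl] at h6
  simp only [Pi.zero_apply] at h6
  linarith

/-- on the absolutely continuous subspace `B` is the function `α` of `H` -/
theorem spec_final {H B : E →L[ℂ] E} (hH : IsSelfAdjoint H) (hcomm : Commute B H) {K : ℝ}
    (hK : ‖B‖ ≤ K) {α : ℝ → ℂ} (hα : Measurable α) (hαK : ∀ s, ‖α s‖ ≤ K)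
    (ho : Orthonormal ℂ e) (tot : ∀ u : E, (∀ x, ⟪e x, u⟫_ℂ = 0) → u = 0) {φ : ℕ → ℕ}
    (hφ : StrictMono φ)
    (h : ∀ᵐ s ∂kap, ∀ x, Tendsto (fun k => (Zt (tk (φ k)) s).im
      * ‖Rv H (Zt (tk (φ k)) s) (B (e x) - α s • e x)‖ ^ 2) atTop (𝓝 0))
    {ψ : E} {μ : Measure ℝ} [IsFiniteMeasure μ] (hμ : IsSpec H ψ μ) (hac : μ ≪ volume)
    (f : BoundedContinuousFunction ℝ ℝ) :
    ⟪ψ, cfc (⇑f) H (B ψ)⟫_ℂ = ∫ s, (f s : ℂ) * α s ∂μ := by
  let g : BoundedContinuousFunction ℝ ℝ :=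
    BoundedContinuousFunction.ofNormedAddCommGroup (fun l => f l * (1 + min (l ^ 2) (‖H‖ ^ 2)))
      (f.continuous.mul (by fun_prop)) (‖f‖ * (1 + ‖H‖ ^ 2)) (fun l => by
        have h0 : 0 ≤ min (l ^ 2) (‖H‖ ^ 2) := le_min (by positivity) (by positivity)
        rw [norm_mul, Real.norm_of_nonneg (by linarith : (0:ℝ) ≤ 1 + min (l ^ 2) (‖H‖ ^ 2))]
        exact mul_le_mul (f.norm_coe_le_norm l) (by
          have := min_le_right (l ^ 2) (‖H‖ ^ 2); linarith) (by linarith) (norm_nonneg _))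
  have hg : ∀ l : ℝ, |l| ≤ ‖H‖ → g l * (1 + l ^ 2)⁻¹ = f l := by
    intro l hl
    have h1 : min (l ^ 2) (‖H‖ ^ 2) = l ^ 2 := by
      refine min_eq_left ?_
      rw [← sq_abs]
      exact pow_le_pow_left₀ (abs_nonneg _) hl 2
    show f l * (1 + min (l ^ 2) (‖H‖ ^ 2)) * (1 + l ^ 2)⁻¹ = f l
    rw [h1]
    have : (1 + l ^ 2) ≠ 0 := by positivity
    field_simp
  have h1 := cc_specD_main hH hcomm hK hα hαK ho tot hφ h hμ hac g
  have h2 : cfc (fun l : ℝ => g l * (1 + l ^ 2)⁻¹) H = cfc (⇑f) H :=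
    cfc_congr fun l hl => hg l (cc_specD_spectrum hl)
  rw [h2] at h1
  rw [h1]
  refine integral_congr_ae ?_
  filter_upwards [cc_specD_carrier hμ] with l hl
  rw [← hg l hl]
  push_cast
  ring

end Pool.Agent.Lib.MP_562b47_mp
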